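import Pool.Agent.H46.QP.Fix

/-!
Frobenius reciprocity for intertwiners of magic matrices.
-/

namespace H46QP

open scoped InnerProductSpace

noncomputable section

open QPerm

variable {n : ℕ} {C : Type*} [Ring C] [Algebra ℂ C]

/-- Bending of a kernel. -/
def bendK {a b : ℕ} (S : (Fin (a + 1) → Fin n) → (Fin b → Fin n) → ℂ) :
    (Fin a → Fin n) → (Fin (b + 1) → Fin n) → ℂ :=
  fun z y => S (Fin.cons (y 0) z) (Fin.tail y)

/-- Inverse bending of a kernel. -/
def unbK {a b : ℕ} (S : (Fin a → Fin n) → (Fin (b + 1) → Fin n) → ℂ) :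
    (Fin (a + 1) → Fin n) → (Fin b → Fin n) → ℂ :=
  fun z y => S (Fin.tail z) (Fin.cons (z 0) y)

theorem bendK_unbK {a b : ℕ} (S : (Fin a → Fin n) → (Fin (b + 1) → Fin n) → ℂ) :
    bendK (unbK S) = S := by
  funext z y
  simp only [bendK, unbK, tail_cons', cons_zero', Fin.cons_self_tail]

theorem bendK_hom {v : Fin n → Fin n → C} (hv : IsMagic v) {a b : ℕ}
    {S : (Fin (a + 1) → Fin n) → (Fin b → Fin n) → ℂ} (hS : IsHom v (a + 1) b S) :
    IsHom v a (b + 1) (bendK S) := by
  intro i j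
  have h1 : ∀ c, ∑ y' : Fin b → Fin n, bendK S i (Fin.cons c y') • wd v (b + 1) (Fin.cons c y') j =
      v c (j 0) * ∑ d, v c d * ∑ z', S (Fin.cons d z') (Fin.tail j) • wd v a i z' := by
    intro c
    have h2 := hS (Fin.cons c i) (Fin.tail j)
    rw [sum_cons] at h2
    simp only [wd_cons, cons_zero', tail_cons', ← mul_smul_comm, ← Finset.mul_sum] at h2
    rw [h2, Finset.mul_sum]
    refine Finset.sum_congr rfl fun y' _ => ?_
    rw [wd_cons_left, mul_smul_comm]
    simp only [bendK, cons_zero', tail_cons']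
  rw [sum_cons (fun y => bendK S i y • wd v (b + 1) y j)]
  simp only [h1, Finset.mul_sum, ← mul_assoc, hv.row, ite_mul, zero_mul]
  have h3 : ∀ c, ∑ d, ∑ z', (if j 0 = d then
      v c (j 0) * S (Fin.cons d z') (Fin.tail j) • wd v a i z' else 0) =
      v c (j 0) * ∑ z', S (Fin.cons (j 0) z') (Fin.tail j) • wd v a i z' := by
    intro c
    rw [Finset.sum_eq_single (j 0)]
    · simp only [if_true, Finset.mul_sum]
    · intro d _ hd'
      simp [Ne.symm hd']
    · intro h; exact absurd (Finset.mem_univ _) h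
  simp only [h3, ← Finset.sum_mul, hv.colSum, one_mul]
  rfl

theorem unbK_hom {v : Fin n → Fin n → C} (hv : IsMagic v) {a b : ℕ}
    {S : (Fin a → Fin n) → (Fin (b + 1) → Fin n) → ℂ} (hS : IsHom v a (b + 1) S) :
    IsHom v (a + 1) b (unbK S) := by
  intro i j
  have h1 : ∀ c, ∑ z' : Fin a → Fin n, unbK S (Fin.cons c z') j • wd v (a + 1) i (Fin.cons c z') =
      v (i 0) c * ∑ d, v d c * ∑ y', S (Fin.tail i) (Fin.cons d y') • wd v b y' j := by
    intro c
    have h2 := hS (Fin.tail i) (Fin.cons c j)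
    rw [sum_cons (fun y => S (Fin.tail i) y • wd v (b + 1) y (Fin.cons c j))] at h2
    simp only [wd_cons_left, cons_zero', tail_cons', ← mul_smul_comm, ← Finset.mul_sum] at h2
    rw [← h2, Finset.mul_sum]
    refine Finset.sum_congr rfl fun z' _ => ?_
    rw [wd_cons, mul_smul_comm]
    simp only [unbK, cons_zero', tail_cons']
  rw [sum_cons]
  simp only [h1, Finset.mul_sum, ← mul_assoc, hv.col, ite_mul, zero_mul]
  rw [Finset.sum_comm]
  have h3 : ∀ d, ∑ c, ∑ y', (if i 0 = d then
      v (i 0) c * S (Fin.tail i) (Fin.cons d y') • wd v b y' j else 0) =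
      if i 0 = d then ∑ y', S (Fin.tail i) (Fin.cons d y') • wd v b y' j else 0 := by
    intro d
    by_cases h : i 0 = d
    · simp only [if_pos h, ← Finset.mul_sum, ← Finset.sum_mul, hv.rowSum, one_mul]
    · simp only [if_neg h, Finset.sum_const_zero]
  simp only [h3, Finset.sum_ite_eq, Finset.mem_univ, if_true]
  rfl

theorem IsHom_zero_iff (v : Fin n → Fin n → C) (a : ℕ)
    (S : (Fin a → Fin n) → (Fin 0 → Fin n) → ℂ) :
    IsHom v a 0 S ↔ (WithLp.toLp 2 (fun z => S z (fun i => i.elim0)) : T n a) ∈ FixS v a := by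
  constructor
  · intro h i
    have h1 := h i (fun i => i.elim0)
    rw [Fintype.sum_subsingleton _ (fun i => i.elim0 : Fin 0 → Fin n), wd] at h1
    rw [Algebra.algebraMap_eq_smul_one]
    exact h1
  · intro h i j
    have hj : j = fun i => i.elim0 := Subsingleton.elim _ _
    subst hj
    rw [Fintype.sum_subsingleton _ (fun i => i.elim0 : Fin 0 → Fin n), wd]
    have h1 := h i
    rw [Algebra.algebraMap_eq_smul_one] at h1
    exact h1

theorem IsHom_map {D : Type*} [Ring D] [Algebra ℂ D] {v : Fin n → Fin n → C} (f : C →ₐ[ℂ] D)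
    {a b : ℕ} {S : (Fin a → Fin n) → (Fin b → Fin n) → ℂ} (h : IsHom v a b S) :
    IsHom (fun i j => f (v i j)) a b S := by
  intro i j
  have h1 := congrArg f (h i j)
  simp only [map_sum, map_smul] at h1
  have hw : ∀ k (i j : Fin k → Fin n), f (wd v k i j) = wd (fun a b => f (v a b)) k i j :=
    fun k i j => wd_hom v (f : C →+* D) k i j
  simp only [hw] at h1
  exact h1

theorem IsHom_of_inj {D : Type*} [Ring D] [Algebra ℂ D] {v : Fin n → Fin n → C} (f : C →ₐ[ℂ] D)
    (hf : Function.Injective f) {a b : ℕ} {S : (Fin a → Fin n) → (Fin b → Fin n) → ℂ}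
    (h : IsHom (fun i j => f (v i j)) a b S) : IsHom v a b S := by
  intro i j
  apply hf
  simp only [map_sum, map_smul]
  have hw : ∀ k (i j : Fin k → Fin n), f (wd v k i j) = wd (fun a b => f (v a b)) k i j :=
    fun k i j => wd_hom v (f : C →+* D) k i j
  simp only [hw]
  exact h i j

theorem FixS_map {D : Type*} [Ring D] [Algebra ℂ D] {v : Fin n → Fin n → C} (f : C →ₐ[ℂ] D)
    {k : ℕ} {ξ : T n k} (h : ξ ∈ FixS v k) : ξ ∈ FixS (fun i j => f (v i j)) k := by
  intro i
  have h1 := congrArg f (h i)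
  simp only [map_sum, map_smul] at h1
  have hw : ∀ k (i j : Fin k → Fin n), f (wd v k i j) = wd (fun a b => f (v a b)) k i j :=
    fun k i j => wd_hom v (f : C →+* D) k i j
  simp only [hw] at h1
  rw [h1, AlgHom.commutes]

/-- From fixed vectors to all intertwiners. -/
theorem hom_of_fix {ι : Type*} {D : Type*} [Ring D] [Algebra ℂ D]
    (tst : ι → Fin n → Fin n → D) (ht : ∀ t, IsMagic (tst t)) {v : Fin n → Fin n → C}
    (hv : IsMagic v)
    (hfix : ∀ (k : ℕ) (ξ : T n k), (∀ t, ξ ∈ FixS (tst t) k) → ξ ∈ FixS v k) (b : ℕ) :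
    ∀ (a : ℕ) (S : (Fin a → Fin n) → (Fin b → Fin n) → ℂ),
      (∀ t, IsHom (tst t) a b S) → IsHom v a b S := by
  induction b with
  | zero =>
    intro a S h
    rw [IsHom_zero_iff]
    apply hfix
    intro t
    rw [← IsHom_zero_iff]
    exact h t
  | succ b ih =>
    intro a S h
    rw [← bendK_unbK S]
    apply bendK_hom hv
    apply ih
    intro t
    exact unbK_hom (ht t) (h t)

/-- Equality of fixed spaces from the absence of fixed vectors in W. -/
theorem fix_of_W {ι : Type*} {D : Type} [Ring D] [Algebra ℂ D]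
    (tst : ι → Fin n → Fin n → D) (ht : ∀ t, IsMagic (tst t))
    (hW : ∀ (k : ℕ) (ξ : T n (k + 1)), ξ ∈ W n (k + 1) → (∀ t, ξ ∈ FixS (tst t) (k + 1)) → ξ = 0)
    (k : ℕ) : ∀ ξ : T n k, (∀ t, ξ ∈ FixS (tst t) k) → ξ ∈ FixS (u (n := n)) k := by
  induction k with
  | zero => intro ξ _; exact FixS_zero _ ξ
  | succ k ih =>
    intro ξ hξ
    obtain ⟨y, hy, z, hz, rfl⟩ := (FixS (u (n := n)) (k + 1)).exists_add_mem_mem_orthogonal ξ
    have hyt : ∀ t, y ∈ FixS (tst t) (k + 1) := by
      intro t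
      have h1 := FixS_map (lift (tst t) (ht t)) hy
      simp only [lift_u] at h1
      exact h1
    have hzt : ∀ t, z ∈ FixS (tst t) (k + 1) := by
      intro t
      have h1 := Submodule.sub_mem _ (hξ t) (hyt t)
      rw [add_sub_cancel_left] at h1
      exact h1
    have cap : ∀ (S : (Fin k → Fin n) → (Fin (k + 1) → Fin n) → ℂ)
        (_ : ∀ i y, (starRingEnd ℂ) (S i y) = S i y) (_ : ∀ t, IsHom (tst t) k (k + 1) S)
        (_ : IsHom (u (n := n)) (k + 1) k (fun y i => S i y)), LK S z = 0 := by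
      intro S hr h1 h2
      have h3 : LK S z ∈ FixS (u (n := n)) k := ih _ fun t => LK_Fix (h1 t) (hzt t)
      have h4 := LK_Fix h2 h3
      have h5 : ⟪LK (fun y i => S i y) (LK S z), z⟫_ℂ = 0 :=
        (Submodule.mem_orthogonal _ _).1 hz _ h4
      rw [LK_inner _ (fun y i => hr i y)] at h5
      exact inner_self_eq_zero.1 h5
    have hz0 : z = 0 := by
      apply hW k z _ hzt
      apply W_of_caps
      · intro p
        exact cap _ (smK_real p k) (fun t => (smK_hom (ht t) p k).1) (smK_hom u_magic p k).2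
      · cases k with
        | zero => exact trivial
        | succ m =>
          intro p
          exact cap _ (mgK_real p m) (fun t => (mgK_hom (ht t) p m).1) (mgK_hom u_magic p m).2
    rw [hz0, add_zero]
    exact hy

end

end H46QP
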