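import Mathlib

/-!
The finite-dimensional double commutant theorem, from the Jacobson density theorem.
-/

namespace H46QP

open scoped InnerProductSpace

theorem bicomm {E : Type*} [NormedAddCommGroup E] [InnerProductSpace ℂ E] [FiniteDimensional ℂ E]
    (R : Subalgebra ℂ (Module.End ℂ E)) (hR : ∀ r ∈ R, LinearMap.adjoint r ∈ R)
    (G : Module.End ℂ E)
    (hG : ∀ T : Module.End ℂ E, (∀ r ∈ R, T * r = r * T) → T * G = G * T) : G ∈ R := by
  classical
  -- complements
  have hc : ComplementedLattice (Submodule R E) := by
    refine ⟨fun W => ?_⟩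
    let Wc : Submodule ℂ E := W.restrictScalars ℂ
    have hmem : ∀ x, x ∈ Wc ↔ x ∈ W := fun x => Iff.rfl
    let V : Submodule R E :=
      { carrier := (Wcᗮ : Set E)
        add_mem' := fun ha hb => Wcᗮ.add_mem ha hb
        zero_mem' := Wcᗮ.zero_mem
        smul_mem' := by
          intro r x hx
          have hx' : x ∈ Wcᗮ := hx
          change (r : Module.End ℂ E) x ∈ Wcᗮ
          rw [Submodule.mem_orthogonal] at hx' ⊢
          intro w hw
          have h1 : (LinearMap.adjoint (r : Module.End ℂ E)) w ∈ Wc :=
            W.smul_mem (⟨LinearMap.adjoint (r : Module.End ℂ E), hR _ r.2⟩ : R) hw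
          rw [← LinearMap.adjoint_inner_left]
          exact hx' _ h1 }
    refine ⟨V, ?_, ?_⟩
    · rw [Submodule.disjoint_def]
      intro x hx hx'
      have h := (Submodule.mem_orthogonal Wc x).1 hx' x hx
      exact inner_self_eq_zero.1 h
    · rw [codisjoint_iff, eq_top_iff]
      intro x _
      obtain ⟨y, hy, z, hz, rfl⟩ := Wc.exists_add_mem_mem_orthogonal x
      exact Submodule.add_mem_sup (show y ∈ W from hy) (show z ∈ V from hz)
  have hs : IsSemisimpleModule R E := by
    rw [isSemisimpleModule_iff]
    exact hc
  let f : Module.End (Module.End R E) E :=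
    { toFun := fun x => G x
      map_add' := fun x y => G.map_add x y
      map_smul' := by
        intro φ x
        let T : Module.End ℂ E := φ.restrictScalars ℂ
        have hT : ∀ r ∈ R, T * r = r * T := by
          intro r hr
          ext x
          exact φ.map_smul (⟨r, hr⟩ : R) x
        have h := hG T hT
        have h2 := LinearMap.congr_fun h x
        exact h2.symm }
  let b := Module.finBasis ℂ E
  obtain ⟨r, hr⟩ := jacobson_density f (Finset.univ.image (fun i => b i))
  have hGr : G = (r : Module.End ℂ E) := by
    refine b.ext fun i => ?_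
    exact hr (b i) (Finset.mem_image_of_mem _ (Finset.mem_univ i))
  rw [hGr]
  exact r.2

end H46QP
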