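import Pool.Agent.H46.QP.Defect

/-!
Change of one colour of the grading, and its effect on the defect expansion.
-/

namespace H46QP

open scoped InnerProductSpace

noncomputable section

variable {n : ℕ}

/-- The colour t does not occur in e. -/
structure Nt (e : Gr n) (t : Fin n) : Prop where
  a : t ≠ e.a
  b : t ≠ e.b
  c : t ≠ e.c
  d : t ≠ e.d

theorem Nt.sw {e : Gr n} {t : Fin n} (h : Nt e t) : Nt e.sw t := ⟨h.c, h.d, h.a, h.b⟩

/-- Replace the second colour by t. -/
def chX (e : Gr n) (t : Fin n) (h : Nt e t) : Gr n :=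
  ⟨e.a, t, e.c, e.d, h.a.symm, e.ac, e.ad, h.c, h.d, e.cd⟩

/-- Replace the fourth colour by t. -/
def chY (e : Gr n) (t : Fin n) (h : Nt e t) : Gr n :=
  ⟨e.a, e.b, e.c, t, e.ab, e.ac, h.a.symm, e.bc, h.b.symm, h.c.symm⟩

theorem chX_sw (e : Gr n) (t : Fin n) (h : Nt e t) : (chX e t h).sw = chY e.sw t h.sw := rfl
theorem chY_sw (e : Gr n) (t : Fin n) (h : Nt e t) : (chY e t h).sw = chX e.sw t h.sw := rfl
theorem fY_chX (e : Gr n) (t : Fin n) (h : Nt e t) : (chX e t h).fY = e.fY := rfl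
theorem sY_chX (e : Gr n) (t : Fin n) (h : Nt e t) : (chX e t h).sY = e.sY := rfl
theorem fX_chY (e : Gr n) (t : Fin n) (h : Nt e t) : (chY e t h).fX = e.fX := rfl
theorem sX_chY (e : Gr n) (t : Fin n) (h : Nt e t) : (chY e t h).sX = e.sX := rfl

/-- The even part of the new letter. -/
def tX (e : Gr n) (t : Fin n) : Fin n → ℂ := (1 / 2 : ℂ) • e.sX - dl t

/-- The even part of the new letter. -/
def tY (e : Gr n) (t : Fin n) : Fin n → ℂ := (1 / 2 : ℂ) • e.sY - dl t

theorem tX_sw (e : Gr n) (t : Fin n) : tX e.sw t = tY e t := rfl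
theorem tY_sw (e : Gr n) (t : Fin n) : tY e.sw t = tX e t := rfl

theorem dla_eq (e : Gr n) : dl e.a = (1 / 2 : ℂ) • e.fX + (1 / 2 : ℂ) • e.sX := by
  rw [Gr.fX, Gr.sX]; module

theorem dlb_eq (e : Gr n) : dl e.b = (1 / 2 : ℂ) • e.sX - (1 / 2 : ℂ) • e.fX := by
  rw [Gr.fX, Gr.sX]; module

theorem fX_chX (e : Gr n) (t : Fin n) (h : Nt e t) :
    (chX e t h).fX = (1 / 2 : ℂ) • e.fX + tX e t := by
  change dl e.a - dl t = _
  rw [dla_eq, tX]; module

theorem fY_chY (e : Gr n) (t : Fin n) (h : Nt e t) :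
    (chY e t h).fY = (1 / 2 : ℂ) • e.fY + tY e t := by
  have h1 := fX_chX e.sw t h.sw
  rw [← chY_sw, Gr.fX_sw, Gr.fX_sw, tX_sw] at h1
  exact h1

theorem Triv_sX (e : Gr n) : Triv e e.sX := by
  constructor
  · rw [pr_fX, sX_a, sX_b, sub_self]
  · rw [pr_fY, sX_c, sX_d, sub_self]

theorem Triv_sw' {e : Gr n} {v : Fin n → ℂ} (h : Triv e.sw v) : Triv e v := by
  have h1 := Triv_sw h
  rw [Gr.sw_sw] at h1
  exact h1

theorem Triv_sY (e : Gr n) : Triv e e.sY := by
  have h1 := Triv_sX e.sw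
  rw [Gr.sX_sw] at h1
  exact Triv_sw' h1

theorem Triv_dl {e : Gr n} {t : Fin n} (h : Nt e t) : Triv e (dl t) := by
  constructor
  · rw [pr_comm, pr_dl, fX_of_ne e h.a h.b]
  · rw [pr_comm, pr_dl, fY_of_ne e h.c h.d]

theorem Triv_tX {e : Gr n} {t : Fin n} (h : Nt e t) : Triv e (tX e t) := by
  constructor
  · rw [tX, pr_sub_l, pr_smul_l, (Triv_sX e).1, (Triv_dl h).1]; ring
  · rw [tX, pr_sub_l, pr_smul_l, (Triv_sX e).2, (Triv_dl h).2]; ring

theorem Triv_tY {e : Gr n} {t : Fin n} (h : Nt e t) : Triv e (tY e t) := by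
  have h1 := Triv_tX h.sw
  rw [tX_sw] at h1
  exact Triv_sw' h1

theorem O_XX {k : ℕ} {e : Gr n} {x : T n (k + 1 + 1)} (h : O (k + 1) e x) :
    con e.fX (con e.fX x) = 0 := by
  have h1 := O_conY (O_conX h)
  rw [Gr.fY_sw] at h1
  exact h1

/-- The proportionality constants. -/
def cXY : ℕ → ℂ × ℂ
  | 0 => (1, 1)
  | k + 1 => (1 / 2 * (cXY k).2, (cXY k).1)

theorem cXY_ne (k : ℕ) : (cXY k).1 ≠ 0 ∧ (cXY k).2 ≠ 0 := by
  induction k with
  | zero => simp [cXY]
  | succ k ih =>
    rw [cXY]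
    exact ⟨mul_ne_zero (by norm_num) ih.2, ih.1⟩

theorem con_Tp {k : ℕ} {e : Gr n} {y : T n (k + 1)} (h : Tp (k + 1) e y) (v : Fin n → ℂ) :
    con v y = (1 / 2 * pr v e.fX) • con e.fX y := by
  rw [con_split e v y, Tp_triv h (tr_triv e v), Tp_conY h]
  simp

theorem top_ch (k : ℕ) (e : Gr n) (t : Fin n) (h : Nt e t) (y : T n k) (hy : Tp k e y) :
    ⟪alt k (chX e t h), y⟫_ℂ = (cXY k).1 * ⟪alt k e, y⟫_ℂ ∧
    ⟪alt k (chY e t h), y⟫_ℂ = (cXY k).2 * ⟪alt k e, y⟫_ℂ := by
  induction k generalizing e with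
  | zero => simp [alt, cXY]
  | succ k ih =>
    have h1 := ih e.sw h.sw (con e.fX y) (Tp_conX hy)
    constructor
    · rw [alt_succ, inner_ten _ (fX_real _), con_Tp hy, inner_smul_right, chX_sw, h1.2,
        alt_succ k e, inner_ten _ (fX_real _), cXY]
      have : pr (chX e t h).fX e.fX = 1 := by
        rw [fX_chX, pr_add_l, pr_smul_l, prXX, (Triv_tX h).1]; ring
      rw [this]; ring
    · rw [alt_succ, inner_ten _ (fX_real _), chY_sw, fX_chY, h1.1, alt_succ k e,
        inner_ten _ (fX_real _), cXY]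

theorem O_con {k : ℕ} {e : Gr n} {x : T n (k + 1)} (h : O k e x) (v : Fin n → ℂ) :
    con v x = con (tr e v) x + (1 / 2 * pr v e.fX) • con e.fX x := by
  rw [con_split e v x, O_conY h]
  simp

theorem E0_tr {k : ℕ} {e : Gr n} {x : T n (k + 1)} (h : O k e x) (v : Fin n → ℂ) :
    E 0 k e x (tr e v) = E 0 k e x v := by
  have h1 := E_fXY (p := 0) h
  rw [tr, E_sub, E_sub, E_smul, E_smul, h1.1, h1.2]
  ring

/-- The defect expansion of a tensor of full label vanishes beyond the first slot. -/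
theorem E_Tp_Y {q k : ℕ} {e e' : Gr n} {y : T n (k + 1)} (hy : Tp (k + 1) e y)
    (he : e'.fX = e.fY) (v : Fin n → ℂ) : E (q + 1) k e' y v = 0 := by
  cases k with
  | zero => rw [E_succ_zero]
  | succ k => rw [E_succ, he, Tp_conY hy, E_zerox]

theorem alt_Tp_Y {k : ℕ} {e e' : Gr n} {y : T n (k + 1)} (hy : Tp (k + 1) e y)
    (he : e'.fX = e.fY) : ⟪alt (k + 1) e', y⟫_ℂ = 0 := by
  rw [alt_succ, inner_ten _ (fX_real _), he, Tp_conY hy, inner_zero_right]

/-- First slot, second letter changed. -/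
theorem E0_chY {k : ℕ} {e : Gr n} {t : Fin n} (h : Nt e t) {x : T n (k + 1)} (hx : O k e x)
    (v : Fin n → ℂ) : E 0 k (chY e t h) x v = (cXY k).2 * E 0 k e x v := by
  rw [E_zero, O_con hx, inner_add_right, inner_smul_right,
    (top_ch k e t h _ (O_triv hx (tr_triv e v))).2, ← E_zero k e x, E0_tr hx]
  cases k with
  | zero => rw [O_conX0 hx, inner_zero_right]; ring
  | succ k =>
    rw [alt_succ, inner_ten _ (fX_real _), fX_chY, O_XX hx, inner_zero_right]
    ring

/-- First slot, first letter changed. -/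
theorem E0_chX {k : ℕ} {e : Gr n} {t : Fin n} (h : Nt e t) {x : T n (k + 1)} (hx : O k e x)
    (v : Fin n → ℂ) : E 0 k (chX e t h) x v =
      (cXY k).1 * (E 0 k e x v + pr v e.fX * E 1 k e x (tX e t)) := by
  rw [E_zero, O_con hx, inner_add_right, inner_smul_right,
    (top_ch k e t h _ (O_triv hx (tr_triv e v))).1, ← E_zero k e x, E0_tr hx]
  cases k with
  | zero => rw [O_conX0 hx, inner_zero_right, E_succ_zero]; ring
  | succ k =>
    have h1 : Tp k e.sw (con (tX e t) (con e.fX x)) :=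
      O_triv (O_conX hx) (Triv_sw (Triv_tX h))
    rw [alt_succ, inner_ten _ (fX_real _), fX_chX, con_add, con_smul,
      O_XX hx, smul_zero, zero_add, chX_sw,
      (top_ch k e.sw t h.sw _ h1).2, E_succ, E_zero k e.sw, cXY]
    ring

/-- Vectors orthogonal to the changed letter. -/
theorem E_ch_orth (q k : ℕ) (e : Gr n) (t : Fin n) (h : Nt e t) (x : T n (k + 1)) (hx : O k e x)
    (v : Fin n → ℂ) :
    (pr v e.fX = 0 → E q k (chX e t h) x v = (cXY k).1 * E q k e x v) ∧
    (pr v e.fY = 0 → E q k (chY e t h) x v = (cXY k).2 * E q k e x v) := by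
  induction q generalizing k e with
  | zero =>
    constructor
    · intro hv
      rw [E0_chX h hx, hv]; ring
    · intro _
      rw [E0_chY h hx]
  | succ q ih =>
    cases k with
    | zero =>
      simp only [E_succ_zero, mul_zero, implies_true, and_self]
    | succ k =>
      constructor
      · intro hv
        rw [E_succ, fX_chX, con_add, con_smul, E_addx, E_smulx, chX_sw,
          (ih k e.sw h.sw _ (O_conX hx)).2 hv, ← E_succ, cXY]
        have h2 : E q k (chY e.sw t h.sw) (con (tX e t) x) v = 0 := by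
          have hT : Tp (k + 1) e (con (tX e t) x) := O_triv hx (Triv_tX h)
          cases q with
          | zero => rw [E_zero, con_Tp hT, hv]; simp
          | succ q => exact E_Tp_Y hT rfl v
        rw [h2]; ring
      · intro hv
        rw [E_succ, fX_chY, chY_sw, (ih k e.sw h.sw _ (O_conX hx)).1 hv, ← E_succ, cXY]

/-- Slots followed by the changed letter. -/
theorem E_ch_next (q k : ℕ) (e : Gr n) (t : Fin n) (h : Nt e t) (x : T n (k + 1)) (hx : O k e x)
    (v : Fin n → ℂ) :
    (Even q → E q k (chX e t h) x v =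
      (cXY k).1 * (E q k e x v + pr v e.fX * E (q + 1) k e x (tX e t))) ∧
    (Odd q → E q k (chY e t h) x v =
      (cXY k).2 * (E q k e x v + pr v e.fY * E (q + 1) k e x (tY e t))) := by
  induction q generalizing k e with
  | zero =>
    refine ⟨fun _ => E0_chX h hx v, fun h => absurd h (by decide)⟩
  | succ q ih =>
    cases k with
    | zero =>
      simp only [E_succ_zero, mul_zero, add_zero, implies_true, and_self]
    | succ k =>
      constructor
      · intro hq
        have hq' : Odd q := by rw [Nat.even_add_one, Nat.not_even_iff_odd] at hq; exact hq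
        rw [E_succ, fX_chX, con_add, con_smul, E_addx, E_smulx, chX_sw,
          (ih k e.sw h.sw _ (O_conX hx)).2 hq', ← E_succ, cXY]
        have h2 : E q k (chY e.sw t h.sw) (con (tX e t) x) v = 0 := by
          have hT : Tp (k + 1) e (con (tX e t) x) := O_triv hx (Triv_tX h)
          cases q with
          | zero => exact absurd hq' (by decide)
          | succ q => exact E_Tp_Y hT rfl v
        rw [h2, E_succ (q + 1) k]
        rw [Gr.fY_sw, tY_sw]
        ring
      · intro hq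
        have hq' : Even q := by rw [Nat.odd_add_one, Nat.not_odd_iff_even] at hq; exact hq
        rw [E_succ, fX_chY, chY_sw, (ih k e.sw h.sw _ (O_conX hx)).1 hq', ← E_succ, cXY,
          E_succ (q + 1) k, Gr.fX_sw, tX_sw]

/-- The last slot. -/
theorem E_last (k : ℕ) (e : Gr n) (t : Fin n) (h : Nt e t) (x : T n (k + 1)) (hx : O k e x) :
    (Even k → ⟪alt (k + 1) (chX e t h), x⟫_ℂ = 0 → E k k e x (tX e t) = 0) ∧
    (Odd k → ⟪alt (k + 1) (chY e t h), x⟫_ℂ = 0 → E k k e x (tY e t) = 0) := by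
  induction k generalizing e with
  | zero =>
    refine ⟨fun _ h0 => ?_, fun h => absurd h (by decide)⟩
    rw [alt_succ, inner_ten _ (fX_real _), fX_chX, con_add, con_smul, O_conX0 hx, smul_zero,
      zero_add] at h0
    rw [E_zero]
    exact h0
  | succ k ih =>
    constructor
    · intro hk h0
      have hk' : Odd k := by rw [Nat.even_add_one, Nat.not_even_iff_odd] at hk; exact hk
      have hT : Tp (k + 1) e (con (tX e t) x) := O_triv hx (Triv_tX h)
      rw [alt_succ, inner_ten _ (fX_real _), fX_chX, con_add, con_smul, inner_add_right,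
        chX_sw, alt_Tp_Y (e' := chY e.sw t h.sw) hT rfl, add_zero, inner_smul_right] at h0
      have h1 : ⟪alt (k + 1) (chY e.sw t h.sw), con e.fX x⟫_ℂ = 0 := by
        rcases mul_eq_zero.1 h0 with h2 | h2
        · norm_num at h2
        · exact h2
      rw [E_succ]
      exact (ih e.sw h.sw _ (O_conX hx)).2 hk' h1
    · intro hk h0
      have hk' : Even k := by rw [Nat.odd_add_one, Nat.not_odd_iff_even] at hk; exact hk
      rw [alt_succ, inner_ten _ (fX_real _), fX_chY, chY_sw] at h0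
      rw [E_succ]
      exact (ih e.sw h.sw _ (O_conX hx)).1 hk' h0

/-- The first slot. -/
theorem E_first (k : ℕ) (e : Gr n) (t : Fin n) (h : Nt e t) (x : T n (k + 1)) (hx : O k e x)
    (h0 : ⟪alt (k + 1) (chY e t h).sw, x⟫_ℂ = 0) : E 0 k e x (tY e t) = 0 := by
  have hT : Tp k e (con (tY e t) x) := O_triv hx (Triv_tY h)
  rw [alt_succ, inner_ten _ (fX_real _), Gr.sw_sw, Gr.fX_sw, fY_chY, con_add, con_smul,
    O_conY hx, smul_zero, zero_add, (top_ch k e t h _ hT).2] at h0
  rw [E_zero]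
  exact (mul_eq_zero.1 h0).resolve_left (cXY_ne k).2

end

end H46QP
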