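import Pool.Agent.H46.QP.W

/-!
Tensors whose label is one less than the number of slots, and their expansion along the unique
defect.
-/

namespace H46QP

open scoped InnerProductSpace

noncomputable section

variable {n : ℕ}

/-- The tensor x has k+1 slots and label k. -/
def O (k : ℕ) (e : Gr n) (x : T n (k + 1)) : Prop := pi e (k + 1) k x = x

/-- The tensor y has k slots and label k. -/
def Tp (k : ℕ) (e : Gr n) (y : T n k) : Prop := pi e k k y = y

theorem O_conX {k : ℕ} {e : Gr n} {x : T n (k + 1 + 1)} (h : O (k + 1) e x) :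
    O k e.sw (con e.fX x) := by
  unfold O at h ⊢
  rw [pi_sw]
  conv_rhs => rw [← h, conX_pi]
  push_cast
  rw [show (1 : ℤ) - (k + 1) = -k by ring]

theorem O_conX0 {e : Gr n} {x : T n (0 + 1)} (h : O 0 e x) : con e.fX x = 0 := by
  unfold O at h
  rw [← h, conX_pi, pi_eq_zero]
  simp

theorem O_conY {k : ℕ} {e : Gr n} {x : T n (k + 1)} (h : O k e x) : con e.fY x = 0 := by
  unfold O at h
  rw [← h, conY_pi, pi_eq_zero]
  rw [lt_abs]; right; linarith

theorem O_triv {k : ℕ} {e : Gr n} {x : T n (k + 1)} (h : O k e x) {v : Fin n → ℂ}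
    (hv : Triv e v) : Tp k e (con v x) := by
  unfold O at h
  unfold Tp
  conv_rhs => rw [← h, con_pi_triv e k k x hv]

theorem Tp_conX {k : ℕ} {e : Gr n} {y : T n (k + 1)} (h : Tp (k + 1) e y) :
    Tp k e.sw (con e.fX y) := by
  unfold Tp at h ⊢
  rw [pi_sw]
  conv_rhs => rw [← h, conX_pi]
  push_cast
  rw [show (1 : ℤ) - (k + 1) = -k by ring]

theorem Tp_conY {k : ℕ} {e : Gr n} {y : T n (k + 1)} (h : Tp (k + 1) e y) :
    con e.fY y = 0 := by
  unfold Tp at h
  rw [← h, conY_pi, pi_eq_zero]
  rw [lt_abs]; right; push_cast; linarith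

theorem Tp_triv {k : ℕ} {e : Gr n} {y : T n (k + 1)} (h : Tp (k + 1) e y) {v : Fin n → ℂ}
    (hv : Triv e v) : con v y = 0 := by
  unfold Tp at h
  rw [← h, con_pi_triv e k _ y hv, pi_eq_zero]
  rw [lt_abs]; left; push_cast; linarith

/-- The even part of a vector. -/
def tr (e : Gr n) (v : Fin n → ℂ) : Fin n → ℂ :=
  v - (1 / 2 * pr v e.fX) • e.fX - (1 / 2 * pr v e.fY) • e.fY

theorem pr_add_l (v w x : Fin n → ℂ) : pr (v + w) x = pr v x + pr w x := by
  rw [pr_comm, pr_add, pr_comm x v, pr_comm x w]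

theorem pr_sub_l (v w x : Fin n → ℂ) : pr (v - w) x = pr v x - pr w x := by
  rw [pr_comm, pr_sub, pr_comm x v, pr_comm x w]

theorem pr_smul_l (z : ℂ) (v w : Fin n → ℂ) : pr (z • v) w = z * pr v w := by
  rw [pr_comm, pr_smul, pr_comm w v]

theorem tr_triv (e : Gr n) (v : Fin n → ℂ) : Triv e (tr e v) := by
  constructor
  · rw [tr, pr_sub_l, pr_sub_l, pr_smul_l, pr_smul_l, prXX, prYX]; ring
  · rw [tr, pr_sub_l, pr_sub_l, pr_smul_l, pr_smul_l, prXY, prYY]; ring

theorem con_split (e : Gr n) {k : ℕ} (v : Fin n → ℂ) (x : T n (k + 1)) :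
    con v x = con (tr e v) x + (1 / 2 * pr v e.fX) • con e.fX x
      + (1 / 2 * pr v e.fY) • con e.fY x := by
  rw [tr, con_sub, con_sub, con_smul, con_smul]
  module

/-- Contraction with an alternating word with a defect v at slot p. -/
def E : (p k : ℕ) → Gr n → T n (k + 1) → (Fin n → ℂ) → ℂ
  | 0, k, e, x, v => ⟪alt k e, con v x⟫_ℂ
  | _ + 1, 0, _, _, _ => 0
  | p + 1, k + 1, e, x, v => E p k e.sw (con e.fX x) v

theorem E_zero (k : ℕ) (e : Gr n) (x : T n (k + 1)) (v : Fin n → ℂ) :
    E 0 k e x v = ⟪alt k e, con v x⟫_ℂ := by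
  rw [E]

theorem E_succ_zero (p : ℕ) (e : Gr n) (x : T n (0 + 1)) (v : Fin n → ℂ) :
    E (p + 1) 0 e x v = 0 := by
  rw [E]

theorem E_succ (p k : ℕ) (e : Gr n) (x : T n (k + 1 + 1)) (v : Fin n → ℂ) :
    E (p + 1) (k + 1) e x v = E p k e.sw (con e.fX x) v := by
  rw [E]

theorem E_add (p k : ℕ) (e : Gr n) (x : T n (k + 1)) (v w : Fin n → ℂ) :
    E p k e x (v + w) = E p k e x v + E p k e x w := by
  induction p generalizing k e with
  | zero => rw [E_zero, E_zero, E_zero, con_add, inner_add_right]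
  | succ p ih =>
    cases k with
    | zero => rw [E_succ_zero, E_succ_zero, E_succ_zero, add_zero]
    | succ k => rw [E_succ, E_succ, E_succ, ih]

theorem E_smul (p k : ℕ) (e : Gr n) (x : T n (k + 1)) (z : ℂ) (v : Fin n → ℂ) :
    E p k e x (z • v) = z * E p k e x v := by
  induction p generalizing k e with
  | zero => rw [E_zero, E_zero, con_smul, inner_smul_right]
  | succ p ih =>
    cases k with
    | zero => rw [E_succ_zero, E_succ_zero, mul_zero]
    | succ k => rw [E_succ, E_succ, ih]

theorem E_sub (p k : ℕ) (e : Gr n) (x : T n (k + 1)) (v w : Fin n → ℂ) :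
    E p k e x (v - w) = E p k e x v - E p k e x w := by
  rw [sub_eq_add_neg, ← neg_one_smul ℂ w, E_add, E_smul]; ring

theorem E_addx (p k : ℕ) (e : Gr n) (x y : T n (k + 1)) (v : Fin n → ℂ) :
    E p k e (x + y) v = E p k e x v + E p k e y v := by
  induction p generalizing k e with
  | zero => rw [E_zero, E_zero, E_zero, map_add, inner_add_right]
  | succ p ih =>
    cases k with
    | zero => rw [E_succ_zero, E_succ_zero, E_succ_zero, add_zero]
    | succ k => rw [E_succ, E_succ, E_succ, map_add, ih]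

theorem E_smulx (p k : ℕ) (e : Gr n) (x : T n (k + 1)) (z : ℂ) (v : Fin n → ℂ) :
    E p k e (z • x) v = z * E p k e x v := by
  induction p generalizing k e with
  | zero => rw [E_zero, E_zero, map_smul, inner_smul_right]
  | succ p ih =>
    cases k with
    | zero => rw [E_succ_zero, E_succ_zero, mul_zero]
    | succ k => rw [E_succ, E_succ, map_smul, ih]

theorem E_zerox (p k : ℕ) (e : Gr n) (v : Fin n → ℂ) : E p k e 0 v = 0 := by
  have h := E_smulx p k e 0 0 v
  rw [smul_zero, zero_mul] at h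
  exact h

theorem E_fXY {p k : ℕ} {e : Gr n} {x : T n (k + 1)} (h : O k e x) :
    E p k e x e.fX = 0 ∧ E p k e x e.fY = 0 := by
  induction p generalizing k e with
  | zero =>
    constructor
    · rw [E_zero]
      have h1 : con e.fX x = pi e k (1 - k) (con e.fX x) := by
        conv_lhs => rw [← show pi e (k + 1) k x = x from h, conX_pi]
      rw [h1, ← inner_pi, ← pi_alt, pi_pi, if_neg (by omega), inner_zero_left]
    · rw [E_zero, O_conY h, inner_zero_right]
  | succ p ih =>
    cases k with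
    | zero => rw [E_succ_zero, E_succ_zero]; exact ⟨rfl, rfl⟩
    | succ k =>
      rw [E_succ, E_succ]
      have h1 := ih (O_conX h)
      exact ⟨h1.2, h1.1⟩

theorem E_uno {p k : ℕ} {e : Gr n} {x : T n (k + 1)} (h : x ∈ W n (k + 1)) :
    E p k e x uno = 0 := by
  induction p generalizing k e with
  | zero => rw [E_zero, W_uno h, inner_zero_right]
  | succ p ih =>
    cases k with
    | zero => rw [E_succ_zero]
    | succ k => rw [E_succ]; exact ih (W_con h _)

/-- The even letter with the same support as the p-th letter. -/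
def sl : ℕ → Gr n → (Fin n → ℂ)
  | 0, e => e.sX
  | p + 1, e => sl p e.sw

theorem sl_eq (p : ℕ) (e : Gr n) : (Even p → sl p e = e.sX) ∧ (Odd p → sl p e = e.sY) := by
  induction p generalizing e with
  | zero => exact ⟨fun _ => rfl, fun h => absurd h (by decide)⟩
  | succ p ih =>
    constructor
    · intro h
      have : Odd p := by rw [Nat.even_add_one, Nat.not_even_iff_odd] at h; exact h
      exact (ih e.sw).2 this
    · intro h
      have : Even p := by rw [Nat.odd_add_one, Nat.not_odd_iff_even] at h; exact h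
      exact (ih e.sw).1 this

theorem conX_conSX {k : ℕ} (e : Gr n) (x : T n (k + 1 + 1)) (h : mrg x = 0) :
    con e.fX (con e.sX x) + con e.sX (con e.fX x) = 0 := by
  have h1 : ∀ c, hd c (hd c x) = 0 := by
    intro c
    rw [← hd_mrg, h, map_zero]
  have h2 : ∀ {m : ℕ} (ζ : T n (m + 1)), con e.sX ζ = hd e.a ζ + hd e.b ζ := by
    intro m ζ
    rw [Gr.sX, con_add, con_dl, con_dl]
  rw [h2, h2, conX_eq, conX_eq]
  simp only [map_add, map_sub, h1]
  abel

theorem E_merge {p k : ℕ} {e : Gr n} {x : T n (k + 1)} (h : x ∈ W n (k + 1)) (hp : p < k) :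
    E p k e x (sl p e) + E (p + 1) k e x (sl p e) = 0 := by
  induction p generalizing k e with
  | zero =>
    obtain ⟨k, rfl⟩ : ∃ k', k = k' + 1 := ⟨k - 1, by omega⟩
    rw [E_succ, E_zero, E_zero, alt_succ, inner_ten _ (fX_real e), ← inner_add_right]
    change ⟪_, con e.fX (con e.sX x) + con e.sX (con e.fX x)⟫_ℂ = 0
    rw [conX_conSX e x (W_mrg h), inner_zero_right]
  | succ p ih =>
    obtain ⟨k, rfl⟩ : ∃ k', k = k' + 1 := ⟨k - 1, by omega⟩
    rw [E_succ, E_succ]
    exact ih (W_con h _) (by omega)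

theorem eq_zero_of_E {k : ℕ} {e : Gr n} {x : T n (k + 1)} (h : O k e x)
    (hE : ∀ p ≤ k, ∀ v, E p k e x v = 0) : x = 0 := by
  induction k generalizing e with
  | zero =>
    apply ext_hd; intro i
    have h1 : hd i x = pi e 0 0 (hd i x) := by
      conv_lhs => rw [← show pi e (0 + 1) ((0 : ℕ) : ℤ) x = x from h, hd_pi, O_conX0 h, O_conY h]
      simp
    have h2 := pi_top' 0 e (hd i x)
    have h3 := hE 0 le_rfl (dl i)
    rw [E_zero, con_dl] at h3
    push_cast at h2
    rw [h1, h2, h3]
    simp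
  | succ k ih =>
    have hX : con e.fX x = 0 := by
      apply ih (O_conX h)
      intro p hp v
      rw [← E_succ]
      exact hE (p + 1) (by omega) v
    apply ext_hd; intro i
    have h1 : hd i x = pi e (k + 1) ((k + 1 : ℕ) : ℤ) (hd i x) := by
      conv_lhs => rw [← show pi e (k + 1 + 1) ((k + 1 : ℕ) : ℤ) x = x from h, hd_pi, hX, O_conY h]
      simp
    have h3 := hE 0 (Nat.zero_le _) (dl i)
    rw [E_zero, con_dl] at h3
    rw [h1, pi_top', h3]
    simp

theorem E_pi {q k : ℕ} (e : Gr n) (x : T n (k + 1)) {v : Fin n → ℂ} (hv : Triv e v) :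
    E q k e (pi e (k + 1) k x) v = E q k e x v := by
  induction q generalizing k e with
  | zero =>
    rw [E_zero, E_zero, con_pi_triv e k k x hv, ← inner_pi, pi_alt]
  | succ q ih =>
    cases k with
    | zero => rw [E_succ_zero, E_succ_zero]
    | succ k =>
      rw [E_succ, E_succ, conX_pi]
      have h := ih e.sw (con e.fX x) (Triv_sw hv)
      rw [pi_sw] at h
      push_cast
      rw [show (1 : ℤ) - (k + 1) = -k by ring]
      exact h

end

end H46QP
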