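import Mathlib

/-!
The Hopf star-algebra of coefficients of the quantum permutation group on n points, and the
notion of an inner faithful finite-dimensional representation.
-/

namespace H46QP

open scoped TensorProduct

/-- The free algebra on the symbols x_ij. -/
abbrev Fr (n : ℕ) : Type := FreeAlgebra ℂ (Fin n × Fin n)

/-- The free generator x_ij. -/
abbrev xx {n : ℕ} (i j : Fin n) : Fr n := FreeAlgebra.ι ℂ (i, j)

/-- The defining relations of the quantum permutation algebra. -/
inductive Rel (n : ℕ) : Fr n → Fr n → Prop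
  | row (i j k : Fin n) : Rel n (xx i j * xx i k) (if j = k then xx i j else 0)
  | col (i j k : Fin n) : Rel n (xx i k * xx j k) (if i = j then xx i k else 0)
  | rowSum (i : Fin n) : Rel n (∑ j, xx i j) 1
  | colSum (j : Fin n) : Rel n (∑ i, xx i j) 1

/-- The coefficient algebra of the quantum permutation group on n points. -/
abbrev QPerm (n : ℕ) : Type := RingQuot (Rel n)

noncomputable section


namespace QPerm

variable {n : ℕ}

/-- The quotient map. -/
def mk : Fr n →ₐ[ℂ] QPerm n := RingQuot.mkAlgHom ℂ (Rel n)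

/-- The generators. -/
def u (i j : Fin n) : QPerm n := mk (xx i j)

theorem mk_surj : Function.Surjective (mk (n := n)) := RingQuot.mkAlgHom_surjective ℂ (Rel n)

theorem mk_rel {x y : Fr n} (h : Rel n x y) : mk x = mk y := RingQuot.mkAlgHom_rel ℂ h

theorem u_row (i j k : Fin n) : u i j * u i k = if j = k then u i j else 0 := by
  have h := mk_rel (Rel.row i j k)
  rw [map_mul] at h
  rw [u, u, h]
  split_ifs <;> simp

theorem u_col (i j k : Fin n) : u i k * u j k = if i = j then u i k else 0 := by
  have h := mk_rel (Rel.col i j k)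
  rw [map_mul] at h
  rw [u, u, h]
  split_ifs <;> simp

theorem u_rowSum (i : Fin n) : ∑ j, u i j = 1 := by
  have h := mk_rel (Rel.rowSum i)
  rw [map_sum, map_one] at h
  exact h

theorem u_colSum (j : Fin n) : ∑ i, u i j = 1 := by
  have h := mk_rel (Rel.colSum j)
  rw [map_sum, map_one] at h
  exact h

/-- The data of a magic matrix over a complex algebra. -/
structure IsMagic {C : Type*} [Ring C] (v : Fin n → Fin n → C) : Prop where
  row : ∀ i j k, v i j * v i k = if j = k then v i j else 0
  col : ∀ i j k, v i k * v j k = if i = j then v i k else 0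
  rowSum : ∀ i, ∑ j, v i j = 1
  colSum : ∀ j, ∑ i, v i j = 1

theorem u_magic : IsMagic (u (n := n)) := ⟨u_row, u_col, u_rowSum, u_colSum⟩

/-- The homomorphism from the free algebra sending x_ij to v_ij. -/
def preLift {C : Type*} [Ring C] [Algebra ℂ C] (v : Fin n → Fin n → C) : Fr n →ₐ[ℂ] C :=
  FreeAlgebra.lift ℂ (fun p => v p.1 p.2)

theorem preLift_x {C : Type*} [Ring C] [Algebra ℂ C] (v : Fin n → Fin n → C) (i j : Fin n) :
    preLift v (xx i j) = v i j := FreeAlgebra.lift_ι_apply _ _

theorem preLift_rel {C : Type*} [Ring C] [Algebra ℂ C] {v : Fin n → Fin n → C}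
    (hv : IsMagic v) : ∀ ⦃x y : Fr n⦄, Rel n x y → preLift v x = preLift v y := by
  rintro x y (⟨i, j, k⟩ | ⟨i, j, k⟩ | ⟨i⟩ | ⟨j⟩)
  · rw [map_mul, preLift_x, preLift_x, hv.row]
    split_ifs
    · rw [preLift_x]
    · rw [map_zero]
  · rw [map_mul, preLift_x, preLift_x, hv.col]
    split_ifs
    · rw [preLift_x]
    · rw [map_zero]
  · rw [map_sum, map_one]
    simp only [preLift_x]
    exact hv.rowSum i
  · rw [map_sum, map_one]
    simp only [preLift_x]
    exact hv.colSum j

/-- Universal property: the homomorphism sending u_ij to v_ij. -/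
def lift {C : Type*} [Ring C] [Algebra ℂ C] (v : Fin n → Fin n → C) (hv : IsMagic v) :
    QPerm n →ₐ[ℂ] C := RingQuot.preLiftAlgHom ℂ (preLift_rel hv)

@[simp] theorem lift_u {C : Type*} [Ring C] [Algebra ℂ C] (v : Fin n → Fin n → C) (hv : IsMagic v)
    (i j : Fin n) : lift v hv (u i j) = v i j := by
  have h : lift v hv (mk (xx i j)) = preLift v (xx i j) := by
    unfold lift mk
    simp_rw [RingQuot.preLiftAlgHom_def, RingQuot.mkAlgHom_def, RingQuot.mkRingHom_def]
    rfl
  rw [preLift_x] at h
  exact h

theorem induction {P : QPerm n → Prop} (hc : ∀ z : ℂ, P (algebraMap ℂ _ z))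
    (hu : ∀ i j, P (u i j)) (hm : ∀ a b, P a → P b → P (a * b))
    (ha : ∀ a b, P a → P b → P (a + b)) (x : QPerm n) : P x := by
  obtain ⟨y, rfl⟩ := mk_surj x
  induction y using FreeAlgebra.induction with
  | grade0 r => rw [AlgHom.commutes]; exact hc r
  | grade1 p => exact hu p.1 p.2
  | mul a b h1 h2 => rw [map_mul]; exact hm _ _ h1 h2
  | add a b h1 h2 => rw [map_add]; exact ha _ _ h1 h2

theorem hom_ext {C : Type*} [Semiring C] [Algebra ℂ C] {f g : QPerm n →ₐ[ℂ] C}
    (h : ∀ i j, f (u i j) = g (u i j)) : f = g := by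
  refine AlgHom.ext fun x => ?_
  induction x using induction with
  | hc z => simp
  | hu i j => exact h i j
  | hm a b h1 h2 => rw [map_mul, map_mul, h1, h2]
  | ha a b h1 h2 => rw [map_add, map_add, h1, h2]

end QPerm

end

end H46QP
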