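import Pool.Agent.H46.QP.Model

/-!
The magic matrices of the infinite dihedral group, and their fixed vectors.
-/

namespace H46QP

open scoped InnerProductSpace

noncomputable section

open QPerm

variable {n : ℕ}

/-- The projection complementary to the first reflection. -/
def qX : M2 := (1 / 2 : ℂ) • (1 - Gm)
/-- The projection complementary to the second reflection. -/
def qY : M2 := (1 / 2 : ℂ) • (1 - Km)

theorem qX_idem : qX * qX = qX := by
  unfold qX
  rw [smul_mul_smul_comm, sub_mul, mul_sub, mul_sub, Gm_Gm, one_mul, mul_one, one_mul]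
  module

theorem qY_idem : qY * qY = qY := by
  unfold qY
  rw [smul_mul_smul_comm, sub_mul, mul_sub, mul_sub, Km_Km, one_mul, mul_one, one_mul]
  module

theorem qX_Rm (w : ℤ) : qX * Rm w = (1 / 2 : ℂ) • (Rm w - Rm (1 - w)) := by
  rw [qX, smul_mul_assoc, sub_mul, one_mul, Gm_Rm]

theorem qY_Rm (w : ℤ) : qY * Rm w = (1 / 2 : ℂ) • (Rm w - Rm (-1 - w)) := by
  rw [qY, smul_mul_assoc, sub_mul, one_mul, Km_Rm]

/-- Kronecker delta. -/
def del (i j : Fin n) : M2 := if i = j then 1 else 0

/-- The magic matrix of one reflection. -/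
def mX (e : Gr n) (q : M2) (i j : Fin n) : M2 := del i j - (e.fX i * e.fX j) • q

theorem mX_row (e : Gr n) (q : M2) (hq : q * q = q) (i j k : Fin n) :
    mX e q i j * mX e q i k = if j = k then mX e q i j else 0 := by
  have hab := e.ab
  have hf : ∀ i, e.fX i = if i = e.a then 1 else if i = e.b then -1 else 0 := by
    intro i
    by_cases h1 : i = e.a
    · rw [if_pos h1, h1, fX_a]
    · by_cases h2 : i = e.b
      · rw [if_neg h1, if_pos h2, h2, fX_b]
      · rw [if_neg h1, if_neg h2, fX_of_ne e h1 h2]
  have hba := hab.symm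
  by_cases hi1 : i = e.a
  · subst hi1
    by_cases hj1 : j = e.a
    · subst hj1
      by_cases hk1 : k = e.a
      · subst hk1
        simp only [mX, del, hf, if_true]
        simp [sub_mul, mul_sub, hq]
      · by_cases hk2 : k = e.b
        · subst hk2
          simp only [mX, del, hf]
          simp [hab, hba, sub_mul, hq]
        · simp only [mX, del, hf]
          simp [hk1, hk2, Ne.symm hk1]
    · by_cases hj2 : j = e.b
      · subst hj2
        by_cases hk1 : k = e.a
        · subst hk1
          simp only [mX, del, hf]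
          simp [hab, hba, mul_sub, hq]
        · by_cases hk2 : k = e.b
          · subst hk2
            simp only [mX, del, hf]
            simp [hab, hba, hq]
          · simp only [mX, del, hf]
            simp [hk1, hk2, Ne.symm hk1, Ne.symm hk2]
      · simp only [mX, del, hf]
        by_cases hjk : j = k
        · subst hjk
          simp [hj1, hj2, Ne.symm hj1]
        · simp [hj1, hj2, Ne.symm hj1, hjk]
  · by_cases hi2 : i = e.b
    · subst hi2
      by_cases hj1 : j = e.a
      · subst hj1
        by_cases hk1 : k = e.a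
        · subst hk1
          simp only [mX, del, hf]
          simp [hab, hba, hq]
        · by_cases hk2 : k = e.b
          · subst hk2
            simp only [mX, del, hf]
            simp [hab, hba, mul_sub, hq]
          · simp only [mX, del, hf]
            simp [hk1, hk2, Ne.symm hk1, Ne.symm hk2]
      · by_cases hj2 : j = e.b
        · subst hj2
          by_cases hk1 : k = e.a
          · subst hk1
            simp only [mX, del, hf]
            simp [hab, hba, sub_mul, hq]
          · by_cases hk2 : k = e.b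
            · subst hk2
              simp only [mX, del, hf]
              simp [hba, sub_mul, mul_sub, hq]
            · simp only [mX, del, hf]
              simp [hk1, hk2, Ne.symm hk1, Ne.symm hk2]
        · simp only [mX, del, hf]
          by_cases hjk : j = k
          · subst hjk
            simp [hj1, hj2, Ne.symm hj2]
          · simp [hj1, hj2, Ne.symm hj2, hjk]
    · simp only [mX, del, hf]
      by_cases hij : i = j
      · subst hij
        by_cases hik : i = k
        · subst hik
          simp [hi1, hi2]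
        · simp [hi1, hi2, hik]
      · by_cases hik : i = k
        · subst hik
          simp [hi1, hi2, hij, Ne.symm hij]
        · by_cases hjk : j = k
          · simp [hi1, hi2, hij, hjk, hik]
          · simp [hi1, hi2, hij, hjk, hik]

/-- The magic matrix of the infinite dihedral group in the grading e. -/
def ve (e : Gr n) (i j : Fin n) : M2 :=
  del i j - (e.fX i * e.fX j) • qX - (e.fY i * e.fY j) • qY

theorem ve_symm (e : Gr n) (i j : Fin n) : ve e i j = ve e j i := by
  unfold ve del
  rw [mul_comm (e.fX i), mul_comm (e.fY i)]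
  by_cases h : i = j
  · rw [if_pos h, if_pos h.symm]
  · rw [if_neg h, if_neg (Ne.symm h)]

theorem ve_row (e : Gr n) (i j k : Fin n) :
    ve e i j * ve e i k = if j = k then ve e i j else 0 := by
  by_cases h : e.fX i = 0
  · have h1 : ∀ j, ve e i j = mX e.sw qY i j := by
      intro j
      unfold ve mX
      rw [h, zero_mul, zero_smul, sub_zero]
      rfl
    rw [h1, h1, mX_row e.sw qY qY_idem]
  · have h2 : e.fY i = 0 := (mul_eq_zero.1 (fXfY e i)).resolve_left h
    have h1 : ∀ j, ve e i j = mX e qX i j := by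
      intro j
      unfold ve mX
      rw [h2, zero_mul, zero_smul, sub_zero]
    rw [h1, h1, mX_row e qX qX_idem]

theorem sum_fX (e : Gr n) : ∑ j, e.fX j = 0 := by
  have h := (Triv_uno e).1
  rw [pr] at h
  simpa [uno] using h

theorem ve_rowSum (e : Gr n) (i : Fin n) : ∑ j, ve e i j = 1 := by
  unfold ve
  rw [Finset.sum_sub_distrib, Finset.sum_sub_distrib, ← Finset.sum_smul, ← Finset.sum_smul,
    ← Finset.mul_sum, ← Finset.mul_sum, sum_fX, show ∑ j, e.fY j = 0 from sum_fX e.sw]
  simp [del]

theorem ve_magic (e : Gr n) : IsMagic (ve e) := by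
  refine ⟨ve_row e, fun i j k => ?_, ve_rowSum e, fun j => ?_⟩
  · rw [ve_symm e i k, ve_symm e j k, ve_row]
  · rw [← ve_rowSum e j]
    exact Finset.sum_congr rfl fun i _ => ve_symm e i j

/-- The scalar operator obtained by applying a functional to the coefficients. -/
def Uf (v : Fin n → Fin n → M2) (φ : M2 →ₗ[ℂ] ℂ) (k : ℕ) : T n k →ₗ[ℂ] T n k where
  toFun ξ := WithLp.toLp 2 (fun i => φ (∑ z, ξ z • wd v k i z))
  map_add' ξ η := by
    ext i
    simp only [PiLp.add_apply, add_smul, Finset.sum_add_distrib, map_add]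
  map_smul' c ξ := by
    ext i
    simp only [PiLp.smul_apply, smul_eq_mul, mul_smul, ← Finset.smul_sum, map_smul,
      RingHom.id_apply]

theorem Uf_apply (v : Fin n → Fin n → M2) (φ : M2 →ₗ[ℂ] ℂ) (k : ℕ) (ξ : T n k)
    (i : Fin k → Fin n) : Uf v φ k ξ i = φ (∑ z, ξ z • wd v k i z) := rfl

theorem hd_Uf (v : Fin n → Fin n → M2) (φ : M2 →ₗ[ℂ] ℂ) (k : ℕ) (ξ : T n (k + 1)) (i : Fin n) :
    hd i (Uf v φ (k + 1) ξ) =
      ∑ z, Uf v (φ ∘ₗ LinearMap.mulLeft ℂ (v i z)) k (hd z ξ) := by
  ext j
  rw [hd_apply, Uf_apply, sum_cons, map_sum, WithLp.ofLp_sum, Finset.sum_apply]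
  refine Finset.sum_congr rfl fun z _ => ?_
  rw [Uf_apply, LinearMap.comp_apply, LinearMap.mulLeft_apply, Finset.mul_sum]
  congr 1
  refine Finset.sum_congr rfl fun z' _ => ?_
  rw [wd_cons, cons_zero', tail_cons', hd_apply, mul_smul_comm]

theorem ve_Rm (e : Gr n) (φ : M2 →ₗ[ℂ] ℂ) (i z : Fin n) (w : ℤ) :
    φ (ve e i z * Rm w) = (if i = z then φ (Rm w) else 0)
      - (1 / 2 * (e.fX i * e.fX z)) * (φ (Rm w) - φ (Rm (1 - w)))
      - (1 / 2 * (e.fY i * e.fY z)) * (φ (Rm w) - φ (Rm (-1 - w))) := by
  unfold ve del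
  rw [sub_mul, sub_mul, smul_mul_assoc, smul_mul_assoc, qX_Rm, qY_Rm, map_sub, map_sub,
    map_smul, map_smul, map_smul, map_smul, map_sub, map_sub]
  simp only [smul_eq_mul]
  by_cases h : i = z
  · rw [if_pos h, if_pos h, one_mul]; ring
  · rw [if_neg h, if_neg h, zero_mul, map_zero]; ring

theorem Uf_pi (e : Gr n) (k : ℕ) (φ : M2 →ₗ[ℂ] ℂ) (w : ℤ) (ξ : T n k) :
    Uf (ve e) φ k (pi e k w ξ) = φ (Rm w) • pi e k w ξ := by
  induction k generalizing φ w with
  | zero =>
    by_cases h : w = 0
    · subst h
      ext i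
      rw [Uf_apply, Fintype.sum_subsingleton _ i, wd, map_smul, Rm_zero, PiLp.smul_apply,
        smul_eq_mul, smul_eq_mul, mul_comm]
    · simp [pi, h]
  | succ k ih =>
    apply ext_hd; intro i
    rw [hd_Uf, map_smul]
    simp only [hd_pi, map_add, map_smul, map_sub, ih, LinearMap.comp_apply,
      LinearMap.mulLeft_apply, ve_Rm, sub_sub_cancel, Finset.sum_add_distrib]
    -- first sum
    have hsum : ∀ (f : Fin n → ℂ) (v : Fin n → ℂ) (y : T n k),
        ∑ z, (f z * v z) • y = pr f v • y := by
      intro f v y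
      rw [← Finset.sum_smul]; rfl
    have h1 : ∑ z, ((if i = z then φ (Rm w) else 0)
        - 1 / 2 * (e.fX i * e.fX z) * (φ (Rm w) - φ (Rm (1 - w)))
        - 1 / 2 * (e.fY i * e.fY z) * (φ (Rm w) - φ (Rm (-1 - w)))) • pi e k w (hd z ξ) =
        φ (Rm w) • pi e k w (hd i ξ)
        - (1 / 2 * e.fX i * (φ (Rm w) - φ (Rm (1 - w)))) • pi e k w (con e.fX ξ)
        - (1 / 2 * e.fY i * (φ (Rm w) - φ (Rm (-1 - w)))) • pi e k w (con e.fY ξ) := by
      simp only [sub_smul (M := T n k), Finset.sum_sub_distrib, ite_smul, zero_smul,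
        Finset.sum_ite_eq, Finset.mem_univ, if_true]
      rw [con_apply, con_apply, map_sum, map_sum, Finset.smul_sum, Finset.smul_sum]
      congr 1
      · congr 1
        refine Finset.sum_congr rfl fun z _ => ?_
        rw [map_smul, smul_smul]
        congr 1; ring
      · refine Finset.sum_congr rfl fun z _ => ?_
        rw [map_smul, smul_smul]
        congr 1; ring
    have hX : ∀ (a b c : ℂ), ∑ z, e.fX z * ((if i = z then a else 0)
        - 1 / 2 * (e.fX i * e.fX z) * b - 1 / 2 * (e.fY i * e.fY z) * c) =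
        e.fX i * a - e.fX i * b := by
      intro a b c
      have h := prXX e
      have h' := prYX e
      rw [pr] at h h'
      simp only [mul_sub, Finset.sum_sub_distrib, mul_ite, mul_zero, Finset.sum_ite_eq,
        Finset.mem_univ, if_true]
      have e1 : ∑ z, e.fX z * (1 / 2 * (e.fX i * e.fX z) * b) =
          (1 / 2 * e.fX i * b) * ∑ z, e.fX z * e.fX z := by
        rw [Finset.mul_sum]; exact Finset.sum_congr rfl fun z _ => by ring
      have e2 : ∑ z, e.fX z * (1 / 2 * (e.fY i * e.fY z) * c) =
          (1 / 2 * e.fY i * c) * ∑ z, e.fY z * e.fX z := by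
        rw [Finset.mul_sum]; exact Finset.sum_congr rfl fun z _ => by ring
      rw [e1, e2, h, h']; ring
    have hY : ∀ (a b c : ℂ), ∑ z, e.fY z * ((if i = z then a else 0)
        - 1 / 2 * (e.fX i * e.fX z) * b - 1 / 2 * (e.fY i * e.fY z) * c) =
        e.fY i * a - e.fY i * c := by
      intro a b c
      have h := prYY e
      have h' := prXY e
      rw [pr] at h h'
      simp only [mul_sub, Finset.sum_sub_distrib, mul_ite, mul_zero, Finset.sum_ite_eq,
        Finset.mem_univ, if_true]
      have e1 : ∑ z, e.fY z * (1 / 2 * (e.fX i * e.fX z) * b) =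
          (1 / 2 * e.fX i * b) * ∑ z, e.fX z * e.fY z := by
        rw [Finset.mul_sum]; exact Finset.sum_congr rfl fun z _ => by ring
      have e2 : ∑ z, e.fY z * (1 / 2 * (e.fY i * e.fY z) * c) =
          (1 / 2 * e.fY i * c) * ∑ z, e.fY z * e.fY z := by
        rw [Finset.mul_sum]; exact Finset.sum_congr rfl fun z _ => by ring
      rw [e1, e2, h, h']; ring
    rw [h1]
    have hgen : ∀ (v : Fin n → ℂ) (g g' : Fin n → ℂ) (x y : T n k),
        ∑ z, (1 / 2 * v z) • (g z • x - g' z • y) =
        (1 / 2 * ∑ z, v z * g z) • x - (1 / 2 * ∑ z, v z * g' z) • y := by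
      intro v g g' x y
      simp only [smul_sub, Finset.sum_sub_distrib, smul_smul, ← Finset.sum_smul, Finset.mul_sum]
      congr 2
      · exact Finset.sum_congr rfl fun z _ => by ring
      · exact Finset.sum_congr rfl fun z _ => by ring
    rw [hgen, hgen, hX, hX, hY, hY]
    module

theorem FixS_Uf {v : Fin n → Fin n → M2} {k : ℕ} {ξ : T n k} (h : ξ ∈ FixS v k)
    (φ : M2 →ₗ[ℂ] ℂ) : Uf v φ k ξ = φ 1 • ξ := by
  ext i
  rw [Uf_apply, h i, Algebra.algebraMap_eq_smul_one, map_smul, PiLp.smul_apply, smul_eq_mul,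
    smul_eq_mul, mul_comm]

/-- Fixed vectors of the dihedral magic matrix have label zero. -/
theorem pi_of_fix (e : Gr n) {k : ℕ} {ξ : T n k} (h : ξ ∈ FixS (ve e) k) (w : ℤ) :
    pi e k w ξ = if w = 0 then ξ else 0 := by
  have hne : ∀ w : ℤ, w ≠ 0 → pi e k w ξ = 0 := by
    intro w hw
    by_contra hpi
    have h1 : ∃ φ : M2 →ₗ[ℂ] ℂ, φ (Rm w - 1) ≠ 0 := by
      by_contra hcon
      push Not at hcon
      have h2 := (Module.forall_dual_apply_eq_zero_iff ℂ (Rm w - 1)).1 hcon
      exact Rm_ne w hw (sub_eq_zero.1 h2)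
    obtain ⟨φ, hφ⟩ := h1
    have h3 : pi e k w (Uf (ve e) φ k ξ) = φ (Rm w) • pi e k w ξ := by
      have h4 := sum_pi e k (Finset.Icc (-((k : ℤ) + |w|)) (k + |w|)) (by
        intro x hx
        rw [Finset.mem_Icc] at hx ⊢
        have := abs_nonneg w
        omega) ξ
      conv_lhs => rw [← h4, map_sum, map_sum]
      rw [Finset.sum_eq_single w]
      · rw [Uf_pi, map_smul, pi_pi_self]
      · intro b _ hb
        rw [Uf_pi, map_smul, pi_pi, if_neg (Ne.symm hb), smul_zero]
      · intro hw'
        exfalso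
        apply hw'
        rw [Finset.mem_Icc]
        have h5 := neg_abs_le w
        have h6 := le_abs_self w
        omega
    rw [FixS_Uf h, map_smul] at h3
    have h5 : φ (Rm w - 1) • pi e k w ξ = 0 := by
      rw [map_sub, sub_smul, ← h3, sub_self]
    rcases smul_eq_zero.1 h5 with h6 | h6
    · exact hφ h6
    · exact hpi h6
  by_cases hw : w = 0
  · rw [if_pos hw, hw]
    have h4 := sum_pi e k (Finset.Icc (-(k : ℤ)) k) (Finset.Subset.refl _) ξ
    rw [Finset.sum_eq_single 0] at h4
    · exact h4
    · intro b _ hb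
      exact hne b hb
    · intro hw'
      exfalso
      apply hw'
      rw [Finset.mem_Icc]
      omega
  · rw [if_neg hw, hne w hw]

end

end H46QP
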