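import Pool.Agent.H46.QP.Reduce

/-!
The quantum permutation algebra on at most three points: evaluation at all permutations is
injective.  Also: representations on matrices indexed by an arbitrary finite type.
-/

namespace H46QP

open scoped TensorProduct

noncomputable section

open QPerm

theorem IsMagic_map {n : ℕ} {C D : Type*} [Ring C] [Ring D] {v : Fin n → Fin n → C}
    (hv : IsMagic v) (f : C →+* D) : IsMagic (fun i j => f (v i j)) := by
  refine ⟨fun i j k => ?_, fun i j k => ?_, fun i => ?_, fun j => ?_⟩
  · rw [← map_mul, hv.row]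
    split_ifs <;> simp
  · rw [← map_mul, hv.col]
    split_ifs <;> simp
  · rw [← map_sum, hv.rowSum, map_one]
  · rw [← map_sum, hv.colSum, map_one]

/-- Renumbering of the rows and columns. -/
def reFin {ι : Type} [Fintype ι] [DecidableEq ι] :
    Matrix ι ι ℂ ≃+* Matrix (Fin (Fintype.card ι)) (Fin (Fintype.card ι)) ℂ :=
  (Matrix.reindexAlgEquiv ℂ ℂ (Fintype.equivFin ι)).toRingEquiv

theorem reFin_star {ι : Type} [Fintype ι] [DecidableEq ι] (M : Matrix ι ι ℂ) :
    star (reFin M) = reFin (star M) := by
  ext i j
  rfl

/-- The representation attached to a self-adjoint magic matrix. -/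
def rep {n : ℕ} {ι : Type} [Fintype ι] [DecidableEq ι] (v : Fin n → Fin n → Matrix ι ι ℂ)
    (hv : IsMagic v) (hs : ∀ i j, star (v i j) = v i j) :
    QPerm n →⋆ₐ[ℂ] Matrix (Fin (Fintype.card ι)) (Fin (Fintype.card ι)) ℂ :=
  liftStar (fun i j => reFin (v i j)) (IsMagic_map hv (reFin (ι := ι)).toRingHom)
    (fun i j => by rw [reFin_star, hs])

theorem rep_u {n : ℕ} {ι : Type} [Fintype ι] [DecidableEq ι] (v : Fin n → Fin n → Matrix ι ι ℂ)
    (hv : IsMagic v) (hs : ∀ i j, star (v i j) = v i j) (i j : Fin n) :
    rep v hv hs (u i j) = reFin (v i j) := liftStar_u _ _ _ i j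

/-- The magic matrix of all permutations. -/
def permMat {n : ℕ} (i j : Fin n) : Matrix (Equiv.Perm (Fin n)) (Equiv.Perm (Fin n)) ℂ :=
  Matrix.diagonal (fun σ => if σ i = j then 1 else 0)

theorem permMat_magic {n : ℕ} : IsMagic (permMat (n := n)) := by
  refine ⟨fun i j k => ?_, fun i j k => ?_, fun i => ?_, fun j => ?_⟩
  · unfold permMat
    rw [Matrix.diagonal_mul_diagonal]
    by_cases h : j = k
    · subst h
      rw [if_pos rfl]
      congr 1
      ext σ
      split_ifs <;> simp
    · rw [if_neg h, ← Matrix.diagonal_zero]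
      congr 1
      ext σ
      by_cases h1 : σ i = j
      · have h2 : σ i ≠ k := fun h2 => h (h1 ▸ h2)
        simp [h1, h]
      · simp [h1]
  · unfold permMat
    rw [Matrix.diagonal_mul_diagonal]
    by_cases h : i = j
    · subst h
      rw [if_pos rfl]
      congr 1
      ext σ
      split_ifs <;> simp
    · rw [if_neg h, ← Matrix.diagonal_zero]
      congr 1
      ext σ
      by_cases h1 : σ i = k
      · have h2 : σ j ≠ k := fun h2 => h (σ.injective (h1.trans h2.symm))
        simp [h2]
      · simp [h1]
  · unfold permMat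
    ext σ τ
    rw [Matrix.sum_apply]
    by_cases h : σ = τ
    · subst h; simp
    · simp [h]
  · unfold permMat
    ext σ τ
    rw [Matrix.sum_apply]
    by_cases h : σ = τ
    · subst h
      simp only [Matrix.diagonal_apply_eq, Matrix.one_apply_eq]
      have : ∀ i, (σ i = j) ↔ (i = σ.symm j) := fun i => by
        rw [Equiv.eq_symm_apply]
      simp [this]
    · simp [h]

theorem permMat_star {n : ℕ} (i j : Fin n) : star (permMat (n := n) i j) = permMat i j := by
  unfold permMat
  rw [Matrix.star_eq_conjTranspose, Matrix.diagonal_conjTranspose]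
  congr 1
  ext σ
  by_cases h : σ i = j <;> simp [h]

theorem permSc_magic {n : ℕ} (σ : Equiv.Perm (Fin n)) :
    IsMagic (fun i j => if σ i = j then (1 : ℂ) else 0) := by
  refine ⟨fun i j k => ?_, fun i j k => ?_, fun i => ?_, fun j => ?_⟩
  · by_cases h1 : σ i = j <;> by_cases h2 : σ i = k <;> by_cases h3 : j = k <;> simp_all
  · by_cases h3 : i = j
    · subst h3; simp
    · by_cases h1 : σ i = k
      · have h2 : σ j ≠ k := fun h2 => h3 (σ.injective (h1.trans h2.symm))
        simp [h2, h3]
      · simp [h1, h3]
  · simp
  · have : ∀ i, (σ i = j) ↔ (i = σ.symm j) := fun i => by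
      rw [Equiv.eq_symm_apply]
    simp [this]

section small

variable {n : ℕ}

theorem u_comm_of_le (hn : n ≤ 3) (i j k l : Fin n) : u i j * u k l = u k l * u i j := by
  by_cases hik : i = k
  · subst hik
    rw [u_row, u_row]
    by_cases h : j = l
    · subst h; rfl
    · rw [if_neg h, if_neg (Ne.symm h)]
  by_cases hjl : j = l
  · subst hjl
    rw [u_col, u_col, if_neg hik, if_neg (Ne.symm hik)]
  have key : u i j * u k l = u i j * u k l * u i j := by
    have h1 : u i j * u k l = ∑ m, u i j * u k l * u i m := by
      rw [← Finset.mul_sum, u_rowSum, mul_one]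
    refine h1.trans ?_
    rw [Finset.sum_eq_single j]
    · intro m _ hmj
      by_cases hml : m = l
      · subst hml
        rw [mul_assoc, u_col, if_neg (Ne.symm hik), mul_zero]
      · have h2 : u k l = 1 - u k j - u k m := by
          have h3 : ∑ l', u k l' = u k l + u k j + u k m := by
            rw [← Finset.sum_subset (Finset.subset_univ {l, j, m})]
            · rw [Finset.sum_insert, Finset.sum_insert, Finset.sum_singleton, add_assoc]
              · rw [Finset.mem_singleton]; exact Ne.symm hmj
              · rw [Finset.mem_insert, Finset.mem_singleton]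
                rintro (h | h)
                · exact hjl h.symm
                · exact hml h.symm
            · intro x _ hx
              exfalso
              apply hx
              rw [Finset.mem_insert, Finset.mem_insert, Finset.mem_singleton]
              have a1 := x.2
              have a2 := l.2
              have a3 := j.2
              have a4 := m.2
              simp only [Fin.ext_iff] at hmj hml hjl ⊢
              omega
          rw [u_rowSum] at h3
          rw [h3]; abel
        rw [h2, mul_sub, mul_sub, sub_mul, sub_mul, mul_one, u_row, if_neg (Ne.symm hmj), u_col,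
          if_neg hik, zero_mul, mul_assoc, u_col, if_neg (Ne.symm hik), mul_zero]
        simp
    · intro h; exact absurd (Finset.mem_univ _) h
  have h2 := congrArg star key
  rw [star_mul, star_mul, star_mul, star_u, star_u, ← mul_assoc, ← key] at h2
  exact h2.symm

theorem comm_of_le (hn : n ≤ 3) (x y : QPerm n) : x * y = y * x := by
  have h1 : ∀ i j (y : QPerm n), u i j * y = y * u i j := by
    intro i j y
    induction y using QPerm.induction with
    | hc z => rw [Algebra.commutes]
    | hu k l => exact u_comm_of_le hn i j k l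
    | hm a b h1 h2 => rw [← mul_assoc, h1, mul_assoc, h2, mul_assoc]
    | ha a b h1 h2 => rw [mul_add, add_mul, h1, h2]
  induction x using QPerm.induction with
  | hc z => rw [Algebra.commutes]
  | hu k l => exact h1 k l y
  | hm a b h1 h2 => rw [mul_assoc, h2, ← mul_assoc, h1, mul_assoc]
  | ha a b h1 h2 => rw [mul_add, add_mul, h1, h2]

theorem perm_injective (hn : n ≤ 3) {D : Type} [Ring D] [Algebra ℂ D]
    (f : QPerm n →ₐ[ℂ] D) (g : Equiv.Perm (Fin n) → (D →ₗ[ℂ] ℂ))
    (hg : ∀ σ x, g σ (f x) = lift _ (permSc_magic σ) x) : Function.Injective f := by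
  let _ : CommRing (QPerm n) := { (inferInstance : Ring (QPerm n)) with mul_comm := comm_of_le hn }
  rw [injective_iff_map_eq_zero]
  intro x hx
  let E : (Fin n → Fin n) → QPerm n := fun φ => ∏ i, u i (φ i)
  have h1 : (1 : QPerm n) = ∑ φ : Fin n → Fin n, E φ := by
    have h2 : ∏ i : Fin n, ∑ j, (u i j : QPerm n) = ∑ φ : Fin n → Fin n, ∏ i, u i (φ i) :=
      Finset.prod_univ_sum (fun _ => Finset.univ) (fun i j => (u i j : QPerm n)) |>.trans (by
        rw [Fintype.piFinset_univ])
    rw [← h2]
    simp [u_rowSum]
  have hu : ∀ i j φ, u i j * E φ = if φ i = j then E φ else 0 := by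
    intro i j φ
    change u i j * ∏ k, u k (φ k) = _
    rw [← Finset.mul_prod_erase Finset.univ (fun k => (u k (φ k) : QPerm n)) (Finset.mem_univ i),
      ← mul_assoc, u_row]
    by_cases h : j = φ i
    · rw [if_pos h, if_pos h.symm, h, Finset.mul_prod_erase Finset.univ
        (fun k => (u k (φ k) : QPerm n)) (Finset.mem_univ i)]
    · rw [if_neg h, if_neg (Ne.symm h), zero_mul]
  have hE : ∀ φ : Fin n → Fin n, x * E φ = 0 := by
    intro φ
    by_cases hφ : Function.Injective φ
    · let σ : Equiv.Perm (Fin n) := Equiv.ofBijective φ (Finite.injective_iff_bijective.1 hφ)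
      have hσ : ∀ i, σ i = φ i := fun i => rfl
      have h2 := hg σ
      have h3 : ∀ y : QPerm n, y * E φ = g σ (f y) • E φ := by
        intro y
        rw [h2]
        induction y using QPerm.induction with
        | hc z => rw [AlgHom.commutes, Algebra.smul_def]; rfl
        | hu i j =>
          rw [lift_u, hu, hσ]
          by_cases h : φ i = j
          · rw [if_pos h, if_pos h, one_smul]
          · rw [if_neg h, if_neg h, zero_smul]
        | hm a b ha hb => rw [mul_assoc, hb, mul_smul_comm, ha, map_mul, smul_smul, mul_comm]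
        | ha a b ha hb => rw [add_mul, ha, hb, map_add, add_smul]
      rw [h3, hx, map_zero, zero_smul]
    · have h3 : E φ = 0 := by
        rw [Function.Injective] at hφ
        push Not at hφ
        obtain ⟨i, k, hik, hne⟩ := hφ
        change ∏ m, u m (φ m) = _
        rw [← Finset.mul_prod_erase Finset.univ (fun m => (u m (φ m) : QPerm n))
          (Finset.mem_univ i), ← Finset.mul_prod_erase (Finset.univ.erase i)
          (fun m => (u m (φ m) : QPerm n)) (a := k)
          (Finset.mem_erase.2 ⟨Ne.symm hne, Finset.mem_univ k⟩), ← mul_assoc, hik, u_col,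
          if_neg hne, zero_mul]
      rw [h3, mul_zero]
  rw [← mul_one x, h1, Finset.mul_sum]
  exact Finset.sum_eq_zero fun φ _ => hE φ

/-- For at most three points the permutations separate the algebra. -/
theorem small_case (hn : n ≤ 3) :
    InnerFaithful (rep (permMat (n := n)) permMat_magic permMat_star) := by
  have hinj : Function.Injective (rep (permMat (n := n)) permMat_magic permMat_star) := by
    let Rr : QPerm n →⋆ₐ[ℂ] _ := rep (permMat (n := n)) permMat_magic permMat_star
    apply perm_injective hn (Rr : QPerm n →ₐ[ℂ] _)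
      (fun σ => (Matrix.entryLinearMap ℂ ℂ (Fintype.equivFin _ σ) (Fintype.equivFin _ σ)))
    intro σ x
    let Dg : QPerm n →ₐ[ℂ] Matrix (Equiv.Perm (Fin n)) (Equiv.Perm (Fin n)) ℂ :=
      (Matrix.diagonalAlgHom ℂ).comp (AlgHom.pi (fun σ => lift _ (permSc_magic σ)))
    let Rf : Matrix (Equiv.Perm (Fin n)) (Equiv.Perm (Fin n)) ℂ →ₐ[ℂ] _ :=
      (Matrix.reindexAlgEquiv ℂ ℂ (Fintype.equivFin (Equiv.Perm (Fin n)))).toAlgHom
    have h : (Rr : QPerm n →ₐ[ℂ] _) = Rf.comp Dg := by
      apply hom_ext
      intro i j
      change rep (permMat (n := n)) permMat_magic permMat_star (u i j) = reFin (Dg (u i j))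
      rw [rep_u]
      congr 1
      change _ = Matrix.diagonal _
      unfold permMat
      congr 1
      ext σ
      change _ = lift _ (permSc_magic σ) (u i j)
      rw [lift_u]
    rw [h]
    change reFin (Dg x) (Fintype.equivFin _ σ) (Fintype.equivFin _ σ) = _
    unfold reFin
    change (Dg x) ((Fintype.equivFin _).symm (Fintype.equivFin _ σ))
      ((Fintype.equivFin _).symm (Fintype.equivFin _ σ)) = _
    rw [Equiv.symm_apply_apply]
    exact Matrix.diagonal_apply_eq _ σ
  intro I _ hker
  rw [Submodule.eq_bot_iff]
  intro x hx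
  apply hinj
  rw [hker x hx, map_zero]

end small

end

end H46QP
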