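import Pool.Agent.H46.QP.Dih
import Pool.Agent.H46.QP.Small

/-!
Assembly: the representation given by all permutations and all dihedral magic matrices is inner
faithful.
-/

namespace H46QP

open scoped InnerProductSpace

noncomputable section

open QPerm

variable {n : ℕ}

/-- The scalar magic matrix of a permutation. -/
def vp (σ : Equiv.Perm (Fin n)) (i j : Fin n) : M2 := if σ i = j then 1 else 0

theorem vp_magic (σ : Equiv.Perm (Fin n)) : IsMagic (vp σ) := by
  have h := IsMagic_map (permSc_magic σ) (algebraMap ℂ M2)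
  have h1 : (fun i j => algebraMap ℂ M2 (if σ i = j then (1 : ℂ) else 0)) = vp σ := by
    funext i j
    unfold vp
    split_ifs <;> simp
  rw [h1] at h
  exact h

theorem vp_fix (σ : Equiv.Perm (Fin n)) (k : ℕ) (ξ : T n k) (i : Fin k → Fin n) :
    ∑ z, ξ z • wd (vp σ) k i z = algebraMap ℂ M2 (ξ (fun t => σ (i t))) := by
  induction k with
  | zero =>
    rw [Fintype.sum_subsingleton _ (fun t => σ (i t)), wd, Algebra.algebraMap_eq_smul_one]
  | succ k ih =>
    rw [sum_cons]
    have h1 : ∀ c, ∑ z' : Fin k → Fin n, ξ (Fin.cons c z') • wd (vp σ) (k + 1) i (Fin.cons c z') =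
        vp σ (i 0) c * algebraMap ℂ M2 (hd c ξ (fun t => σ (Fin.tail i t))) := by
      intro c
      rw [← ih, Finset.mul_sum]
      refine Finset.sum_congr rfl fun z' _ => ?_
      rw [wd_cons, hd_apply, mul_smul_comm]
    simp only [h1]
    rw [Finset.sum_eq_single (σ (i 0))]
    · rw [vp, if_pos rfl, one_mul, hd_apply]
      congr 1
      refine congrArg (fun f : Fin (k + 1) → Fin n => ξ f) (funext fun t => ?_)
      refine Fin.cases ?_ (fun t => ?_) t
      · simp
      · simp [Fin.tail]
    · intro c _ hc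
      rw [vp, if_neg (Ne.symm hc), zero_mul]
    · intro h; exact absurd (Finset.mem_univ _) h

theorem per_of_fix (σ : Equiv.Perm (Fin n)) {k : ℕ} {ξ : T n k} (h : ξ ∈ FixS (vp σ) k) :
    per σ ξ = ξ := by
  ext i
  have h1 := h i
  rw [vp_fix] at h1
  exact (algebraMap ℂ M2).injective h1

/-- The index set of the test magic matrices. -/
abbrev Idx (n : ℕ) : Type := Equiv.Perm (Fin n) ⊕ Gr n

/-- The test magic matrices. -/
def tst : Idx n → Fin n → Fin n → M2
  | Sum.inl σ => vp σ
  | Sum.inr e => ve e

theorem tst_magic (t : Idx n) : IsMagic (tst t) := by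
  rcases t with σ | e
  · exact vp_magic σ
  · exact ve_magic e

theorem qX_star : star qX = qX := by
  unfold qX Gm
  ext i j
  fin_cases i <;> fin_cases j <;> simp [Matrix.star_eq_conjTranspose]

theorem qY_star : star qY = qY := by
  unfold qY Km Gm rt
  ext i j
  fin_cases i <;> fin_cases j <;> simp [Matrix.star_eq_conjTranspose, z0, Matrix.mul_apply,
    Fin.sum_univ_two]

theorem tst_star (t : Idx n) (i j : Fin n) : star (tst t i j) = tst t i j := by
  rcases t with σ | e
  · change star (vp σ i j) = vp σ i j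
    unfold vp
    split_ifs <;> simp
  · change star (ve e i j) = ve e i j
    have hd' : star (del i j : M2) = del i j := by
      unfold del
      split_ifs <;> simp
    have hfX : star (e.fX i * e.fX j) = e.fX i * e.fX j := by
      rw [star_mul', Complex.star_def, fX_real, fX_real]
    have hfY : star (e.fY i * e.fY j) = e.fY i * e.fY j := by
      rw [star_mul', Complex.star_def, fY_real, fY_real]
    unfold ve
    rw [star_sub, star_sub, star_smul, star_smul, hd', qX_star, qY_star, hfX, hfY]

theorem fix_all (hn : 4 ≤ n) (k : ℕ) (ξ : T n k) (h : ∀ t : Idx n, ξ ∈ FixS (tst t) k) :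
    ξ ∈ FixS (u (n := n)) k := by
  refine fix_of_W tst tst_magic ?_ k ξ h
  intro k ξ hW hξ
  apply no_fixed hn (by omega) ξ hW
  · intro σ
    exact per_of_fix σ (hξ (Sum.inl σ))
  · intro e w
    exact pi_of_fix e (hξ (Sum.inr e)) w

instance : Finite (Gr n) := by
  apply Finite.of_injective (fun e : Gr n => (e.a, e.b, e.c, e.d))
  rintro ⟨a, b, c, d, _, _, _, _, _, _⟩ ⟨a', b', c', d', _, _, _, _, _, _⟩ h
  simp only [Prod.mk.injEq] at h
  obtain ⟨rfl, rfl, rfl, rfl⟩ := h
  rfl

instance : Fintype (Gr n) := Fintype.ofFinite _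

instance : DecidableEq (Gr n) := Classical.decEq _

/-- The direct sum of all test magic matrices. -/
def bigV (i j : Fin n) : Matrix (Fin 2 × Idx n) (Fin 2 × Idx n) ℂ :=
  Matrix.blockDiagonal (fun t => tst t i j)

/-- Block diagonal matrices as an algebra homomorphism. -/
def bdHom (n : ℕ) : (Idx n → M2) →ₐ[ℂ] Matrix (Fin 2 × Idx n) (Fin 2 × Idx n) ℂ :=
  { Matrix.blockDiagonalRingHom (Fin 2) (Idx n) ℂ with
    commutes' := by
      intro r
      change Matrix.blockDiagonal (algebraMap ℂ (Idx n → M2) r) = _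
      rw [Algebra.algebraMap_eq_smul_one, Matrix.blockDiagonal_smul, Matrix.blockDiagonal_one,
        Algebra.algebraMap_eq_smul_one] }

theorem bdHom_inj : Function.Injective (bdHom n) := fun _ _ h => Matrix.blockDiagonal_injective h

theorem pi_magic : IsMagic (fun i j : Fin n => fun t : Idx n => tst t i j) := by
  refine ⟨fun i j k => ?_, fun i j k => ?_, fun i => ?_, fun j => ?_⟩
  · funext t
    rw [Pi.mul_apply, (tst_magic t).row]
    split_ifs <;> rfl
  · funext t
    rw [Pi.mul_apply, (tst_magic t).col]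
    split_ifs <;> rfl
  · funext t
    rw [Finset.sum_apply, (tst_magic t).rowSum]; rfl
  · funext t
    rw [Finset.sum_apply, (tst_magic t).colSum]; rfl

theorem bigV_magic : IsMagic (bigV (n := n)) := by
  have h := IsMagic_map (pi_magic (n := n)) (bdHom n).toRingHom
  exact h

theorem bigV_star (i j : Fin n) : star (bigV i j) = bigV i j := by
  unfold bigV
  rw [Matrix.star_eq_conjTranspose, Matrix.blockDiagonal_conjTranspose]
  congr 1
  funext t
  exact tst_star t i j

/-- The main case. -/
theorem main_case (hn : 4 ≤ n) : InnerFaithful (rep (bigV (n := n)) bigV_magic bigV_star) := by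
  apply inner_of_hom (by omega)
  intro k S hS
  have h1 : IsHom (fun i j : Fin n => fun t : Idx n => tst t i j) k k S := by
    let f : (Idx n → M2) →ₐ[ℂ] Matrix (Fin (Fintype.card (Fin 2 × Idx n)))
        (Fin (Fintype.card (Fin 2 × Idx n))) ℂ :=
      ((Matrix.reindexAlgEquiv ℂ ℂ (Fintype.equivFin (Fin 2 × Idx n))).toAlgHom).comp (bdHom n)
    have hf : Function.Injective f :=
      (Matrix.reindexAlgEquiv ℂ ℂ (Fintype.equivFin (Fin 2 × Idx n))).injective.comp bdHom_inj
    apply IsHom_of_inj f hf
    have h2 : (fun i j : Fin n => f (fun t : Idx n => tst t i j)) =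
        (fun a b => rep (bigV (n := n)) bigV_magic bigV_star (u a b)) := by
      funext a b
      rw [rep_u]
      rfl
    rw [h2]
    exact hS
  apply hom_of_fix tst tst_magic u_magic (fix_all hn) k k S
  intro t
  exact IsHom_map (Pi.evalAlgHom ℂ (fun _ : Idx n => M2) t) h1

/-- Inner linearity of the quantum permutation algebra. -/
theorem inner_linear (n : ℕ) (hn : 1 ≤ n) :
    ∃ N : ℕ, 1 ≤ N ∧ ∃ π : QPerm n →⋆ₐ[ℂ] Matrix (Fin N) (Fin N) ℂ, InnerFaithful π := by
  rcases Nat.lt_or_ge n 4 with h | h
  · exact ⟨_, Fintype.card_pos, _, small_case (by omega)⟩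
  · refine ⟨_, ?_, _, main_case h⟩
    have : Nonempty (Fin 2 × Idx n) := ⟨(0, Sum.inl 1)⟩
    exact Fintype.card_pos

end

end H46QP
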