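import Pool.Agent.H46.QP.Schur

/-!
Main induction, second part.
-/

namespace H46QP

open scoped InnerProductSpace

noncomputable section

variable {n : ℕ}

theorem alt_sw_succ (j : ℕ) (e : Gr n) : alt (j + 1) e.sw = ten e.fY (alt j e) := rfl

theorem tenY_eq {j : ℕ} (e : Gr n) (y : T n j) :
    ten e.fY y = ten (dl e.c) y - ten (dl e.d) y := by
  rw [Gr.fY, ten_sub]

theorem inner_self_sum {ι : Type*} [Fintype ι] {V : Type*} [NormedAddCommGroup V]
    [InnerProductSpace ℂ V] (f : ι → V) (h : ∑ i, ⟪f i, f i⟫_ℂ = 0) (i : ι) : f i = 0 := by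
  have h1 : ∑ i, ((‖f i‖ ^ 2 : ℝ) : ℂ) = 0 := by
    rw [← h]
    refine Finset.sum_congr rfl fun i _ => ?_
    rw [inner_self_eq_norm_sq_to_K]
    push_cast
    rfl
  rw [← Complex.ofReal_sum] at h1
  have h2 : ∑ i, ‖f i‖ ^ 2 = 0 := by exact_mod_cast h1
  rw [Finset.sum_eq_zero_iff_of_nonneg (fun i _ => sq_nonneg _)] at h2
  have h3 := h2 i (Finset.mem_univ i)
  rw [pow_eq_zero_iff two_ne_zero, norm_eq_zero] at h3
  exact h3

theorem PT_pos {j : ℕ} (A : T n (j + 1) →ₗ[ℂ] T n (j + 1)) (y : T n j)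
    (h : PT (LinearMap.adjoint A ∘ₗ A) y = 0) (c : Fin n) : A (ten (dl c) y) = 0 := by
  refine inner_self_sum (fun c => A (ten (dl c) y)) ?_ c
  have h1 : ⟪y, PT (LinearMap.adjoint A ∘ₗ A) y⟫_ℂ = 0 := by rw [h, inner_zero_right]
  rw [PT_apply, inner_sum] at h1
  rw [← h1]
  refine Finset.sum_congr rfl fun c _ => ?_
  rw [← inner_ten_dl, LinearMap.comp_apply, LinearMap.adjoint_inner_right]

theorem PT_sub {j : ℕ} (A B : T n (j + 1) →ₗ[ℂ] T n (j + 1)) : PT (A - B) = PT A - PT B := by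
  ext1 y
  rw [LinearMap.sub_apply, PT_apply, PT_apply, PT_apply, ← Finset.sum_sub_distrib]
  refine Finset.sum_congr rfl fun c _ => ?_
  rw [LinearMap.sub_apply, map_sub]

theorem PT_smul {j : ℕ} (z : ℂ) (A : T n (j + 1) →ₗ[ℂ] T n (j + 1)) :
    PT (z • A) = z • PT A := by
  ext1 y
  rw [LinearMap.smul_apply, PT_apply, PT_apply, Finset.smul_sum]
  refine Finset.sum_congr rfl fun c _ => ?_
  rw [LinearMap.smul_apply, map_smul]

/-- The projection does not kill both extensions of the alternating tensor. -/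
theorem PW_ten_ne (j : ℕ) (e : Gr n) (h1 : PW n (j + 1) (ten (dl e.c) (alt j e)) = 0)
    (h2 : PW n (j + 1) (ten (dl e.d) (alt j e)) = 0) : False := by
  have h3 : PW n (j + 1) (alt (j + 1) e.sw) = 0 := by
    rw [alt_sw_succ, tenY_eq, map_sub, h1, h2, sub_zero]
  rw [PW_alt] at h3
  exact alt_ne _ _ h3

theorem kappa_ne (hn : 4 ≤ n) {j : ℕ} {z : ℂ} (hz : PT (PW n (j + 1)) = z • PW n j) : z ≠ 0 := by
  intro h0
  rw [h0, zero_smul] at hz
  have h1 : LinearMap.adjoint (PW n (j + 1)) ∘ₗ PW n (j + 1) = PW n (j + 1) := by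
    ext1 y
    rw [LinearMap.comp_apply, PW_adj, PW_self (PW_mem y)]
  have h2 : PT (LinearMap.adjoint (PW n (j + 1)) ∘ₗ PW n (j + 1)) (alt j (e0 hn)) = 0 := by
    rw [h1, hz, LinearMap.zero_apply]
  exact PW_ten_ne j (e0 hn) (PT_pos _ _ h2 _) (PT_pos _ _ h2 _)

theorem alt_eigen {k : ℕ} {A : T n k →ₗ[ℂ] T n k} (hA : IsH A) (e : Gr n) :
    ∃ α : ℂ, ∀ e' : Gr n, A (alt k e') = α • alt k e' := by
  obtain ⟨α, hα⟩ := pi_top k e (A (alt k e))
  have h1 : A (alt k e) = α • alt k e := by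
    rw [← hA.pi, pi_alt] at hα
    exact hα
  refine ⟨α, fun e' => ?_⟩
  obtain ⟨σ, hσ⟩ := Gr_trans e e'
  have h2 := alt_map k e' σ
  rw [hσ] at h2
  rw [← h2, hA.per, h1, map_smul]

theorem zero_alpha (hn : 4 ≤ n) {j : ℕ} (hI : II n j) {A : T n (j + 1) →ₗ[ℂ] T n (j + 1)}
    (hA : IsH A) (hW : WW A) (hP : PT A = 0) (e : Gr n) : A (alt (j + 1) e) = 0 := by
  have hD : Dg A = 0 := hI _ (Dg_IsH hA) (Dg_WW hW hP)
  obtain ⟨α, hα⟩ := alt_eigen hA e
  by_cases h0 : α = 0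
  · rw [hα, h0, zero_smul]
  exfalso
  let B : T n (j + 1) →ₗ[ℂ] T n (j + 1) := A - α • LinearMap.id
  have hBpi : ∀ e w ξ, B (pi e (j + 1) w ξ) = pi e (j + 1) w (B ξ) := by
    intro e w ξ
    simp only [B, LinearMap.sub_apply, LinearMap.smul_apply, LinearMap.id_apply, map_sub,
      map_smul, hA.pi]
  have hBalt : ∀ e', B (alt (j + 1) e') = 0 := by
    intro e'
    simp only [B, LinearMap.sub_apply, LinearMap.smul_apply, LinearMap.id_apply, hα, sub_self]
  have hN : Hyp j ((W n (j + 1)).map B) := by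
    refine ⟨?_, ?_, ?_⟩
    · rintro _ ⟨x, hx, rfl⟩
      exact Submodule.sub_mem _ (hW.l x) (Submodule.smul_mem _ _ hx)
    · rintro e w _ ⟨x, hx, rfl⟩
      exact ⟨pi e (j + 1) w x, W_pi e _ w hx, hBpi e w x⟩
    · rintro e _ ⟨x, hx, rfl⟩
      apply alt_zero_of_pi
      obtain ⟨z, hz⟩ := pi_top (j + 1) e x
      rw [← hBpi, hz, map_smul, hBalt, smul_zero]
  have hlow : ∀ x ∈ W n (j + 1), pi e (j + 1) j x = x → A x = α • x := by
    intro x hx hpx
    have h1 := step1 hn hN e (B x) ⟨x, hx, rfl⟩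
    rw [← hBpi, hpx] at h1
    have h2 : A x - α • x = 0 := h1
    exact sub_eq_zero.1 h2
  -- the even part
  have hs : A (PW n (j + 1) (ten e.sY (alt j e))) = α • PW n (j + 1) (ten e.sY (alt j e)) := by
    apply hlow _ (PW_mem _)
    have h3 : Triv e e.sY := Triv_sY e
    rw [← (PW_IsH (j + 1)).pi, pi_ten_triv e j _ h3, pi_alt]
  have hf : A (PW n (j + 1) (ten e.fY (alt j e))) = α • PW n (j + 1) (ten e.fY (alt j e)) := by
    rw [← alt_sw_succ, PW_alt, hα]
  have hc : ∀ c, (c = e.c ∨ c = e.d) →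
      A (PW n (j + 1) (ten (dl c) (alt j e))) = α • PW n (j + 1) (ten (dl c) (alt j e)) := by
    rintro c (rfl | rfl)
    · rw [dlc_eq, ten_add, ten_smul, ten_smul, map_add, map_add, map_smul, map_smul, map_smul,
        map_smul, hs, hf]
      module
    · rw [dld_eq, ten_sub, ten_smul, ten_smul, map_sub, map_sub, map_smul, map_smul, map_smul,
        map_smul, hs, hf]
      module
  have hz : ∀ c, (c = e.c ∨ c = e.d) → PW n (j + 1) (ten (dl c) (alt j e)) = 0 := by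
    intro c hcc
    have h1 : hd c (A (ten (dl c) (alt j e))) = 0 := by
      rw [← hd_Dg, hD, LinearMap.zero_apply, map_zero]
    have h2 : ⟪ten (dl c) (alt j e), A (ten (dl c) (alt j e))⟫_ℂ = 0 := by
      rw [inner_ten_dl, h1, inner_zero_right]
    rw [← hW.PW, hc c hcc, inner_smul_right] at h2
    have h3 := (mul_eq_zero.1 h2).resolve_left h0
    have h4 : ⟪PW n (j + 1) (ten (dl c) (alt j e)), PW n (j + 1) (ten (dl c) (alt j e))⟫_ℂ = 0 := by
      rw [PW_inner, PW_self (PW_mem _), h3]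
    exact inner_self_eq_zero.1 h4
  exact PW_ten_ne j e (hz _ (Or.inl rfl)) (hz _ (Or.inr rfl))

theorem JJ_succ (hn : 4 ≤ n) {j : ℕ} (hJ : JJ n j) (hI : II n j) : JJ n (j + 1) := by
  obtain ⟨k1, hk1⟩ := hJ _ (PT_IsH (PW_IsH (j + 1))) (PT_WW (PW_WW (j + 1)))
  have hk1ne := kappa_ne hn hk1
  -- operators with zero partial trace vanish
  have key : ∀ A : T n (j + 1) →ₗ[ℂ] T n (j + 1), IsH A → WW A → PT A = 0 → A = 0 := by
    intro A hA hW hP
    have h1 := zero_alpha hn hI hA hW hP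
    have hC : IsH (LinearMap.adjoint A ∘ₗ A) := hA.adj.comp hA
    have hCW : WW (LinearMap.adjoint A ∘ₗ A) := hW.adj.comp hW
    obtain ⟨kc, hkc⟩ := hJ _ (PT_IsH hC) (PT_WW hCW)
    have h2 : PT (LinearMap.adjoint A ∘ₗ A - (kc / k1) • PW n (j + 1)) = 0 := by
      rw [PT_sub, PT_smul, hkc, hk1, smul_smul, div_mul_cancel₀ _ hk1ne, sub_self]
    have h3 := zero_alpha hn hI (hC.sub ((PW_IsH _).smul _)) (hCW.sub ((PW_WW _).smul _)) h2
      (e0 hn)
    rw [LinearMap.sub_apply, LinearMap.comp_apply, h1, map_zero, LinearMap.smul_apply, PW_alt,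
      zero_sub, neg_eq_zero] at h3
    have h4 : kc / k1 = 0 := (smul_eq_zero.1 h3).resolve_right (alt_ne _ _)
    have h5 : kc = 0 := by
      rcases div_eq_zero_iff.1 h4 with h | h
      · exact h
      · exact absurd h hk1ne
    rw [h5, zero_smul] at hkc
    ext1 ξ
    rw [sum_ten_hd ξ, map_sum, LinearMap.zero_apply]
    refine Finset.sum_eq_zero fun c _ => ?_
    exact PT_pos A _ (by rw [hkc, LinearMap.zero_apply]) c
  intro A hA hW
  obtain ⟨ka, hka⟩ := hJ _ (PT_IsH hA) (PT_WW hW)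
  refine ⟨ka / k1, ?_⟩
  rw [← sub_eq_zero]
  apply key _ (hA.sub ((PW_IsH _).smul _)) (hW.sub ((PW_WW _).smul _))
  rw [PT_sub, PT_smul, hka, hk1, smul_smul, div_mul_cancel₀ _ hk1ne, sub_self]

theorem JJ_all (hn : 4 ≤ n) (j : ℕ) : JJ n j := by
  induction j with
  | zero => exact JJ_zero
  | succ j ih => exact JJ_succ hn ih (II_of_JJ hn ih)

/-- Good invariant maps vanish. -/
def ZZ (n b a : ℕ) : Prop := ∀ S : T n b →ₗ[ℂ] T n a, IsH S → WW S → Adj S → S = 0

theorem ZZ_bend {b a : ℕ} (h : ZZ n (b + 1) a) : ZZ n b (a + 1) := by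
  intro S hS hW hA
  have h1 := bend_good hW hA
  have h2 := h _ (bend_IsH hS) h1.1 h1.2
  rw [← unb_bend S, h2]
  ext1 y
  apply ext_hd; intro c
  rw [hd_unb, LinearMap.zero_apply, LinearMap.zero_apply, map_zero]

theorem ZZ_down (b a m : ℕ) (h : ZZ n (b + m) a) : ZZ n b (a + m) := by
  induction m generalizing a with
  | zero => exact h
  | succ m ih =>
    have h1 := ih (a + 1) (ZZ_bend h)
    rw [show a + (m + 1) = a + 1 + m by ring]
    exact h1

theorem ZZ_all (hn : 4 ≤ n) (k : ℕ) (hk : 1 ≤ k) : ZZ n 0 k := by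
  rcases Nat.even_or_odd k with h | h
  · obtain ⟨j, rfl⟩ := h
    obtain ⟨j, rfl⟩ : ∃ i, j = i + 1 := ⟨j - 1, by omega⟩
    apply ZZ_down 0 (j + 1) (j + 1)
    rw [zero_add]
    intro S hS hW hA
    obtain ⟨z, hz⟩ := JJ_all hn (j + 1) S hS hW
    obtain ⟨k1, hk1⟩ := JJ_all hn j _ (PT_IsH (PW_IsH (j + 1))) (PT_WW (PW_WW (j + 1)))
    have hk1ne := kappa_ne hn hk1
    have h1 : PT S = 0 := by
      ext1 y
      rw [PT_apply, LinearMap.zero_apply]
      exact Finset.sum_eq_zero fun c _ => hA c y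
    rw [hz, PT_smul, hk1, smul_smul] at h1
    have h2 := LinearMap.congr_fun h1 (alt j (e0 hn))
    rw [LinearMap.smul_apply, PW_alt, LinearMap.zero_apply] at h2
    have h3 := (smul_eq_zero.1 h2).resolve_right (alt_ne _ _)
    rw [hz, (mul_eq_zero.1 h3).resolve_right hk1ne, zero_smul]
  · obtain ⟨j, rfl⟩ := h
    have h1 : ZZ n 0 (j + 1 + j) := by
      apply ZZ_down 0 (j + 1) j
      rw [zero_add]
      intro S hS hW _
      exact II_of_JJ hn (JJ_all hn j) S hS hW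
    rw [show 2 * j + 1 = j + 1 + j by ring]
    exact h1

/-- There is no nonzero invariant vector in W. -/
theorem no_fixed (hn : 4 ≤ n) {k : ℕ} (hk : 1 ≤ k) (ξ : T n k) (hW : ξ ∈ W n k)
    (hper : ∀ σ : Equiv.Perm (Fin n), per σ ξ = ξ)
    (hpi : ∀ (e : Gr n) (w : ℤ), pi e k w ξ = if w = 0 then ξ else 0) : ξ = 0 := by
  let S : T n 0 →ₗ[ℂ] T n k :=
    { toFun := fun y => (y (fun i => i.elim0)) • ξ
      map_add' := fun y z => by rw [PiLp.add_apply, add_smul]
      map_smul' := fun c y => by rw [PiLp.smul_apply, smul_eq_mul, mul_smul]; rfl }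
  have hSa : ∀ y, S y = (y (fun i => i.elim0)) • ξ := fun y => rfl
  have hH : IsH S := by
    constructor
    · intro σ y
      rw [hSa, hSa, map_smul, hper]
      have h1 : (per σ y) (fun i : Fin 0 => i.elim0) = y (fun i : Fin 0 => i.elim0) := by
        rw [per_apply]
        exact congrArg (fun f : Fin 0 → Fin n => y f) (Subsingleton.elim _ _)
      rw [h1]
    · intro e w y
      rw [hSa, hSa, map_smul, hpi, pi]
      by_cases h : w = 0
      · rw [if_pos h, if_pos h, LinearMap.id_apply]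
      · rw [if_neg h, if_neg h, LinearMap.zero_apply, smul_zero]
        simp
  have hWW : WW S := ⟨fun y => Submodule.smul_mem _ _ hW, fun z => Submodule.mem_top⟩
  have h1 := ZZ_all hn k hk S hH hWW trivial
  have h2 := hSa one0
  rw [h1, LinearMap.zero_apply] at h2
  rw [h2]
  simp [one0]

end

end H46QP
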