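import Pool.Agent.H46.QP.Reduce
import Pool.Agent.H46.QP.Induct

/-!
Fixed vectors and intertwiners of magic matrices.
-/

namespace H46QP

open scoped InnerProductSpace

noncomputable section

open QPerm

variable {n : ℕ} {C : Type*} [Ring C] [Algebra ℂ C]

theorem sum_cons {M : Type*} [AddCommMonoid M] {k : ℕ} (f : (Fin (k + 1) → Fin n) → M) :
    ∑ z, f z = ∑ c, ∑ z' : Fin k → Fin n, f (Fin.cons c z') := by
  rw [← (Fin.consEquiv (fun _ : Fin (k + 1) => Fin n)).sum_comp, Fintype.sum_prod_type]
  rfl

@[simp] theorem tail_cons' {k : ℕ} (c : Fin n) (z : Fin k → Fin n) :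
    Fin.tail (Fin.cons c z : Fin (k + 1) → Fin n) = z := Fin.tail_cons _ _

@[simp] theorem cons_zero' {k : ℕ} (c : Fin n) (z : Fin k → Fin n) :
    (Fin.cons c z : Fin (k + 1) → Fin n) 0 = c := Fin.cons_zero _ _

omit [Algebra ℂ C] in
theorem wd_succ (v : Fin n → Fin n → C) (k : ℕ) (i j : Fin (k + 1) → Fin n) :
    wd v (k + 1) i j = v (i 0) (j 0) * wd v k (Fin.tail i) (Fin.tail j) := rfl

omit [Algebra ℂ C] in
theorem wd_cons (v : Fin n → Fin n → C) (k : ℕ) (i : Fin (k + 1) → Fin n) (c : Fin n)
    (z : Fin k → Fin n) : wd v (k + 1) i (Fin.cons c z) = v (i 0) c * wd v k (Fin.tail i) z := by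
  rw [wd, cons_zero', tail_cons']

omit [Algebra ℂ C] in
theorem wd_cons_left (v : Fin n → Fin n → C) (k : ℕ) (i : Fin (k + 1) → Fin n) (c : Fin n)
    (z : Fin k → Fin n) : wd v (k + 1) (Fin.cons c z) i = v c (i 0) * wd v k z (Fin.tail i) := by
  rw [wd, cons_zero', tail_cons']

/-- The linear map with a given kernel. -/
def LK {a b : ℕ} (S : (Fin b → Fin n) → (Fin a → Fin n) → ℂ) : T n a →ₗ[ℂ] T n b where
  toFun ξ := WithLp.toLp 2 (fun i => ∑ y, S i y * ξ y)
  map_add' ξ η := by
    ext i
    simp [mul_add, Finset.sum_add_distrib]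
  map_smul' z ξ := by
    ext i
    simp only [PiLp.smul_apply, smul_eq_mul, RingHom.id_apply, Finset.mul_sum]
    exact Finset.sum_congr rfl fun y _ => by ring

theorem LK_apply {a b : ℕ} (S : (Fin b → Fin n) → (Fin a → Fin n) → ℂ) (ξ : T n a)
    (i : Fin b → Fin n) : LK S ξ i = ∑ y, S i y * ξ y := rfl

theorem LK_inner {a b : ℕ} (S : (Fin b → Fin n) → (Fin a → Fin n) → ℂ)
    (hS : ∀ i y, (starRingEnd ℂ) (S i y) = S i y) (ξ : T n a) (η : T n b) :
    ⟪LK S ξ, η⟫_ℂ = ⟪ξ, LK (fun y i => S i y) η⟫_ℂ := by
  rw [inner_eq, inner_eq]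
  simp only [LK_apply, map_sum, map_mul, hS, Finset.sum_mul, Finset.mul_sum]
  rw [Finset.sum_comm]
  exact Finset.sum_congr rfl fun y _ => Finset.sum_congr rfl fun i _ => by ring

/-- Fixed vectors of the k-th tensor power of the magic matrix v. -/
def FixS (v : Fin n → Fin n → C) (k : ℕ) : Submodule ℂ (T n k) where
  carrier := {ξ | ∀ i, ∑ z, ξ z • wd v k i z = algebraMap ℂ C (ξ i)}
  zero_mem' := by intro i; simp
  add_mem' := by
    intro ξ η h1 h2 i
    simp only [PiLp.add_apply, add_smul, Finset.sum_add_distrib, map_add]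
    rw [h1 i, h2 i]
  smul_mem' := by
    intro z ξ h i
    simp only [PiLp.smul_apply, smul_eq_mul, mul_smul, ← Finset.smul_sum]
    rw [h i, Algebra.smul_def, map_mul]

theorem mem_FixS (v : Fin n → Fin n → C) (k : ℕ) (ξ : T n k) :
    ξ ∈ FixS v k ↔ ∀ i, ∑ z, ξ z • wd v k i z = algebraMap ℂ C (ξ i) := Iff.rfl

theorem FixS_zero (v : Fin n → Fin n → C) (ξ : T n 0) : ξ ∈ FixS v 0 := by
  intro i
  rw [Fintype.sum_subsingleton _ i, wd, Algebra.algebraMap_eq_smul_one]

theorem LK_Fix {v : Fin n → Fin n → C} {a b : ℕ} {S : (Fin b → Fin n) → (Fin a → Fin n) → ℂ}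
    (hS : IsHom v b a S) {ξ : T n a} (h : ξ ∈ FixS v a) : LK S ξ ∈ FixS v b := by
  intro i
  simp only [LK_apply, Finset.sum_smul, map_sum]
  rw [Finset.sum_comm]
  have h1 : ∀ y, ∑ x, (S x y * ξ y) • wd v b i x = ∑ x, (S i x * ξ y) • wd v a x y := by
    intro y
    have h2 := hS i y
    have h3 : ∀ x, (S x y * ξ y) • wd v b i x = ξ y • (S x y • wd v b i x) := fun x => by
      rw [smul_smul, mul_comm]
    have h4 : ∀ x, (S i x * ξ y) • wd v a x y = ξ y • (S i x • wd v a x y) := fun x => by
      rw [smul_smul, mul_comm]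
    simp only [h3, h4, ← Finset.smul_sum]
    rw [h2]
  simp only [h1]
  rw [Finset.sum_comm]
  refine Finset.sum_congr rfl fun x _ => ?_
  rw [map_mul, ← h x, Finset.mul_sum]
  refine Finset.sum_congr rfl fun y _ => ?_
  rw [← Algebra.smul_def, smul_smul]

/-- Tensoring a kernel with the identity on the left. -/
def idK {a b : ℕ} (S : (Fin b → Fin n) → (Fin a → Fin n) → ℂ) :
    (Fin (b + 1) → Fin n) → (Fin (a + 1) → Fin n) → ℂ :=
  fun i y => if i 0 = y 0 then S (Fin.tail i) (Fin.tail y) else 0

theorem idK_hom {v : Fin n → Fin n → C} {a b : ℕ} {S : (Fin b → Fin n) → (Fin a → Fin n) → ℂ}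
    (hS : IsHom v b a S) : IsHom v (b + 1) (a + 1) (idK S) := by
  intro i j
  rw [sum_cons, sum_cons, Finset.sum_eq_single (j 0), Finset.sum_eq_single (i 0)]
  · simp only [idK, cons_zero', tail_cons', if_true, wd_cons, wd_cons_left, ← mul_smul_comm,
      ← Finset.mul_sum]
    rw [hS]
  · intro c _ hc
    simp [idK, Ne.symm hc]
  · intro h; exact absurd (Finset.mem_univ _) h
  · intro c _ hc
    simp [idK, hc]
  · intro h; exact absurd (Finset.mem_univ _) h

theorem hd_idK {a b : ℕ} (S : (Fin b → Fin n) → (Fin a → Fin n) → ℂ) (ξ : T n (a + 1))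
    (c : Fin n) : hd c (LK (idK S) ξ) = LK S (hd c ξ) := by
  ext i
  rw [hd_apply, LK_apply, LK_apply, sum_cons, Finset.sum_eq_single c]
  · simp [idK, hd_apply]
  · intro d _ hd'
    simp [idK, Ne.symm hd']
  · intro h; exact absurd (Finset.mem_univ _) h

/-- Summation over the slot p. -/
def smK : (p k : ℕ) → (Fin k → Fin n) → (Fin (k + 1) → Fin n) → ℂ
  | 0, _ => fun i y => if i = Fin.tail y then 1 else 0
  | _ + 1, 0 => fun _ _ => 0
  | p + 1, k + 1 => idK (smK p k)

/-- Merging of the slots p and p+1. -/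
def mgK : (p k : ℕ) → (Fin (k + 1) → Fin n) → (Fin (k + 2) → Fin n) → ℂ
  | 0, _ => fun i y => if y = Fin.cons (i 0) i then 1 else 0
  | _ + 1, 0 => fun _ _ => 0
  | p + 1, k + 1 => idK (mgK p k)

theorem IsHom_zero (v : Fin n → Fin n → C) (a b : ℕ) : IsHom v a b (fun _ _ => 0) := by
  intro i j; simp

theorem idK_tr {a b : ℕ} (S : (Fin b → Fin n) → (Fin a → Fin n) → ℂ) :
    (fun y i => idK S i y) = idK (fun y i => S i y) := by
  funext y i
  simp only [idK]
  by_cases h : i 0 = y 0
  · rw [if_pos h, if_pos h.symm]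
  · rw [if_neg h, if_neg (Ne.symm h)]

theorem smK_hom {v : Fin n → Fin n → C} (hv : IsMagic v) (p k : ℕ) :
    IsHom v k (k + 1) (smK p k) ∧ IsHom v (k + 1) k (fun y i => smK p k i y) := by
  induction p generalizing k with
  | zero =>
    constructor
    · intro i j
      rw [sum_cons]
      have h1 : ∑ z, smK 0 k z j • wd v k i z = wd v k i (Fin.tail j) := by
        rw [Finset.sum_eq_single (Fin.tail j)]
        · simp [smK]
        · intro z _ hz; simp [smK, hz]
        · intro h; exact absurd (Finset.mem_univ _) h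
      have h2 : ∀ c, ∑ z : Fin k → Fin n, smK 0 k i (Fin.cons c z : Fin (k + 1) → Fin n) •
          wd v (k + 1) (Fin.cons c z) j = v c (j 0) * wd v k i (Fin.tail j) := by
        intro c
        rw [Finset.sum_eq_single i]
        · simp [smK, wd_cons_left]
        · intro z _ hz; simp [smK, Ne.symm hz]
        · intro h; exact absurd (Finset.mem_univ _) h
      rw [h1]
      simp only [h2, ← Finset.sum_mul, hv.colSum, one_mul]
    · intro i j
      rw [sum_cons]
      have h1 : ∑ y, smK 0 k y i • wd v k y j = wd v k (Fin.tail i) j := by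
        rw [Finset.sum_eq_single (Fin.tail i)]
        · simp [smK]
        · intro z _ hz; simp [smK, hz]
        · intro h; exact absurd (Finset.mem_univ _) h
      have h2 : ∀ c, ∑ z : Fin k → Fin n, smK 0 k j (Fin.cons c z : Fin (k + 1) → Fin n) •
          wd v (k + 1) i (Fin.cons c z) = v (i 0) c * wd v k (Fin.tail i) j := by
        intro c
        rw [Finset.sum_eq_single j]
        · simp [smK, wd_cons]
        · intro z _ hz; simp [smK, Ne.symm hz]
        · intro h; exact absurd (Finset.mem_univ _) h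
      rw [h1]
      simp only [h2, ← Finset.sum_mul, hv.rowSum, one_mul]
  | succ p ih =>
    cases k with
    | zero => exact ⟨IsHom_zero v _ _, IsHom_zero v _ _⟩
    | succ k =>
      refine ⟨idK_hom (ih k).1, ?_⟩
      rw [smK, idK_tr]
      exact idK_hom (ih k).2

theorem mgK_hom {v : Fin n → Fin n → C} (hv : IsMagic v) (p k : ℕ) :
    IsHom v (k + 1) (k + 2) (mgK p k) ∧ IsHom v (k + 2) (k + 1) (fun y i => mgK p k i y) := by
  induction p generalizing k with
  | zero =>
    constructor
    · intro i j
      -- left: words z with j = cons (z 0) z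
      have hR : ∑ y, mgK 0 k i y • wd v (k + 2) y j = wd v (k + 2) (Fin.cons (i 0) i) j := by
        rw [Finset.sum_eq_single (Fin.cons (i 0) i)]
        · simp [mgK]
        · intro z _ hz; simp [mgK, hz]
        · intro h; exact absurd (Finset.mem_univ _) h
      have hL : ∑ z, mgK 0 k z j • wd v (k + 1) i z =
          if j 0 = (Fin.tail j) 0 then wd v (k + 1) i (Fin.tail j) else 0 := by
        by_cases h : j 0 = (Fin.tail j) 0
        · rw [if_pos h, Finset.sum_eq_single (Fin.tail j)]
          · have : j = Fin.cons ((Fin.tail j) 0) (Fin.tail j) := by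
              rw [← h, Fin.cons_self_tail]
            simp only [mgK]
            rw [if_pos this, one_smul]
          · intro z _ hz
            simp only [mgK]
            rw [if_neg, zero_smul]
            intro hj
            apply hz
            rw [hj, tail_cons']
          · intro h; exact absurd (Finset.mem_univ _) h
        · rw [if_neg h]
          refine Finset.sum_eq_zero fun z _ => ?_
          simp only [mgK]
          rw [if_neg, zero_smul]
          intro hj
          apply h
          rw [hj, tail_cons', cons_zero']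
      rw [hL, hR, wd_cons_left, wd_succ v k, ← mul_assoc, hv.row]
      by_cases h : j 0 = (Fin.tail j) 0
      · rw [if_pos h, if_pos h, h]
      · rw [if_neg h, if_neg h, zero_mul]
    · intro i j
      have hL : ∑ z, mgK 0 k j z • wd v (k + 2) i z = wd v (k + 2) i (Fin.cons (j 0) j) := by
        rw [Finset.sum_eq_single (Fin.cons (j 0) j)]
        · simp [mgK]
        · intro z _ hz; simp [mgK, hz]
        · intro h; exact absurd (Finset.mem_univ _) h
      have hR : ∑ y, mgK 0 k y i • wd v (k + 1) y j =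
          if i 0 = (Fin.tail i) 0 then wd v (k + 1) (Fin.tail i) j else 0 := by
        by_cases h : i 0 = (Fin.tail i) 0
        · rw [if_pos h, Finset.sum_eq_single (Fin.tail i)]
          · have : i = Fin.cons ((Fin.tail i) 0) (Fin.tail i) := by
              rw [← h, Fin.cons_self_tail]
            simp only [mgK]
            rw [if_pos this, one_smul]
          · intro z _ hz
            simp only [mgK]
            rw [if_neg, zero_smul]
            intro hj
            apply hz
            rw [hj, tail_cons']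
          · intro h; exact absurd (Finset.mem_univ _) h
        · rw [if_neg h]
          refine Finset.sum_eq_zero fun z _ => ?_
          simp only [mgK]
          rw [if_neg, zero_smul]
          intro hj
          apply h
          rw [hj, tail_cons', cons_zero']
      rw [hL, hR, wd_cons, wd_succ v k, ← mul_assoc, hv.col]
      by_cases h : i 0 = (Fin.tail i) 0
      · rw [if_pos h, if_pos h, h]
      · rw [if_neg h, if_neg h, zero_mul]
  | succ p ih =>
    cases k with
    | zero => exact ⟨IsHom_zero v _ _, IsHom_zero v _ _⟩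
    | succ k =>
      refine ⟨idK_hom (ih k).1, ?_⟩
      rw [mgK, idK_tr]
      exact idK_hom (ih k).2

theorem idK_real {a b : ℕ} {S : (Fin b → Fin n) → (Fin a → Fin n) → ℂ}
    (hS : ∀ i y, (starRingEnd ℂ) (S i y) = S i y) (i : Fin (b + 1) → Fin n)
    (y : Fin (a + 1) → Fin n) : (starRingEnd ℂ) (idK S i y) = idK S i y := by
  unfold idK
  split_ifs
  · exact hS _ _
  · simp

theorem smK_real (p k : ℕ) (i : Fin k → Fin n) (y : Fin (k + 1) → Fin n) :
    (starRingEnd ℂ) (smK p k i y) = smK p k i y := by
  induction p generalizing k with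
  | zero => simp only [smK]; split_ifs <;> simp
  | succ p ih =>
    cases k with
    | zero => simp [smK]
    | succ k => exact idK_real (fun i y => ih k i y) i y

theorem mgK_real (p k : ℕ) (i : Fin (k + 1) → Fin n) (y : Fin (k + 2) → Fin n) :
    (starRingEnd ℂ) (mgK p k i y) = mgK p k i y := by
  induction p generalizing k with
  | zero => simp only [mgK]; split_ifs <;> simp
  | succ p ih =>
    cases k with
    | zero => simp [mgK]
    | succ k => exact idK_real (fun i y => ih k i y) i y

theorem LK_sm0 (k : ℕ) (ξ : T n (k + 1)) : LK (smK 0 k) ξ = con uno ξ := by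
  ext i
  rw [LK_apply, con_apply, sum_cons]
  simp only [uno, one_smul]
  rw [WithLp.ofLp_sum, Finset.sum_apply]
  refine Finset.sum_congr rfl fun c _ => ?_
  rw [hd_apply, Finset.sum_eq_single i]
  · simp [smK]
  · intro z _ hz; simp [smK, Ne.symm hz]
  · intro h; exact absurd (Finset.mem_univ _) h

theorem LK_mg0 (k : ℕ) (ξ : T n (k + 2)) : LK (mgK 0 k) ξ = mrg ξ := by
  apply ext_hd; intro c
  ext i
  rw [hd_mrg, hd_apply, hd_apply, hd_apply, LK_apply,
    Finset.sum_eq_single (Fin.cons c (Fin.cons c i))]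
  · simp [mgK]
  · intro z _ hz; simp [mgK, hz]
  · intro h; exact absurd (Finset.mem_univ _) h

/-- All merged tensors vanish. -/
def MgZ : (k : ℕ) → T n (k + 1) → Prop
  | 0, _ => True
  | m + 1, ξ => ∀ p, LK (mgK p m) ξ = 0

theorem W_of_caps (k : ℕ) (ξ : T n (k + 1)) (h1 : ∀ p, LK (smK p k) ξ = 0) (h2 : MgZ k ξ) :
    ξ ∈ W n (k + 1) := by
  induction k with
  | zero =>
    rw [mem_W1, ← LK_sm0]
    exact h1 0
  | succ k ih =>
    rw [mem_W2]
    refine ⟨fun c => ?_, ?_, ?_⟩
    · apply ih
      · intro p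
        have h3 := h1 (p + 1)
        rw [smK] at h3
        rw [← hd_idK, h3, map_zero]
      · cases k with
        | zero => exact trivial
        | succ m =>
          intro p
          have h3 := h2 (p + 1)
          rw [mgK] at h3
          rw [← hd_idK, h3, map_zero]
    · rw [← LK_sm0]; exact h1 0
    · rw [← LK_mg0]; exact h2 0

end

end H46QP
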