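import Pool.Agent.H46.QP.W

/-!
Maps between tensor powers commuting with the colour permutations and with all gradings.
-/

namespace H46QP

open scoped InnerProductSpace

noncomputable section

variable {n : ℕ}

/-- The map commutes with the permutations and with the gradings. -/
structure IsH {a b : ℕ} (A : T n b →ₗ[ℂ] T n a) : Prop where
  per : ∀ (σ : Equiv.Perm (Fin n)) (ξ : T n b), A (per σ ξ) = per σ (A ξ)
  pi : ∀ (e : Gr n) (w : ℤ) (ξ : T n b), A (pi e b w ξ) = pi e a w (A ξ)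

theorem IsH.comp {a b c : ℕ} {A : T n b →ₗ[ℂ] T n a} {B : T n c →ₗ[ℂ] T n b} (hA : IsH A)
    (hB : IsH B) : IsH (A ∘ₗ B) where
  per σ ξ := by rw [LinearMap.comp_apply, hB.per, hA.per, LinearMap.comp_apply]
  pi e w ξ := by rw [LinearMap.comp_apply, hB.pi, hA.pi, LinearMap.comp_apply]

theorem IsH.sub {a b : ℕ} {A B : T n b →ₗ[ℂ] T n a} (hA : IsH A) (hB : IsH B) :
    IsH (A - B) where
  per σ ξ := by rw [LinearMap.sub_apply, LinearMap.sub_apply, hA.per, hB.per, map_sub]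
  pi e w ξ := by rw [LinearMap.sub_apply, LinearMap.sub_apply, hA.pi, hB.pi, map_sub]

theorem IsH.smul {a b : ℕ} {A : T n b →ₗ[ℂ] T n a} (hA : IsH A) (z : ℂ) : IsH (z • A) where
  per σ ξ := by rw [LinearMap.smul_apply, LinearMap.smul_apply, hA.per, map_smul]
  pi e w ξ := by rw [LinearMap.smul_apply, LinearMap.smul_apply, hA.pi, map_smul]

theorem inner_per' {k : ℕ} (σ : Equiv.Perm (Fin n)) (ξ η : T n k) :
    ⟪ξ, per σ η⟫_ℂ = ⟪per σ.symm ξ, η⟫_ℂ := by
  rw [inner_per, Equiv.symm_symm]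

theorem IsH.adj {a b : ℕ} {A : T n b →ₗ[ℂ] T n a} (hA : IsH A) : IsH (LinearMap.adjoint A) where
  per σ ξ := by
    refine ext_inner_left ℂ fun v => ?_
    rw [LinearMap.adjoint_inner_right, inner_per', inner_per', LinearMap.adjoint_inner_right,
      hA.per]
  pi e w ξ := by
    refine ext_inner_left ℂ fun v => ?_
    rw [LinearMap.adjoint_inner_right, ← inner_pi, ← inner_pi, LinearMap.adjoint_inner_right,
      hA.pi]

/-- Orthogonal projection onto W. -/
def PW (n k : ℕ) : T n k →ₗ[ℂ] T n k := ((W n k).starProjection : T n k →L[ℂ] T n k)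

theorem PW_mem {k : ℕ} (ξ : T n k) : PW n k ξ ∈ W n k := Submodule.starProjection_apply_mem _ _

theorem PW_self {k : ℕ} {ξ : T n k} (h : ξ ∈ W n k) : PW n k ξ = ξ :=
  Submodule.starProjection_eq_self_iff.2 h

theorem PW_inner {k : ℕ} (ξ η : T n k) : ⟪PW n k ξ, η⟫_ℂ = ⟪ξ, PW n k η⟫_ℂ :=
  Submodule.inner_starProjection_left_eq_right _ _ _

theorem PW_comm {k : ℕ} (F F' : T n k →ₗ[ℂ] T n k) (hF : ∀ ξ η, ⟪F ξ, η⟫_ℂ = ⟪ξ, F' η⟫_ℂ)
    (h1 : ∀ ξ ∈ W n k, F ξ ∈ W n k) (h2 : ∀ ξ ∈ W n k, F' ξ ∈ W n k) (ξ : T n k) :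
    PW n k (F ξ) = F (PW n k ξ) := by
  refine Submodule.eq_starProjection_of_mem_of_inner_eq_zero (h1 _ (PW_mem _)) fun w hw => ?_
  rw [← map_sub, hF]
  exact Submodule.starProjection_inner_eq_zero _ _ (h2 w hw)

theorem PW_IsH (k : ℕ) : IsH (PW n k) where
  per σ ξ := PW_comm (per σ) (per σ.symm) (inner_per σ) (fun _ h => W_per σ k h)
    (fun _ h => W_per σ.symm k h) ξ
  pi e w ξ := PW_comm (pi e k w) (pi e k w) (inner_pi e k w) (fun _ h => W_pi e k w h)
    (fun _ h => W_pi e k w h) ξ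

theorem PW_adj (k : ℕ) : LinearMap.adjoint (PW n k) = PW n k := by
  ext1 ξ
  refine ext_inner_left ℂ fun v => ?_
  rw [LinearMap.adjoint_inner_right, PW_inner]

/-- The map is supported on W on both sides. -/
structure WW {a b : ℕ} (S : T n b →ₗ[ℂ] T n a) : Prop where
  l : ∀ y, S y ∈ W n a
  r : ∀ z, LinearMap.adjoint S z ∈ W n b

theorem WW.PW {a b : ℕ} {S : T n b →ₗ[ℂ] T n a} (h : WW S) (y : T n b) :
    S (PW n b y) = S y := by
  refine ext_inner_left ℂ fun v => ?_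
  rw [← LinearMap.adjoint_inner_left, ← PW_inner, PW_self (h.r v), LinearMap.adjoint_inner_left]

theorem PW_WW (k : ℕ) : WW (PW n k) := ⟨fun y => PW_mem y, fun z => by rw [PW_adj]; exact PW_mem z⟩

theorem WW.adj {a b : ℕ} {S : T n b →ₗ[ℂ] T n a} (h : WW S) : WW (LinearMap.adjoint S) :=
  ⟨h.r, fun z => by rw [LinearMap.adjoint_adjoint]; exact h.l z⟩

theorem WW.comp {a b c : ℕ} {A : T n b →ₗ[ℂ] T n a} {B : T n c →ₗ[ℂ] T n b} (hA : WW A)
    (hB : WW B) : WW (A ∘ₗ B) :=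
  ⟨fun y => hA.l _, fun z => by rw [LinearMap.adjoint_comp]; exact hB.r _⟩

theorem WW.sub {a b : ℕ} {A B : T n b →ₗ[ℂ] T n a} (hA : WW A) (hB : WW B) : WW (A - B) :=
  ⟨fun y => Submodule.sub_mem _ (hA.l y) (hB.l y), fun z => by
    rw [map_sub]; exact Submodule.sub_mem _ (hA.r z) (hB.r z)⟩

theorem WW.smul {a b : ℕ} {A : T n b →ₗ[ℂ] T n a} (hA : WW A) (z : ℂ) : WW (z • A) :=
  ⟨fun y => Submodule.smul_mem _ _ (hA.l y), fun x => by
    rw [map_smulₛₗ]; exact Submodule.smul_mem _ _ (hA.r x)⟩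

/-- Bending of the first output slot to the input. -/
def bend {a b : ℕ} (S : T n b →ₗ[ℂ] T n (a + 1)) : T n (b + 1) →ₗ[ℂ] T n a :=
  ∑ c, hd c ∘ₗ S ∘ₗ hd c

theorem bend_apply {a b : ℕ} (S : T n b →ₗ[ℂ] T n (a + 1)) (η : T n (b + 1)) :
    bend S η = ∑ c, hd c (S (hd c η)) := by
  simp [bend]

theorem bend_ten {a b : ℕ} (S : T n b →ₗ[ℂ] T n (a + 1)) (y : T n b) (c : Fin n) :
    bend S (ten (dl c) y) = hd c (S y) := by
  rw [bend_apply, Finset.sum_eq_single c]
  · simp [dl]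
  · intro b _ hb
    simp [dl, hb]
  · intro h; exact absurd (Finset.mem_univ _) h

theorem bend_IsH {a b : ℕ} {S : T n b →ₗ[ℂ] T n (a + 1)} (hS : IsH S) : IsH (bend S) where
  per σ ξ := by
    rw [bend_apply, bend_apply, map_sum]
    refine Eq.trans ?_ (Equiv.sum_comp σ (fun c => per σ (hd c (S (hd c ξ)))))
    refine Finset.sum_congr rfl fun c _ => ?_
    rw [hd_per, hS.per, hd_per]
  pi e w ξ := by
    have key : ∀ (v : Fin n → ℂ) (A : T n b →ₗ[ℂ] T n b), ∑ c, hd c (S ((1 / 2 * v c) • A (con v ξ)))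
        = (1 / 2 : ℂ) • con v (S (A (con v ξ))) := by
      intro v A
      rw [con_apply v (S _), Finset.smul_sum]
      refine Finset.sum_congr rfl fun c _ => ?_
      rw [map_smul, map_smul, smul_smul]
    have key2 : ∀ (v : Fin n → ℂ) (A : T n a →ₗ[ℂ] T n a),
        ∑ c, (1 / 2 * v c) • A (con v (S (hd c ξ))) = (1 / 2 : ℂ) • A (con v (S (con v ξ))) := by
      intro v A
      rw [con_apply v ξ, map_sum, map_sum, map_sum, Finset.smul_sum]
      refine Finset.sum_congr rfl fun c _ => ?_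
      rw [map_smul, map_smul, map_smul, smul_smul]
    rw [bend_apply, bend_apply, map_sum]
    have hL : ∀ c, hd c (S (hd c (pi e (b + 1) w ξ))) = hd c (S (pi e b w (hd c ξ)))
        + hd c (S ((1 / 2 * e.fX c) • (pi e b (1 - w) - pi e b w) (con e.fX ξ)))
        + hd c (S ((1 / 2 * e.fY c) • (pi e b (-1 - w) - pi e b w) (con e.fY ξ))) := by
      intro c
      rw [hd_pi]
      simp only [map_add, LinearMap.sub_apply]
    have hR : ∀ c, hd c (S (pi e b w (hd c ξ))) = pi e a w (hd c (S (hd c ξ)))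
        + (1 / 2 * e.fX c) • (pi e a (1 - w) - pi e a w) (con e.fX (S (hd c ξ)))
        + (1 / 2 * e.fY c) • (pi e a (-1 - w) - pi e a w) (con e.fY (S (hd c ξ))) := by
      intro c
      rw [hS.pi, hd_pi]
      simp only [LinearMap.sub_apply]
    simp only [hL, Finset.sum_add_distrib, key]
    simp only [hR, Finset.sum_add_distrib, key2]
    have hX : con e.fX (S ((pi e b (1 - w) - pi e b w) (con e.fX ξ))) =
        - (pi e a (1 - w) - pi e a w) (con e.fX (S (con e.fX ξ))) := by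
      rw [LinearMap.sub_apply, map_sub, map_sub, hS.pi, hS.pi, conX_pi, conX_pi, sub_sub_cancel,
        LinearMap.sub_apply, neg_sub]
    have hY : con e.fY (S ((pi e b (-1 - w) - pi e b w) (con e.fY ξ))) =
        - (pi e a (-1 - w) - pi e a w) (con e.fY (S (con e.fY ξ))) := by
      rw [LinearMap.sub_apply, map_sub, map_sub, hS.pi, hS.pi, conY_pi, conY_pi, sub_sub_cancel,
        LinearMap.sub_apply, neg_sub]
    rw [hX, hY]
    module

/-- Inverse of bending. -/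
def unb {a b : ℕ} (S : T n (b + 1) →ₗ[ℂ] T n a) : T n b →ₗ[ℂ] T n (a + 1) :=
  tnL (fun c => S ∘ₗ ten (dl c))

theorem hd_unb {a b : ℕ} (S : T n (b + 1) →ₗ[ℂ] T n a) (y : T n b) (c : Fin n) :
    hd c (unb S y) = S (ten (dl c) y) := by
  simp [unb]

theorem unb_bend {a b : ℕ} (S : T n b →ₗ[ℂ] T n (a + 1)) : unb (bend S) = S := by
  ext1 y
  apply ext_hd; intro c
  rw [hd_unb, bend_ten]

theorem unb_eq {a b : ℕ} (S : T n (b + 1) →ₗ[ℂ] T n a) :
    unb S = LinearMap.adjoint (bend (LinearMap.adjoint S)) := by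
  ext1 y
  refine ext_inner_right ℂ fun v => ?_
  rw [LinearMap.adjoint_inner_left, bend_apply, inner_sum, inner_hd]
  refine Finset.sum_congr rfl fun c _ => ?_
  rw [hd_unb, ← inner_ten_dl c y (LinearMap.adjoint S (hd c v)), LinearMap.adjoint_inner_right]

theorem unb_IsH {a b : ℕ} {S : T n (b + 1) →ₗ[ℂ] T n a} (hS : IsH S) : IsH (unb S) := by
  rw [unb_eq]
  exact (bend_IsH hS.adj).adj

theorem mrg_IsH (k : ℕ) : IsH (mrg : T n (k + 2) →ₗ[ℂ] T n (k + 1)) where
  per σ ξ := mrg_per σ ξ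
  pi e w ξ := mrg_pi e k w ξ

theorem uno_IsH (k : ℕ) : IsH (con uno : T n (k + 1) →ₗ[ℂ] T n k) where
  per σ ξ := con_per σ uno ξ
  pi e w ξ := con_pi_triv e k w ξ (Triv_uno e)

theorem dup_ten {k : ℕ} (c : Fin n) (y : T n k) :
    LinearMap.adjoint (mrg : T n (k + 2) →ₗ[ℂ] T n (k + 1)) (ten (dl c) y) =
      ten (dl c) (ten (dl c) y) := by
  refine ext_inner_right ℂ fun v => ?_
  rw [LinearMap.adjoint_inner_left, inner_ten_dl, inner_ten_dl, inner_ten_dl, hd_mrg]

/-- The diagonal part of an operator. -/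
def Dg {j : ℕ} (A : T n (j + 1) →ₗ[ℂ] T n (j + 1)) : T n j →ₗ[ℂ] T n (j + 1) :=
  tnL (fun c => hd c ∘ₗ A ∘ₗ ten (dl c))

theorem hd_Dg {j : ℕ} (A : T n (j + 1) →ₗ[ℂ] T n (j + 1)) (y : T n j) (c : Fin n) :
    hd c (Dg A y) = hd c (A (ten (dl c) y)) := by
  simp [Dg]

theorem Dg_IsH {j : ℕ} {A : T n (j + 1) →ₗ[ℂ] T n (j + 1)} (hA : IsH A) : IsH (Dg A) := by
  have h : Dg A = unb (bend A ∘ₗ LinearMap.adjoint (mrg : T n (j + 2) →ₗ[ℂ] T n (j + 1))) := by
    ext1 y
    apply ext_hd; intro c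
    rw [hd_Dg, hd_unb, LinearMap.comp_apply, dup_ten, bend_ten]
  rw [h]
  exact unb_IsH ((bend_IsH hA).comp (mrg_IsH j).adj)

/-- The partial trace of an operator. -/
def PT {j : ℕ} (A : T n (j + 1) →ₗ[ℂ] T n (j + 1)) : T n j →ₗ[ℂ] T n j := con uno ∘ₗ Dg A

theorem PT_apply {j : ℕ} (A : T n (j + 1) →ₗ[ℂ] T n (j + 1)) (y : T n j) :
    PT A y = ∑ c, hd c (A (ten (dl c) y)) := by
  rw [PT, LinearMap.comp_apply, con_apply]
  simp [uno, hd_Dg]

theorem PT_IsH {j : ℕ} {A : T n (j + 1) →ₗ[ℂ] T n (j + 1)} (hA : IsH A) : IsH (PT A) :=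
  (uno_IsH j).comp (Dg_IsH hA)

theorem PT_adj {j : ℕ} (A : T n (j + 1) →ₗ[ℂ] T n (j + 1)) (z : T n j) :
    LinearMap.adjoint (PT A) z = ∑ c, hd c (LinearMap.adjoint A (ten (dl c) z)) := by
  refine ext_inner_right ℂ fun v => ?_
  rw [LinearMap.adjoint_inner_left, PT_apply, inner_sum, sum_inner]
  refine Finset.sum_congr rfl fun c _ => ?_
  rw [← inner_ten_dl, ← inner_ten_dl', LinearMap.adjoint_inner_left]

theorem Dg_adj {j : ℕ} (A : T n (j + 1) →ₗ[ℂ] T n (j + 1)) (z : T n (j + 1)) :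
    LinearMap.adjoint (Dg A) z = ∑ c, hd c (LinearMap.adjoint A (ten (dl c) (hd c z))) := by
  refine ext_inner_right ℂ fun v => ?_
  rw [LinearMap.adjoint_inner_left, inner_hd, sum_inner]
  refine Finset.sum_congr rfl fun c _ => ?_
  rw [hd_Dg, ← inner_ten_dl, ← inner_ten_dl', LinearMap.adjoint_inner_left]

theorem PT_WW {j : ℕ} {A : T n (j + 1) →ₗ[ℂ] T n (j + 1)} (hA : WW A) : WW (PT A) := by
  constructor
  · intro y
    rw [PT_apply]
    exact Submodule.sum_mem _ fun c _ => W_hd (hA.l _) c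
  · intro z
    rw [PT_adj]
    exact Submodule.sum_mem _ fun c _ => W_hd (hA.r _) c

theorem Dg_WW {j : ℕ} {A : T n (j + 1) →ₗ[ℂ] T n (j + 1)} (hA : WW A) (h : PT A = 0) :
    WW (Dg A) := by
  constructor
  · intro y
    have hu : con uno (Dg A y) = 0 := by
      have := LinearMap.congr_fun h y
      exact this
    cases j with
    | zero => exact (mem_W1 _).2 hu
    | succ j =>
      refine (mem_W2 _).2 ⟨fun c => ?_, hu, ?_⟩
      · rw [hd_Dg]; exact W_hd (hA.l _) c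
      · apply ext_hd; intro c
        rw [hd_mrg, hd_Dg, ← hd_mrg, W_mrg (hA.l _)]
  · intro z
    rw [Dg_adj]
    exact Submodule.sum_mem _ fun c _ => W_hd (hA.r _) c

/-- Adjacency condition. -/
def Adj : {b a : ℕ} → (T n b →ₗ[ℂ] T n a) → Prop
  | 0, _, _ => True
  | _ + 1, 0, _ => True
  | _ + 1, _ + 1, S => ∀ c y, hd c (S (ten (dl c) y)) = 0

theorem bend_adj {a b : ℕ} (S : T n b →ₗ[ℂ] T n (a + 1)) (z : T n a) (c : Fin n) :
    hd c (LinearMap.adjoint (bend S) z) = LinearMap.adjoint S (ten (dl c) z) := by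
  refine ext_inner_right ℂ fun v => ?_
  rw [← inner_ten_dl', LinearMap.adjoint_inner_left, LinearMap.adjoint_inner_left, bend_ten,
    inner_ten_dl]

theorem bend_good {a b : ℕ} {S : T n b →ₗ[ℂ] T n (a + 1)} (hS : WW S) (hA : Adj S) :
    WW (bend S) ∧ Adj (bend S) := by
  refine ⟨⟨fun y => ?_, fun z => ?_⟩, ?_⟩
  · rw [bend_apply]
    exact Submodule.sum_mem _ fun c _ => W_hd (hS.l _) c
  · have hh : ∀ c, hd c (LinearMap.adjoint (bend S) z) ∈ W n b := by
      intro c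
      rw [bend_adj]
      exact hS.r _
    have hu : con uno (LinearMap.adjoint (bend S) z) = 0 := by
      refine ext_inner_left ℂ fun v => ?_
      rw [inner_zero_right, ← inner_ten _ uno_real, LinearMap.adjoint_inner_right, bend_apply,
        sum_inner]
      have h1 : ∑ c, ⟪hd c (S (hd c (ten uno v))), z⟫_ℂ = ⟪con uno (S v), z⟫_ℂ := by
        rw [con_apply, sum_inner]
        refine Finset.sum_congr rfl fun c _ => ?_
        simp [uno]
      rw [h1, W_uno (hS.l v), inner_zero_left]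
    cases b with
    | zero => exact (mem_W1 _).2 hu
    | succ b =>
      refine (mem_W2 _).2 ⟨hh, hu, ?_⟩
      apply ext_hd; intro c
      rw [hd_mrg, bend_adj, map_zero]
      refine ext_inner_left ℂ fun v => ?_
      rw [← inner_ten_dl, LinearMap.adjoint_inner_right, inner_ten_dl', hA c v, inner_zero_left,
        inner_zero_right]
  · cases a with
    | zero => exact trivial
    | succ a =>
      intro c y
      rw [bend_ten, ← hd_mrg, W_mrg (hS.l _), map_zero]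

end

end H46QP
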