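import Pool.Agent.H46.QP.Star

/-!
Hopf algebra structure of the quantum permutation algebra.
-/

namespace H46QP

open scoped TensorProduct

noncomputable section

namespace QPerm

variable {n : ℕ}

theorem magic_comul : IsMagic (fun i j : Fin n => ∑ k, u i k ⊗ₜ[ℂ] u k j) := by
  have key : ∀ i j i' j' : Fin n, (∑ k, u i k ⊗ₜ[ℂ] u k j) * (∑ k, u i' k ⊗ₜ[ℂ] u k j') =
      ∑ k, ∑ l, (u i k * u i' l) ⊗ₜ[ℂ] (u k j * u l j') := by
    intro i j i' j'
    rw [Finset.sum_mul_sum]
    simp only [Algebra.TensorProduct.tmul_mul_tmul]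
  refine ⟨fun i j k => ?_, fun i j k => ?_, fun i => ?_, fun j => ?_⟩
  · rw [key]
    have h : ∀ a : Fin n, ∑ l, (u i a * u i l) ⊗ₜ[ℂ] (u a j * u l k) =
        u i a ⊗ₜ[ℂ] (u a j * u a k) := by
      intro a
      rw [Finset.sum_eq_single a]
      · rw [u_row, if_pos rfl]
      · intro b _ hb
        rw [u_row, if_neg (Ne.symm hb), TensorProduct.zero_tmul]
      · intro h; exact absurd (Finset.mem_univ _) h
    rw [Finset.sum_congr rfl (fun a _ => h a)]
    simp only [u_row]
    by_cases hjk : j = k
    · simp [hjk]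
    · simp [hjk]
  · rw [key]
    have h : ∀ a : Fin n, ∑ l, (u i a * u j l) ⊗ₜ[ℂ] (u a k * u l k) =
        (u i a * u j a) ⊗ₜ[ℂ] u a k := by
      intro a
      rw [Finset.sum_eq_single a]
      · rw [u_col a a, if_pos rfl]
      · intro b _ hb
        rw [u_col a b, if_neg (Ne.symm hb), TensorProduct.tmul_zero]
      · intro h; exact absurd (Finset.mem_univ _) h
    rw [Finset.sum_congr rfl (fun a _ => h a)]
    simp only [u_col]
    by_cases hij : i = j
    · simp [hij]
    · simp [hij]
  · rw [Finset.sum_comm]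
    simp only [← TensorProduct.tmul_sum, u_rowSum]
    rw [← TensorProduct.sum_tmul, u_rowSum, Algebra.TensorProduct.one_def]
  · rw [Finset.sum_comm]
    simp only [← TensorProduct.sum_tmul, u_colSum]
    rw [← TensorProduct.tmul_sum, u_colSum, Algebra.TensorProduct.one_def]

theorem magic_counit : IsMagic (fun i j : Fin n => if i = j then (1 : ℂ) else 0) := by
  refine ⟨fun i j k => ?_, fun i j k => ?_, fun i => ?_, fun j => ?_⟩
  · by_cases h1 : i = j <;> by_cases h2 : i = k <;> by_cases h3 : j = k <;> simp_all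
  · by_cases h1 : i = k <;> by_cases h2 : j = k <;> by_cases h3 : i = j <;> simp_all
  · simp
  · simp

theorem magic_antipode : IsMagic (fun i j : Fin n => MulOpposite.op (u j i)) := by
  refine ⟨fun i j k => ?_, fun i j k => ?_, fun i => ?_, fun j => ?_⟩
  · rw [← MulOpposite.op_mul, u_col]
    by_cases h : j = k
    · subst h; rw [if_pos rfl, if_pos rfl]
    · rw [if_neg (Ne.symm h), if_neg h, MulOpposite.op_zero]
  · rw [← MulOpposite.op_mul, u_row]
    by_cases h : i = j
    · subst h; rw [if_pos rfl, if_pos rfl]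
    · rw [if_neg (Ne.symm h), if_neg h, MulOpposite.op_zero]
  · rw [← Finset.op_sum, u_colSum, MulOpposite.op_one]
  · rw [← Finset.op_sum, u_rowSum, MulOpposite.op_one]

/-- The comultiplication. -/
def Del : QPerm n →ₐ[ℂ] QPerm n ⊗[ℂ] QPerm n := lift _ magic_comul

/-- The counit. -/
def Eps : QPerm n →ₐ[ℂ] ℂ := lift _ magic_counit

/-- The antipode as a homomorphism to the opposite algebra. -/
def antiOp : QPerm n →ₐ[ℂ] (QPerm n)ᵐᵒᵖ := lift _ magic_antipode

theorem Del_u (i j : Fin n) : Del (u i j) = ∑ k, u i k ⊗ₜ[ℂ] u k j := by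
  unfold Del; rw [lift_u]

theorem Eps_u (i j : Fin n) : Eps (u i j) = if i = j then (1 : ℂ) else 0 := by
  unfold Eps; rw [lift_u]

/-- The antipode. -/
def Ant : QPerm n →ₗ[ℂ] QPerm n :=
  (MulOpposite.opLinearEquiv ℂ).symm.toLinearMap ∘ₗ (antiOp (n := n)).toLinearMap

theorem Ant_u (i j : Fin n) : Ant (u i j) = u j i := by
  change MulOpposite.unop (antiOp (u i j)) = _
  unfold antiOp; rw [lift_u]; rfl

theorem Ant_mul (x y : QPerm n) : Ant (x * y) = Ant y * Ant x := by
  change MulOpposite.unop (antiOp (x * y)) = _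
  rw [map_mul]; rfl

theorem Ant_algebraMap (z : ℂ) : Ant (algebraMap ℂ (QPerm n) z) = algebraMap ℂ _ z := by
  change MulOpposite.unop (antiOp (algebraMap ℂ (QPerm n) z)) = _
  rw [AlgHom.commutes]; rfl

theorem coassoc_aux :
    (Algebra.TensorProduct.assoc ℂ ℂ ℂ (QPerm n) (QPerm n) (QPerm n)).toAlgHom.comp
      ((Algebra.TensorProduct.map (Del (n := n)) (.id ℂ (QPerm n))).comp (Del (n := n))) =
    (Algebra.TensorProduct.map (.id ℂ (QPerm n)) (Del (n := n))).comp (Del (n := n)) := by
  apply hom_ext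
  intro i j
  simp only [AlgHom.comp_apply, Del_u, map_sum]
  simp only [Algebra.TensorProduct.map_tmul, Del_u, AlgHom.id_apply,
    TensorProduct.sum_tmul, TensorProduct.tmul_sum, map_sum]
  rw [Finset.sum_comm]
  rfl

theorem counitl_aux : (Algebra.TensorProduct.map (Eps (n := n)) (.id ℂ (QPerm n))).comp Del =
    (Algebra.TensorProduct.lid ℂ (QPerm n)).symm := by
  apply hom_ext
  intro i j
  simp only [AlgHom.comp_apply, Del_u, map_sum]
  simp only [Algebra.TensorProduct.map_tmul, Eps_u, AlgHom.id_apply]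
  rw [Finset.sum_eq_single i]
  · simp
  · intro b _ hb
    rw [if_neg (Ne.symm hb), TensorProduct.zero_tmul]
  · intro h; exact absurd (Finset.mem_univ _) h

theorem counitr_aux : (Algebra.TensorProduct.map (.id ℂ (QPerm n)) (Eps (n := n))).comp Del =
    (Algebra.TensorProduct.rid ℂ ℂ (QPerm n)).symm := by
  apply hom_ext
  intro i j
  simp only [AlgHom.comp_apply, Del_u, map_sum]
  simp only [Algebra.TensorProduct.map_tmul, Eps_u, AlgHom.id_apply]
  rw [Finset.sum_eq_single j]
  · simp
  · intro b _ hb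
    rw [if_neg hb, TensorProduct.tmul_zero]
  · intro h; exact absurd (Finset.mem_univ _) h

/-- The comultiplication is a star homomorphism. -/
theorem Del_star (x : QPerm n) : Del (star x) = star (Del x) := by
  induction x using induction with
  | hc z =>
    have h : star (algebraMap ℂ (QPerm n) z) = algebraMap ℂ _ (star z) := st_algebraMap z
    rw [h, AlgHom.commutes, AlgHom.commutes, Algebra.TensorProduct.algebraMap_apply,
      Algebra.TensorProduct.algebraMap_apply, TensorProduct.star_tmul, h, star_one]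
  | hu i j =>
    rw [star_u, Del_u, star_sum]
    refine Finset.sum_congr rfl fun k _ => ?_
    rw [TensorProduct.star_tmul, star_u, star_u]
  | hm a b h1 h2 => rw [star_mul, map_mul, map_mul, star_mul, h1, h2]
  | ha a b h1 h2 => rw [star_add, map_add, map_add, star_add, h1, h2]

/-- A complex subspace I is a Hopf star-ideal: a two-sided ideal stable under the star and the
antipode, on which the counit vanishes, and whose image under the comultiplication lies in the
span of the elementary tensors with a factor in I. -/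
structure IsHopfStarIdeal (I : Submodule ℂ (QPerm n)) : Prop where
  mul_left : ∀ a x, x ∈ I → a * x ∈ I
  mul_right : ∀ a x, x ∈ I → x * a ∈ I
  star_mem : ∀ x, x ∈ I → star x ∈ I
  counit : ∀ x, x ∈ I → Eps x = 0
  antipode : ∀ x, x ∈ I → Ant x ∈ I
  comul : ∀ x, x ∈ I → Del x ∈ Submodule.span ℂ {t | ∃ y z, (y ∈ I ∨ z ∈ I) ∧ t = y ⊗ₜ[ℂ] z}

end QPerm

/-- A unital star-homomorphism from the quantum permutation algebra to N by N matrices is inner
faithful if its kernel contains no nonzero Hopf star-ideal. -/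
def InnerFaithful {n N : ℕ} (π : QPerm n →⋆ₐ[ℂ] Matrix (Fin N) (Fin N) ℂ) : Prop :=
  ∀ I : Submodule ℂ (QPerm n), QPerm.IsHopfStarIdeal I → (∀ x, x ∈ I → π x = 0) → I = ⊥

end

end H46QP
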