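import Pool.Agent.H46.QP.Hopf

/-!
The quantum permutation algebra is a Hopf algebra in the sense of Mathlib.
-/

namespace H46QP

open scoped TensorProduct

noncomputable section

namespace QPerm

variable {n : ℕ}

/-- The comultiplication as a linear map. -/
def DelL : QPerm n →ₗ[ℂ] QPerm n ⊗[ℂ] QPerm n := (Del (n := n)).toLinearMap

/-- The counit as a linear map. -/
def EpsL : QPerm n →ₗ[ℂ] ℂ := (Eps (n := n)).toLinearMap

/-- Left-hand side of coassociativity. -/
def coL : QPerm n →ₗ[ℂ] QPerm n ⊗[ℂ] (QPerm n ⊗[ℂ] QPerm n) :=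
  TensorProduct.assoc ℂ (QPerm n) (QPerm n) (QPerm n) ∘ₗ DelL.rTensor (QPerm n) ∘ₗ DelL

/-- Right-hand side of coassociativity. -/
def coR : QPerm n →ₗ[ℂ] QPerm n ⊗[ℂ] (QPerm n ⊗[ℂ] QPerm n) := DelL.lTensor (QPerm n) ∘ₗ DelL

/-- Left-hand side of the first counit law. -/
def cuL : QPerm n →ₗ[ℂ] ℂ ⊗[ℂ] QPerm n := EpsL.rTensor (QPerm n) ∘ₗ DelL

/-- Left-hand side of the second counit law. -/
def cuR : QPerm n →ₗ[ℂ] QPerm n ⊗[ℂ] ℂ := EpsL.lTensor (QPerm n) ∘ₗ DelL

theorem coassoc_lin : coL (n := n) = coR := congr(($coassoc_aux).toLinearMap)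

theorem counitl_lin : cuL (n := n) = TensorProduct.mk ℂ _ _ 1 := congr(($counitl_aux).toLinearMap)

theorem counitr_lin : cuR (n := n) = (TensorProduct.mk ℂ _ _).flip 1 :=
  congr(($counitr_aux).toLinearMap)

instance : Coalgebra ℂ (QPerm n) where
  comul := DelL
  counit := EpsL
  coassoc := coassoc_lin
  rTensor_counit_comp_comul := counitl_lin
  lTensor_counit_comp_comul := counitr_lin

theorem counit_one' : Coalgebra.counit (R := ℂ) (1 : QPerm n) = 1 := map_one Eps
theorem comul_one' : Coalgebra.comul (R := ℂ) (1 : QPerm n) = 1 := map_one Del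
theorem counit_mul' {a b : QPerm n} : Coalgebra.counit (R := ℂ) (a * b) =
    Coalgebra.counit (R := ℂ) a * Coalgebra.counit (R := ℂ) b := map_mul Eps a b
theorem comul_mul' {a b : QPerm n} : Coalgebra.comul (R := ℂ) (a * b) =
    Coalgebra.comul (R := ℂ) a * Coalgebra.comul (R := ℂ) b := map_mul Del a b

instance : Bialgebra ℂ (QPerm n) :=
  Bialgebra.mk' ℂ (QPerm n) counit_one' counit_mul' comul_one' comul_mul'

theorem comul_eq (x : QPerm n) : Coalgebra.comul (R := ℂ) x = Del x := rfl
theorem counit_eq (x : QPerm n) : Coalgebra.counit (R := ℂ) x = Eps x := rfl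

/-- Two-sided multiplication by an element of the tensor square, twisted on the left. -/
def tw (S : QPerm n →ₗ[ℂ] QPerm n) (T : QPerm n →ₗ[ℂ] QPerm n) :
    QPerm n ⊗[ℂ] QPerm n →ₗ[ℂ] (QPerm n →ₗ[ℂ] QPerm n) :=
  TensorProduct.lift (LinearMap.mk₂ ℂ (fun z w => LinearMap.mulLeftRight ℂ (S z, T w))
    (by intro a b c; ext x; simp [add_mul])
    (by intro a b c; ext x; simp)
    (by intro a b c; ext x; simp [mul_add])
    (by intro a b c; ext x; simp))

theorem tw_tmul (S T : QPerm n →ₗ[ℂ] QPerm n) (z w x : QPerm n) :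
    tw S T (z ⊗ₜ w) x = S z * x * T w := by
  simp [tw]

theorem rT_mul (t r : QPerm n ⊗[ℂ] QPerm n) :
    LinearMap.mul' ℂ (QPerm n) (Ant.rTensor (QPerm n) (t * r)) =
      tw Ant LinearMap.id r (LinearMap.mul' ℂ (QPerm n) (Ant.rTensor (QPerm n) t)) := by
  induction t using TensorProduct.induction_on with
  | zero => simp
  | add a b h1 h2 => rw [add_mul, map_add, map_add, h1, h2, map_add, map_add, map_add]
  | tmul x y =>
    induction r using TensorProduct.induction_on with
    | zero => simp
    | add a b h1 h2 =>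
      rw [mul_add, map_add, map_add, h1, h2, map_add, LinearMap.add_apply]
    | tmul z w =>
      rw [tw_tmul, Algebra.TensorProduct.tmul_mul_tmul]
      simp only [LinearMap.rTensor_tmul, LinearMap.mul'_apply, Ant_mul, LinearMap.id_apply]
      simp only [mul_assoc]

theorem lT_mul (t r : QPerm n ⊗[ℂ] QPerm n) :
    LinearMap.mul' ℂ (QPerm n) (Ant.lTensor (QPerm n) (t * r)) =
      tw LinearMap.id Ant t (LinearMap.mul' ℂ (QPerm n) (Ant.lTensor (QPerm n) r)) := by
  induction t using TensorProduct.induction_on with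
  | zero => simp
  | add a b h1 h2 => rw [add_mul, map_add, map_add, h1, h2, map_add, LinearMap.add_apply]
  | tmul x y =>
    induction r using TensorProduct.induction_on with
    | zero => simp
    | add a b h1 h2 =>
      rw [mul_add, map_add, map_add, h1, h2, map_add, map_add, map_add]
    | tmul z w =>
      rw [tw_tmul, Algebra.TensorProduct.tmul_mul_tmul]
      simp only [LinearMap.lTensor_tmul, LinearMap.mul'_apply, Ant_mul, LinearMap.id_apply]
      simp only [mul_assoc]

theorem tw_smul_one (S T : QPerm n →ₗ[ℂ] QPerm n) (z : ℂ) (t : QPerm n ⊗[ℂ] QPerm n) :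
    tw S T t (algebraMap ℂ _ z) = z • tw S T t 1 := by
  rw [Algebra.algebraMap_eq_smul_one, map_smul]

theorem tw_one_r (t : QPerm n ⊗[ℂ] QPerm n) :
    tw Ant LinearMap.id t 1 = LinearMap.mul' ℂ (QPerm n) (Ant.rTensor (QPerm n) t) := by
  induction t using TensorProduct.induction_on with
  | zero => simp
  | add a b h1 h2 => rw [map_add, LinearMap.add_apply, h1, h2, map_add, map_add]
  | tmul x y => rw [tw_tmul]; simp

theorem tw_one_l (t : QPerm n ⊗[ℂ] QPerm n) :
    tw LinearMap.id Ant t 1 = LinearMap.mul' ℂ (QPerm n) (Ant.lTensor (QPerm n) t) := by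
  induction t using TensorProduct.induction_on with
  | zero => simp
  | add a b h1 h2 => rw [map_add, LinearMap.add_apply, h1, h2, map_add, map_add]
  | tmul x y => rw [tw_tmul]; simp

theorem anti_r (x : QPerm n) : LinearMap.mul' ℂ (QPerm n) (Ant.rTensor (QPerm n) (Del x)) =
    algebraMap ℂ _ (Eps x) := by
  induction x using induction with
  | hc z =>
    rw [AlgHom.commutes, AlgHom.commutes, Algebra.TensorProduct.algebraMap_apply]
    simp only [LinearMap.rTensor_tmul, LinearMap.mul'_apply, Ant_algebraMap, mul_one]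
    simp
  | hu i j =>
    rw [Del_u, Eps_u]
    simp only [map_sum, LinearMap.rTensor_tmul, LinearMap.mul'_apply, Ant_u]
    have h : ∀ k : Fin n, u k i * u k j = if i = j then u k i else 0 := fun k => u_row k i j
    simp only [h]
    by_cases hij : i = j
    · simp [hij, u_colSum]
    · simp [hij]
  | hm a b h1 h2 => rw [map_mul, rT_mul, h1, tw_smul_one, tw_one_r, h2, map_mul, map_mul,
      Algebra.smul_def]
  | ha a b h1 h2 => rw [map_add, map_add, map_add, h1, h2, map_add, map_add]

theorem anti_l (x : QPerm n) : LinearMap.mul' ℂ (QPerm n) (Ant.lTensor (QPerm n) (Del x)) =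
    algebraMap ℂ _ (Eps x) := by
  induction x using induction with
  | hc z =>
    rw [AlgHom.commutes, AlgHom.commutes, Algebra.TensorProduct.algebraMap_apply]
    simp only [LinearMap.lTensor_tmul, LinearMap.mul'_apply]
    have h : Ant (1 : QPerm n) = 1 := by
      have := Ant_algebraMap (n := n) 1
      simpa using this
    rw [h, mul_one]
    simp
  | hu i j =>
    rw [Del_u, Eps_u]
    simp only [map_sum, LinearMap.lTensor_tmul, LinearMap.mul'_apply, Ant_u]
    have h : ∀ k : Fin n, u i k * u j k = if i = j then u i k else 0 := fun k => u_col i j k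
    simp only [h]
    by_cases hij : i = j
    · simp [hij, u_rowSum]
    · simp [hij]
  | hm a b h1 h2 => rw [map_mul, lT_mul, h2, tw_smul_one, tw_one_l, h1, map_mul, map_mul,
      Algebra.smul_def, Algebra.commutes]
  | ha a b h1 h2 => rw [map_add, map_add, map_add, h1, h2, map_add, map_add]

instance : HopfAlgebra ℂ (QPerm n) where
  antipode := Ant
  mul_antipode_rTensor_comul := LinearMap.ext fun x => anti_r x
  mul_antipode_lTensor_comul := LinearMap.ext fun x => anti_l x

/-- The comultiplication on the generators. -/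
theorem comul_u (i j : Fin n) :
    Coalgebra.comul (R := ℂ) (u i j) = ∑ k, u i k ⊗ₜ[ℂ] u k j := Del_u i j

/-- The counit on the generators. -/
theorem counit_u (i j : Fin n) :
    Coalgebra.counit (R := ℂ) (u i j) = if i = j then 1 else 0 := Eps_u i j

/-- The antipode on the generators. -/
theorem antipode_u (i j : Fin n) :
    HopfAlgebraStruct.antipode ℂ (u i j) = u j i := Ant_u i j

end QPerm

end

end H46QP
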