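import Pool.Agent.H46.QP.Hopf
import Pool.Agent.H46.QP.Bicomm

/-!
Coefficients of the tensor powers of the fundamental corepresentation, and intertwiners.
-/

namespace H46QP

open scoped TensorProduct

noncomputable section

/-- Coefficients of the k-th tensor power of the matrix v. -/
def wd {n : ℕ} {C : Type*} [Ring C] (v : Fin n → Fin n → C) :
    (k : ℕ) → (Fin k → Fin n) → (Fin k → Fin n) → C
  | 0, _, _ => 1
  | k + 1, i, j => v (i 0) (j 0) * wd v k (Fin.tail i) (Fin.tail j)

/-- S intertwines the a-th tensor power and the b-th tensor power of v. -/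
def IsHom {n : ℕ} {C : Type*} [Ring C] [Algebra ℂ C] (v : Fin n → Fin n → C) (a b : ℕ)
    (S : (Fin a → Fin n) → (Fin b → Fin n) → ℂ) : Prop :=
  ∀ i j, ∑ z, S z j • wd v a i z = ∑ y, S i y • wd v b y j

theorem wd_hom {n : ℕ} {C D : Type*} [Ring C] [Ring D] (v : Fin n → Fin n → C) (f : C →+* D)
    (k : ℕ) (i j : Fin k → Fin n) : f (wd v k i j) = wd (fun a b => f (v a b)) k i j := by
  induction k with
  | zero => simp [wd]
  | succ k ih => simp only [wd, map_mul, ih]

namespace QPerm

variable {n : ℕ}

theorem Del_wd (k : ℕ) (i j : Fin k → Fin n) :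
    Del (wd u k i j) = ∑ l, wd u k i l ⊗ₜ[ℂ] wd u k l j := by
  induction k with
  | zero => simp [wd, Algebra.TensorProduct.one_def]
  | succ k ih =>
    simp only [wd, map_mul, Del_u, ih]
    rw [Finset.sum_mul_sum, ← (Fin.consEquiv (fun _ : Fin (k + 1) => Fin n)).sum_comp,
      Fintype.sum_prod_type]
    simp [Algebra.TensorProduct.tmul_mul_tmul, Fin.consEquiv]

theorem Eps_wd (k : ℕ) (i j : Fin k → Fin n) :
    Eps (wd u k i j) = if i = j then 1 else 0 := by
  induction k with
  | zero =>
    have : i = j := Subsingleton.elim _ _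
    simp [wd, this]
  | succ k ih =>
    simp only [wd, map_mul, Eps_u, ih]
    by_cases h : i = j
    · subst h; simp
    · rw [if_neg h]
      by_cases h0 : i 0 = j 0
      · have ht : Fin.tail i ≠ Fin.tail j := by
          intro ht
          apply h
          rw [← Fin.cons_self_tail i, ← Fin.cons_self_tail j, h0, ht]
        simp [ht]
      · simp [h0]

/-- The coefficients span the algebra. -/
theorem exists_coef (hpos : 0 < n) (x : QPerm n) : ∃ (k : ℕ) (a : (Fin k → Fin n) → (Fin k → Fin n) → ℂ),
    x = ∑ i, ∑ j, a i j • wd u k i j := by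
  let C : ℕ → Submodule ℂ (QPerm n) := fun k =>
    Submodule.span ℂ (Set.range (fun p : (Fin k → Fin n) × (Fin k → Fin n) => wd u k p.1 p.2))
  have hu : ∀ k (i j : Fin n) (y : QPerm n), y ∈ C k → u i j * y ∈ C (k + 1) := by
    intro k i j y hy
    induction hy using Submodule.span_induction with
    | mem y hy =>
      obtain ⟨p, rfl⟩ := hy
      apply Submodule.subset_span
      refine ⟨(Fin.cons i p.1, Fin.cons j p.2), ?_⟩
      simp [wd]
    | zero => rw [mul_zero]; exact Submodule.zero_mem _
    | add a b _ _ h1 h2 => rw [mul_add]; exact Submodule.add_mem _ h1 h2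
    | smul z a _ h => rw [mul_smul_comm]; exact Submodule.smul_mem _ _ h
  have hmono1 : ∀ k, C k ≤ C (k + 1) := by
    intro k y hy
    have h1 : (1 : QPerm n) * y = ∑ j, u ⟨0, hpos⟩ j * y := by
      rw [← Finset.sum_mul, u_rowSum]
    rw [← one_mul y, h1]
    exact Submodule.sum_mem _ fun j _ => hu k _ j y hy
  have hmono : Monotone C := monotone_nat_of_le_succ fun k => hmono1 k
  have key : ∃ k, x ∈ C k := by
      have hmul : ∀ x : QPerm n, ∀ k, ∀ y ∈ C k, ∃ m, x * y ∈ C m := by
        intro x
        induction x using induction with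
        | hc z =>
          intro k y hy
          refine ⟨k, ?_⟩
          rw [← Algebra.smul_def]
          exact Submodule.smul_mem _ _ hy
        | hu i j => intro k y hy; exact ⟨k + 1, hu k i j y hy⟩
        | hm a b h1 h2 =>
          intro k y hy
          obtain ⟨m, hm⟩ := h2 k y hy
          obtain ⟨m', hm'⟩ := h1 m _ hm
          exact ⟨m', by rw [mul_assoc]; exact hm'⟩
        | ha a b h1 h2 =>
          intro k y hy
          obtain ⟨m, hm⟩ := h1 k y hy
          obtain ⟨m', hm'⟩ := h2 k y hy
          refine ⟨max m m', ?_⟩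
          rw [add_mul]
          exact Submodule.add_mem _ (hmono (le_max_left _ _) hm)
            (hmono (le_max_right _ _) hm')
      have h1 : (1 : QPerm n) ∈ C 0 :=
        Submodule.subset_span ⟨(fun i => i.elim0, fun i => i.elim0), by simp [wd]⟩
      obtain ⟨m, hm⟩ := hmul x 0 1 h1
      rw [mul_one] at hm
      exact ⟨m, hm⟩
  obtain ⟨k, hk⟩ := key
  rw [Submodule.mem_span_range_iff_exists_fun] at hk
  obtain ⟨c, hc⟩ := hk
  refine ⟨k, fun i j => c (i, j), ?_⟩
  rw [← hc, Fintype.sum_prod_type]

end QPerm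

end

end H46QP
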