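import Pool.Agent.H46.QP.Bend

/-!
The two-dimensional representation of the infinite dihedral group and the test magic matrices.
-/

namespace H46QP

open scoped InnerProductSpace

noncomputable section

open QPerm

/-- Two by two complex matrices. -/
abbrev M2 : Type := Matrix (Fin 2) (Fin 2) ℂ

/-- The rotation-dilation matrix of a complex number. -/
def rt (z : ℂ) : M2 := !![(z.re : ℂ), (z.im : ℂ); -(z.im : ℂ), (z.re : ℂ)]

theorem rt_mul (z w : ℂ) : rt z * rt w = rt (z * w) := by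
  unfold rt
  ext i j
  fin_cases i <;> fin_cases j <;>
    simp [Matrix.mul_apply, Fin.sum_univ_two, Complex.mul_re, Complex.mul_im] <;> ring

/-- The reflection. -/
def Gm : M2 := !![1, 0; 0, -1]

theorem Gm_rt (z : ℂ) : Gm * rt z = rt (star z) * Gm := by
  unfold rt Gm
  ext i j
  fin_cases i <;> fin_cases j <;>
    simp [Matrix.mul_apply, Fin.sum_univ_two]

theorem Gm_Gm : Gm * Gm = 1 := by
  unfold Gm
  ext i j
  fin_cases i <;> fin_cases j <;> simp [Matrix.mul_apply, Fin.sum_univ_two]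

/-- The angle. -/
def z0 : ℂ := ⟨3 / 5, 4 / 5⟩

theorem z0_ne : z0 ≠ 0 := by
  intro h
  have := congrArg Complex.re h
  simp [z0] at this

theorem star_z0 : star z0 = z0⁻¹ := by
  apply eq_inv_of_mul_eq_one_left
  apply Complex.ext
  · simp [z0, Complex.mul_re]; norm_num
  · simp [z0, Complex.mul_im]; ring

theorem star_z0_zpow (m : ℤ) : star (z0 ^ m) = z0 ^ (-m) := by
  rw [star_zpow₀, star_z0, inv_zpow, zpow_neg]

/-- The representation of the dihedral group element with label w. -/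
def Rm (w : ℤ) : M2 := rt (z0 ^ (w / 2)) * (if w % 2 = 0 then 1 else Gm)

theorem Rm_zero : Rm 0 = 1 := by
  unfold Rm rt
  ext i j
  fin_cases i <;> fin_cases j <;> simp

theorem Rm_even (m : ℤ) : Rm (2 * m) = rt (z0 ^ m) := by
  unfold Rm
  rw [show 2 * m / 2 = m by omega, if_pos (by omega), mul_one]

theorem Rm_odd (m : ℤ) : Rm (2 * m + 1) = rt (z0 ^ m) * Gm := by
  unfold Rm
  rw [show (2 * m + 1) / 2 = m by omega, if_neg (by omega)]

theorem Gm_Rm (w : ℤ) : Gm * Rm w = Rm (1 - w) := by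
  rcases Int.even_or_odd w with ⟨m, rfl⟩ | ⟨m, rfl⟩
  · rw [← two_mul, Rm_even, show (1 : ℤ) - 2 * m = 2 * (-m) + 1 by ring, Rm_odd, Gm_rt,
      star_z0_zpow]
  · rw [Rm_odd, show (1 : ℤ) - (2 * m + 1) = 2 * (-m) by ring, Rm_even, ← mul_assoc, Gm_rt,
      star_z0_zpow, mul_assoc, Gm_Gm, mul_one]

theorem rt_Rm (w : ℤ) : rt z0 * Rm w = Rm (w + 2) := by
  rcases Int.even_or_odd w with ⟨m, rfl⟩ | ⟨m, rfl⟩
  · rw [← two_mul, Rm_even, show 2 * m + 2 = 2 * (m + 1) by ring, Rm_even, rt_mul,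
      ← zpow_one_add₀ z0_ne, add_comm]
  · rw [Rm_odd, show 2 * m + 1 + 2 = 2 * (m + 1) + 1 by ring, Rm_odd, ← mul_assoc, rt_mul,
      ← zpow_one_add₀ z0_ne, add_comm]

/-- The second reflection. -/
def Km : M2 := Gm * rt z0

theorem Km_Rm (w : ℤ) : Km * Rm w = Rm (-1 - w) := by
  unfold Km
  rw [mul_assoc, rt_Rm, Gm_Rm, show (1 : ℤ) - (w + 2) = -1 - w by ring]

theorem Km_Km : Km * Km = 1 := by
  have h := Km_Rm (-1)
  have h0 : Km = Rm (-1) := by
    have := Km_Rm 0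
    rw [Rm_zero, mul_one] at this
    rw [this]; norm_num
  rw [← h0] at h
  rw [h]; norm_num [Rm_zero]

theorem pow_form (m : ℕ) : ∃ a b : ℤ, ((3 : ℂ) + 4 * Complex.I) ^ (m + 1) =
    ((3 + 5 * a : ℤ) : ℂ) + ((4 + 5 * b : ℤ) : ℂ) * Complex.I := by
  induction m with
  | zero => exact ⟨0, 0, by push_cast; ring⟩
  | succ m ih =>
    obtain ⟨a, b, h⟩ := ih
    refine ⟨-2 + 3 * a - 4 * b, 4 + 4 * a + 3 * b, ?_⟩
    rw [pow_succ, h]
    push_cast
    have hI : Complex.I * Complex.I = -1 := Complex.I_mul_I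
    linear_combination (16 + 20 * (b : ℂ)) * hI

theorem z0_eq : z0 = ((3 : ℂ) + 4 * Complex.I) / 5 := by
  apply Complex.ext
  · simp [z0]
  · simp [z0]

theorem z0_pow_ne (m : ℕ) : z0 ^ (m + 1) ≠ 1 := by
  intro h
  obtain ⟨a, b, hab⟩ := pow_form m
  rw [z0_eq, div_pow, div_eq_one_iff_eq (pow_ne_zero _ (by norm_num))] at h
  rw [h] at hab
  have h1 := congrArg Complex.im hab
  have h2 : ((5 : ℂ) ^ (m + 1)).im = 0 := by
    rw [show (5 : ℂ) ^ (m + 1) = (((5 : ℝ) ^ (m + 1) : ℝ) : ℂ) by push_cast; rfl]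
    exact Complex.ofReal_im _
  rw [h2, Complex.add_im, Complex.mul_im, Complex.intCast_im, Complex.intCast_im,
    Complex.intCast_re, Complex.I_im, Complex.I_re] at h1
  have h3 : ((4 + 5 * b : ℤ) : ℝ) = 0 := by linarith
  have h4 : (4 + 5 * b : ℤ) = 0 := by exact_mod_cast h3
  omega

theorem z0_zpow_ne (m : ℤ) (hm : m ≠ 0) : z0 ^ m ≠ 1 := by
  rcases lt_trichotomy m 0 with h | h | h
  · obtain ⟨k, hk⟩ : ∃ k : ℕ, m = -((k : ℤ) + 1) := ⟨(-m - 1).toNat, by omega⟩
    rw [hk, zpow_neg]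
    intro h1
    apply z0_pow_ne k
    have h2 : z0 ^ ((k : ℤ) + 1) = z0 ^ (k + 1) := by
      rw [← zpow_natCast]; push_cast; rfl
    rw [h2] at h1
    exact inv_eq_one.1 h1
  · exact absurd h hm
  · obtain ⟨k, hk⟩ : ∃ k : ℕ, m = (k : ℤ) + 1 := ⟨(m - 1).toNat, by omega⟩
    rw [hk]
    have h2 : z0 ^ ((k : ℤ) + 1) = z0 ^ (k + 1) := by
      rw [← zpow_natCast]; push_cast; rfl
    rw [h2]
    exact z0_pow_ne k

theorem Rm_ne (w : ℤ) (hw : w ≠ 0) : Rm w ≠ 1 := by
  intro h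
  rcases Int.even_or_odd w with ⟨m, rfl⟩ | ⟨m, rfl⟩
  · rw [← two_mul, Rm_even] at h
    have h1 := congrFun (congrFun h 0) 0
    have h2 := congrFun (congrFun h 0) 1
    simp only [rt, Matrix.of_apply, Matrix.cons_val', Matrix.cons_val_zero,
      Matrix.cons_val_one, Matrix.one_apply_eq] at h1 h2
    apply z0_zpow_ne m (by omega)
    apply Complex.ext
    · exact_mod_cast h1
    · simp at h2
      rw [h2]; simp
  · rw [Rm_odd] at h
    have h1 := congrFun (congrFun h 0) 0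
    have h2 := congrFun (congrFun h 1) 1
    simp [rt, Gm, Matrix.mul_apply, Fin.sum_univ_two] at h1 h2
    have h3 : (z0 ^ m).re = 1 := by exact_mod_cast h1
    rw [h3] at h2
    norm_num at h2

end

end H46QP
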