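import Pool.Agent.H46.QP.Tensor

/-!
Gradings of the tensor powers by the infinite dihedral group, attached to four distinct colours.
-/

namespace H46QP

open scoped InnerProductSpace

noncomputable section

/-- Four distinct colours. -/
structure Gr (n : ℕ) where
  a : Fin n
  b : Fin n
  c : Fin n
  d : Fin n
  ab : a ≠ b
  ac : a ≠ c
  ad : a ≠ d
  bc : b ≠ c
  bd : b ≠ d
  cd : c ≠ d

variable {n : ℕ}

namespace Gr

/-- The first letter. -/
def fX (e : Gr n) : Fin n → ℂ := dl e.a - dl e.b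
/-- The second letter. -/
def fY (e : Gr n) : Fin n → ℂ := dl e.c - dl e.d
/-- The first even letter. -/
def sX (e : Gr n) : Fin n → ℂ := dl e.a + dl e.b
/-- The second even letter. -/
def sY (e : Gr n) : Fin n → ℂ := dl e.c + dl e.d

/-- Exchange of the two letters. -/
def sw (e : Gr n) : Gr n :=
  ⟨e.c, e.d, e.a, e.b, e.cd, e.ac.symm, e.bc.symm, e.ad.symm, e.bd.symm, e.ab⟩

@[simp] theorem sw_sw (e : Gr n) : e.sw.sw = e := rfl
@[simp] theorem fX_sw (e : Gr n) : e.sw.fX = e.fY := rfl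
@[simp] theorem fY_sw (e : Gr n) : e.sw.fY = e.fX := rfl
@[simp] theorem sX_sw (e : Gr n) : e.sw.sX = e.sY := rfl
@[simp] theorem sY_sw (e : Gr n) : e.sw.sY = e.sX := rfl

/-- Renaming of the colours. -/
def map (e : Gr n) (σ : Equiv.Perm (Fin n)) : Gr n :=
  ⟨σ e.a, σ e.b, σ e.c, σ e.d, σ.injective.ne e.ab, σ.injective.ne e.ac, σ.injective.ne e.ad,
    σ.injective.ne e.bc, σ.injective.ne e.bd, σ.injective.ne e.cd⟩

end Gr

theorem pr_dl (v : Fin n → ℂ) (c : Fin n) : pr v (dl c) = v c := by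
  simp [pr, dl]

theorem pr_add (v w x : Fin n → ℂ) : pr v (w + x) = pr v w + pr v x := by
  simp only [pr, Pi.add_apply, mul_add, Finset.sum_add_distrib]

theorem pr_sub (v w x : Fin n → ℂ) : pr v (w - x) = pr v w - pr v x := by
  simp only [pr, Pi.sub_apply, mul_sub, Finset.sum_sub_distrib]

theorem pr_smul (z : ℂ) (v w : Fin n → ℂ) : pr v (z • w) = z * pr v w := by
  simp only [pr, Pi.smul_apply, smul_eq_mul, Finset.mul_sum]
  exact Finset.sum_congr rfl fun c _ => by ring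

theorem pr_fX (v : Fin n → ℂ) (e : Gr n) : pr v e.fX = v e.a - v e.b := by
  rw [Gr.fX, pr_sub, pr_dl, pr_dl]

theorem pr_fY (v : Fin n → ℂ) (e : Gr n) : pr v e.fY = v e.c - v e.d := by
  rw [Gr.fY, pr_sub, pr_dl, pr_dl]

theorem fX_a (e : Gr n) : e.fX e.a = 1 := by simp [Gr.fX, dl, e.ab]
theorem fX_b (e : Gr n) : e.fX e.b = -1 := by simp [Gr.fX, dl, e.ab.symm]
theorem fX_c (e : Gr n) : e.fX e.c = 0 := by simp [Gr.fX, dl, e.ac.symm, e.bc.symm]
theorem fX_d (e : Gr n) : e.fX e.d = 0 := by simp [Gr.fX, dl, e.ad.symm, e.bd.symm]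
theorem fY_c (e : Gr n) : e.fY e.c = 1 := fX_a e.sw
theorem fY_d (e : Gr n) : e.fY e.d = -1 := fX_b e.sw
theorem fY_a (e : Gr n) : e.fY e.a = 0 := fX_c e.sw
theorem fY_b (e : Gr n) : e.fY e.b = 0 := fX_d e.sw
theorem sX_a (e : Gr n) : e.sX e.a = 1 := by simp [Gr.sX, dl, e.ab]
theorem sX_b (e : Gr n) : e.sX e.b = 1 := by simp [Gr.sX, dl, e.ab.symm]
theorem sX_c (e : Gr n) : e.sX e.c = 0 := by simp [Gr.sX, dl, e.ac.symm, e.bc.symm]
theorem sX_d (e : Gr n) : e.sX e.d = 0 := by simp [Gr.sX, dl, e.ad.symm, e.bd.symm]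
theorem sY_c (e : Gr n) : e.sY e.c = 1 := sX_a e.sw
theorem sY_d (e : Gr n) : e.sY e.d = 1 := sX_b e.sw
theorem sY_a (e : Gr n) : e.sY e.a = 0 := sX_c e.sw
theorem sY_b (e : Gr n) : e.sY e.b = 0 := sX_d e.sw

theorem fX_real (e : Gr n) (i : Fin n) : (starRingEnd ℂ) (e.fX i) = e.fX i := by
  rw [Gr.fX, Pi.sub_apply, map_sub, dl_real, dl_real]

theorem fY_real (e : Gr n) (i : Fin n) : (starRingEnd ℂ) (e.fY i) = e.fY i := fX_real e.sw i

theorem fX_of_ne (e : Gr n) {t : Fin n} (h1 : t ≠ e.a) (h2 : t ≠ e.b) : e.fX t = 0 := by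
  simp [Gr.fX, dl, h1, h2]

theorem fY_of_ne (e : Gr n) {t : Fin n} (h1 : t ≠ e.c) (h2 : t ≠ e.d) : e.fY t = 0 :=
  fX_of_ne e.sw h1 h2

theorem fXfY (e : Gr n) (i : Fin n) : e.fX i * e.fY i = 0 := by
  by_cases h1 : i = e.a
  · rw [h1, fY_a, mul_zero]
  · by_cases h2 : i = e.b
    · rw [h2, fY_b, mul_zero]
    · rw [fX_of_ne e h1 h2, zero_mul]

/-- The letters are orthogonal to v. -/
def Triv (e : Gr n) (v : Fin n → ℂ) : Prop := pr v e.fX = 0 ∧ pr v e.fY = 0

theorem Triv_sw {e : Gr n} {v : Fin n → ℂ} (h : Triv e v) : Triv e.sw v := ⟨h.2, h.1⟩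

theorem prXX (e : Gr n) : pr e.fX e.fX = 2 := by
  rw [pr_fX, fX_a, fX_b]; norm_num

theorem prYX (e : Gr n) : pr e.fY e.fX = 0 := by
  rw [pr_fX, fY_a, fY_b]; norm_num

theorem prXY (e : Gr n) : pr e.fX e.fY = 0 := by
  rw [pr_comm, prYX]

theorem prYY (e : Gr n) : pr e.fY e.fY = 2 := prXX e.sw

/-- The projection onto the tensors of label w. -/
def pi (e : Gr n) : (k : ℕ) → ℤ → (T n k →ₗ[ℂ] T n k)
  | 0, w => if w = 0 then LinearMap.id else 0
  | k + 1, w => tnL (fun i => pi e k w ∘ₗ hd i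
      + (1 / 2 * e.fX i) • ((pi e k (1 - w) - pi e k w) ∘ₗ con e.fX)
      + (1 / 2 * e.fY i) • ((pi e k (-1 - w) - pi e k w) ∘ₗ con e.fY))

theorem hd_pi (e : Gr n) (k : ℕ) (w : ℤ) (ξ : T n (k + 1)) (i : Fin n) :
    hd i (pi e (k + 1) w ξ) = pi e k w (hd i ξ)
      + (1 / 2 * e.fX i) • (pi e k (1 - w) (con e.fX ξ) - pi e k w (con e.fX ξ))
      + (1 / 2 * e.fY i) • (pi e k (-1 - w) (con e.fY ξ) - pi e k w (con e.fY ξ)) := by
  rw [pi, hd_tnL]
  rfl

theorem con_pi (e : Gr n) (k : ℕ) (w : ℤ) (ξ : T n (k + 1)) (v : Fin n → ℂ) :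
    con v (pi e (k + 1) w ξ) = pi e k w (con v ξ)
      + (1 / 2 * pr v e.fX) • (pi e k (1 - w) (con e.fX ξ) - pi e k w (con e.fX ξ))
      + (1 / 2 * pr v e.fY) • (pi e k (-1 - w) (con e.fY ξ) - pi e k w (con e.fY ξ)) := by
  rw [con_apply]
  simp only [hd_pi, smul_add, smul_smul, Finset.sum_add_distrib, ← Finset.sum_smul]
  rw [con_apply v ξ, map_sum]
  simp only [map_smul]
  congr 2
  · congr 1
    rw [pr, Finset.mul_sum]
    exact Finset.sum_congr rfl fun c _ => by ring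
  · rw [pr, Finset.mul_sum]
    exact Finset.sum_congr rfl fun c _ => by ring

theorem conX_pi (e : Gr n) (k : ℕ) (w : ℤ) (ξ : T n (k + 1)) :
    con e.fX (pi e (k + 1) w ξ) = pi e k (1 - w) (con e.fX ξ) := by
  rw [con_pi, prXX, prXY]
  norm_num

theorem conY_pi (e : Gr n) (k : ℕ) (w : ℤ) (ξ : T n (k + 1)) :
    con e.fY (pi e (k + 1) w ξ) = pi e k (-1 - w) (con e.fY ξ) := by
  rw [con_pi, prYX, prYY]
  norm_num

theorem con_pi_triv (e : Gr n) (k : ℕ) (w : ℤ) (ξ : T n (k + 1)) {v : Fin n → ℂ}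
    (hv : Triv e v) : con v (pi e (k + 1) w ξ) = pi e k w (con v ξ) := by
  rw [con_pi, hv.1, hv.2]
  norm_num

theorem pi_ten (e : Gr n) (k : ℕ) (w : ℤ) (v : Fin n → ℂ) (y : T n k) :
    pi e (k + 1) w (ten v y) = ten v (pi e k w y)
      + (1 / 2 * pr v e.fX) • ten e.fX (pi e k (1 - w) y - pi e k w y)
      + (1 / 2 * pr v e.fY) • ten e.fY (pi e k (-1 - w) y - pi e k w y) := by
  apply ext_hd; intro i
  rw [hd_pi]
  simp only [map_add, map_smul, map_sub, hd_ten, con_ten]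
  rw [pr_comm e.fX v, pr_comm e.fY v]
  module

theorem pi_tenX (e : Gr n) (k : ℕ) (w : ℤ) (y : T n k) :
    pi e (k + 1) w (ten e.fX y) = ten e.fX (pi e k (1 - w) y) := by
  rw [pi_ten, prXX, prXY, map_sub]
  module

theorem pi_tenY (e : Gr n) (k : ℕ) (w : ℤ) (y : T n k) :
    pi e (k + 1) w (ten e.fY y) = ten e.fY (pi e k (-1 - w) y) := by
  rw [pi_ten, prYX, prYY]
  simp only [map_sub]
  module

theorem pi_ten_triv (e : Gr n) (k : ℕ) (w : ℤ) {v : Fin n → ℂ} (hv : Triv e v) (y : T n k) :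
    pi e (k + 1) w (ten v y) = ten v (pi e k w y) := by
  rw [pi_ten, hv.1, hv.2]
  module

theorem pi_pi (e : Gr n) (k : ℕ) (w w' : ℤ) (ξ : T n k) :
    pi e k w (pi e k w' ξ) = if w = w' then pi e k w ξ else 0 := by
  induction k generalizing w w' with
  | zero =>
    simp only [pi]
    by_cases h1 : w = 0 <;> by_cases h2 : w' = 0
    · simp [h1, h2]
    · simp [h1, h2, Ne.symm h2]
    · simp [h1, h2]
    · simp [h1, h2]
  | succ k ih =>
    apply ext_hd; intro i
    rw [hd_pi, hd_pi, conX_pi, conY_pi]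
    simp only [map_add, map_smul, map_sub, ih]
    by_cases h : w = w'
    · subst h
      simp only [reduceIte]
      rw [hd_pi]
      module
    · have h1 : (1 : ℤ) - w ≠ 1 - w' := fun h' => h (by omega)
      have h2 : (-1 : ℤ) - w ≠ -1 - w' := fun h' => h (by omega)
      rw [if_neg h, if_neg h, if_neg h, if_neg h, if_neg h1, if_neg h2, map_zero]
      module

theorem pi_pi_self (e : Gr n) (k : ℕ) (w : ℤ) (ξ : T n k) :
    pi e k w (pi e k w ξ) = pi e k w ξ := by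
  rw [pi_pi, if_pos rfl]

theorem pi_eq_zero (e : Gr n) (k : ℕ) (w : ℤ) (hw : (k : ℤ) < |w|) (ξ : T n k) :
    pi e k w ξ = 0 := by
  induction k generalizing w with
  | zero =>
    have h : w ≠ 0 := by
      rintro rfl; simp at hw
    simp [pi, h]
  | succ k ih =>
    apply ext_hd; intro i
    push_cast at hw
    rw [hd_pi, ih w (by linarith), ih (1 - w) (by rw [lt_abs] at hw ⊢; omega), ih w (by linarith),
      ih (-1 - w) (by rw [lt_abs] at hw ⊢; omega), ih w (by linarith)]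
    simp

theorem sum_pi (e : Gr n) (k : ℕ) (s : Finset ℤ) (hs : Finset.Icc (-(k : ℤ)) k ⊆ s) (ξ : T n k) :
    ∑ w ∈ s, pi e k w ξ = ξ := by
  induction k generalizing s with
  | zero =>
    rw [Finset.sum_eq_single_of_mem 0]
    · simp [pi]
    · apply hs; simp
    · intro w _ hw
      simp [pi, hw]
  | succ k ih =>
    apply ext_hd; intro i
    rw [map_sum]
    simp only [hd_pi, Finset.sum_add_distrib, ← Finset.smul_sum, Finset.sum_sub_distrib]
    have hs' : Finset.Icc (-(k : ℤ)) k ⊆ s := by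
      intro w hw
      apply hs
      rw [Finset.mem_Icc] at hw ⊢
      push_cast
      omega
    have hX : ∀ η : T n k, ∑ w ∈ s, pi e k (1 - w) η = η := by
      intro η
      have h := ih (s.image (fun w => 1 - w)) (by
        intro w hw
        rw [Finset.mem_image]
        refine ⟨1 - w, hs ?_, by ring⟩
        rw [Finset.mem_Icc] at hw ⊢
        push_cast
        omega) η
      rw [Finset.sum_image (fun x _ y _ hxy => by omega)] at h
      exact h
    have hY : ∀ η : T n k, ∑ w ∈ s, pi e k (-1 - w) η = η := by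
      intro η
      have h := ih (s.image (fun w => -1 - w)) (by
        intro w hw
        rw [Finset.mem_image]
        refine ⟨-1 - w, hs ?_, by ring⟩
        rw [Finset.mem_Icc] at hw ⊢
        push_cast
        omega) η
      rw [Finset.sum_image (fun x _ y _ hxy => by omega)] at h
      exact h
    rw [ih s hs', hX, hY, ih s hs', ih s hs']
    simp

theorem inner_pi (e : Gr n) (k : ℕ) (w : ℤ) (ξ η : T n k) :
    ⟪pi e k w ξ, η⟫_ℂ = ⟪ξ, pi e k w η⟫_ℂ := by
  induction k generalizing w with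
  | zero =>
    by_cases h : w = 0 <;> simp [pi, h]
  | succ k ih =>
    rw [inner_hd, inner_hd]
    have h1 : ∀ (ζ : T n k) (ξ : T n (k + 1)) (v : Fin n → ℂ)
        (_ : ∀ c, (starRingEnd ℂ) (v c) = v c),
        ∑ i, ⟪(1 / 2 * v i) • ζ, hd i ξ⟫_ℂ = 1 / 2 * ⟪ζ, con v ξ⟫_ℂ := by
      intro ζ ξ v hv
      rw [con_apply, inner_sum, Finset.mul_sum]
      refine Finset.sum_congr rfl fun i _ => ?_
      rw [inner_smul_left, inner_smul_right, map_mul, hv]
      have : (starRingEnd ℂ) (1 / 2 : ℂ) = 1 / 2 := by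
        rw [map_div₀, map_one, map_ofNat]
      rw [this]; ring
    have h2 : ∀ (ζ : T n k) (ξ : T n (k + 1)) (v : Fin n → ℂ)
        (_ : ∀ c, (starRingEnd ℂ) (v c) = v c),
        ∑ i, ⟪hd i ξ, (1 / 2 * v i) • ζ⟫_ℂ = 1 / 2 * ⟪con v ξ, ζ⟫_ℂ := by
      intro ζ ξ v hv
      rw [con_apply, sum_inner, Finset.mul_sum]
      refine Finset.sum_congr rfl fun i _ => ?_
      rw [inner_smul_left, inner_smul_right, hv]
      ring
    simp only [hd_pi, inner_add_left, inner_add_right, Finset.sum_add_distrib]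
    rw [h1 _ _ _ (fX_real e), h1 _ _ _ (fY_real e), h2 _ _ _ (fX_real e), h2 _ _ _ (fY_real e)]
    simp only [inner_sub_left, inner_sub_right, ih]

theorem pi_sw (e : Gr n) (k : ℕ) (w : ℤ) (ξ : T n k) : pi e.sw k w ξ = pi e k (-w) ξ := by
  induction k generalizing w with
  | zero =>
    by_cases h : w = 0
    · simp [pi, h]
    · have : -w ≠ 0 := by omega
      simp [pi, h]
  | succ k ih =>
    apply ext_hd; intro i
    rw [hd_pi, hd_pi]
    simp only [ih, Gr.fX_sw, Gr.fY_sw]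
    rw [show -(1 - w) = -1 - -w by ring, show -(-1 - w) = 1 - -w by ring]
    abel

theorem fX_map (e : Gr n) (σ : Equiv.Perm (Fin n)) :
    (e.map σ).fX = fun c => e.fX (σ.symm c) := by
  funext i
  simp only [Gr.fX, Gr.map, dl, Pi.sub_apply, Equiv.symm_apply_eq]

theorem fY_map (e : Gr n) (σ : Equiv.Perm (Fin n)) :
    (e.map σ).fY = fun c => e.fY (σ.symm c) := by
  funext i
  simp only [Gr.fY, Gr.map, dl, Pi.sub_apply, Equiv.symm_apply_eq]

theorem pi_per (e : Gr n) (σ : Equiv.Perm (Fin n)) (k : ℕ) (w : ℤ) (ξ : T n k) :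
    pi e k w (per σ ξ) = per σ (pi (e.map σ) k w ξ) := by
  induction k generalizing w with
  | zero =>
    by_cases h : w = 0 <;> simp [pi, h]
  | succ k ih =>
    apply ext_hd; intro i
    rw [hd_pi, hd_per, hd_per, hd_pi, con_per, con_per, ← fX_map, ← fY_map]
    simp only [ih, map_add, map_smul, map_sub]
    rw [fX_map e σ, fY_map e σ]
    simp only [Equiv.symm_apply_apply]

end

end H46QP
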