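import Pool.Agent.H46.QP.Inner

/-!
Reduction of inner faithfulness to intertwiner spaces.
-/

namespace H46QP

open scoped TensorProduct

noncomputable section

open QPerm

theorem Ant_one {n : ℕ} : Ant (1 : QPerm n) = 1 := by
  have := Ant_algebraMap (n := n) 1
  simpa using this

theorem Ant_wd {n : ℕ} (k : ℕ) (i j : Fin k → Fin n) :
    Ant (wd u k i j) = star (wd u k j i) := by
  induction k with
  | zero => rw [wd, wd, Ant_one, star_one]
  | succ k ih => rw [wd, wd, Ant_mul, star_mul, ih, Ant_u, star_u]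

/-- Convolution of two functionals. -/
def conv {n : ℕ} (f h : QPerm n →ₗ[ℂ] ℂ) : QPerm n →ₗ[ℂ] ℂ :=
  LinearMap.mul' ℂ ℂ ∘ₗ TensorProduct.map f h ∘ₗ (Del (n := n)).toLinearMap

theorem conv_wd {n : ℕ} (f h : QPerm n →ₗ[ℂ] ℂ) (k : ℕ) (i j : Fin k → Fin n) :
    conv f h (wd u k i j) = ∑ l, f (wd u k i l) * h (wd u k l j) := by
  unfold conv
  rw [LinearMap.comp_apply, LinearMap.comp_apply, AlgHom.toLinearMap_apply, Del_wd, map_sum,
    map_sum]
  rfl

theorem conv_vanish {n : ℕ} {I : Submodule ℂ (QPerm n)} (hI : IsHopfStarIdeal I)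
    {f h : QPerm n →ₗ[ℂ] ℂ} (hf : ∀ x, x ∈ I → f x = 0) (hh : ∀ x, x ∈ I → h x = 0)
    (x : QPerm n) (hx : x ∈ I) : conv f h x = 0 := by
  unfold conv
  rw [LinearMap.comp_apply, LinearMap.comp_apply, AlgHom.toLinearMap_apply]
  have h1 := hI.comul x hx
  generalize Del x = t0 at h1
  induction h1 using Submodule.span_induction with
  | mem t ht =>
    obtain ⟨y, z, hyz, rfl⟩ := ht
    rw [TensorProduct.map_tmul, LinearMap.mul'_apply]
    rcases hyz with hy | hz
    · rw [hf y hy, zero_mul]
    · rw [hh z hz, mul_zero]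
  | zero => rw [map_zero, map_zero]
  | add a b _ _ ha hb => rw [map_add, map_add, ha, hb, add_zero]
  | smul c a _ ha => rw [map_smul, map_smul, ha, smul_zero]

/-- The adjoint of a functional. -/
def adj {n : ℕ} (f : QPerm n →ₗ[ℂ] ℂ) : QPerm n →ₗ[ℂ] ℂ where
  toFun y := star (f (star (Ant y)))
  map_add' := by intro y z; simp
  map_smul' := by intro c y; simp

theorem adj_wd {n : ℕ} (f : QPerm n →ₗ[ℂ] ℂ) (k : ℕ) (i j : Fin k → Fin n) :
    adj f (wd u k i j) = star (f (wd u k j i)) := by
  change star (f (star (Ant _))) = _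
  rw [Ant_wd, star_star]

theorem inner_of_hom {n N : ℕ} (hn : 0 < n) (π : QPerm n →⋆ₐ[ℂ] Matrix (Fin N) (Fin N) ℂ)
    (H : ∀ k (S : (Fin k → Fin n) → (Fin k → Fin n) → ℂ),
      IsHom (fun a b => π (u a b)) k k S → IsHom (u (n := n)) k k S) : InnerFaithful π := by
  classical
  intro I hI hker
  rw [Submodule.eq_bot_iff]
  intro x hx
  obtain ⟨k, a, hxa⟩ := exists_coef hn x
  rw [← Module.forall_dual_apply_eq_zero_iff ℂ x]
  intro g
  -- matrices of functionals vanishing on I
  let mat : (QPerm n →ₗ[ℂ] ℂ) → Matrix (Fin k → Fin n) (Fin k → Fin n) ℂ := fun f =>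
    Matrix.of fun i j => f (wd u k i j)
  have hmat : ∀ f i j, mat f i j = f (wd u k i j) := fun f i j => rfl
  let R0 : Subalgebra ℂ (Matrix (Fin k → Fin n) (Fin k → Fin n) ℂ) :=
    { carrier := {M | ∃ f : QPerm n →ₗ[ℂ] ℂ, (∀ x, x ∈ I → f x = 0) ∧ M = mat f}
      mul_mem' := by
        rintro _ _ ⟨f, hf, rfl⟩ ⟨h, hh, rfl⟩
        refine ⟨conv f h, conv_vanish hI hf hh, ?_⟩
        ext i j
        rw [Matrix.mul_apply, hmat, conv_wd]
        simp only [hmat]
      add_mem' := by
        rintro _ _ ⟨f, hf, rfl⟩ ⟨h, hh, rfl⟩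
        exact ⟨f + h, fun x hx => by rw [LinearMap.add_apply, hf x hx, hh x hx, add_zero], rfl⟩
      algebraMap_mem' := by
        intro z
        refine ⟨z • (Eps (n := n)).toLinearMap, fun x hx => ?_, ?_⟩
        · rw [LinearMap.smul_apply, AlgHom.toLinearMap_apply, hI.counit x hx, smul_zero]
        ext i j
        rw [hmat, Matrix.algebraMap_matrix_apply]
        simp only [LinearMap.smul_apply, AlgHom.toLinearMap_apply, Eps_wd]
        by_cases h : i = j
        · simp [h]
        · simp [h] }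
  have hR0star : ∀ M ∈ R0, star M ∈ R0 := by
    rintro _ ⟨f, hf, rfl⟩
    refine ⟨adj f, fun x hx => ?_, ?_⟩
    · change star (f (star (Ant x))) = 0
      rw [hf _ (hI.star_mem _ (hI.antipode x hx)), star_zero]
    ext i j
    change star (f (wd u k j i)) = adj f (wd u k i j)
    rw [adj_wd]
  let E := EuclideanSpace ℂ (Fin k → Fin n)
  let b : OrthonormalBasis (Fin k → Fin n) ℂ E := EuclideanSpace.basisFun _ _
  let Φ : Matrix (Fin k → Fin n) (Fin k → Fin n) ℂ ≃⋆ₐ[ℂ] (E →ₗ[ℂ] E) :=
    (LinearMap.toMatrixOrthonormal b).symm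
  let Φa : Matrix (Fin k → Fin n) (Fin k → Fin n) ℂ →ₐ[ℂ] Module.End ℂ E :=
    { toFun := Φ
      map_one' := map_one Φ
      map_mul' := map_mul Φ
      map_zero' := map_zero Φ
      map_add' := map_add Φ
      commutes' := by
        intro r
        rw [Algebra.algebraMap_eq_smul_one, Algebra.algebraMap_eq_smul_one, map_smul, map_one] }
  let R : Subalgebra ℂ (Module.End ℂ E) := R0.map Φa
  have hRstar : ∀ r ∈ R, LinearMap.adjoint r ∈ R := by
    intro r hr
    obtain ⟨M, hM, rfl⟩ := Subalgebra.mem_map.1 hr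
    refine Subalgebra.mem_map.2 ⟨star M, hR0star M hM, ?_⟩
    exact map_star Φ M
  let G0 : Matrix (Fin k → Fin n) (Fin k → Fin n) ℂ := Matrix.of fun i j => g (wd u k i j)
  have hG0 : ∀ i j, G0 i j = g (wd u k i j) := fun i j => rfl
  have hG : Φa G0 ∈ R := by
    apply bicomm R hRstar
    intro T hT
    obtain ⟨S, rfl⟩ : ∃ S, Φa S = T := ⟨Φ.symm T, Φ.apply_symm_apply T⟩
    have hS : ∀ f : QPerm n →ₗ[ℂ] ℂ, (∀ x, x ∈ I → f x = 0) → S * mat f = mat f * S := by
      intro f hf
      have h := hT (Φa (mat f)) (Subalgebra.mem_map.2 ⟨mat f, ⟨f, hf, rfl⟩, rfl⟩)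
      rw [← map_mul, ← map_mul] at h
      exact Φ.injective h
    have hB : ∀ i j, (∑ z, S z j • wd u k i z) - ∑ y, S i y • wd u k y j ∈ I := by
      intro i j
      by_contra hmem
      obtain ⟨f, hfne, hf⟩ := Submodule.exists_dual_map_eq_bot_of_notMem hmem inferInstance
      have hfI : ∀ x, x ∈ I → f x = 0 := by
        intro x hx
        have h := Submodule.mem_map_of_mem (f := f) hx
        rw [hf] at h
        exact (Submodule.mem_bot ℂ).1 h
      apply hfne
      have h := congrFun (congrFun (hS f hfI) i) j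
      rw [Matrix.mul_apply, Matrix.mul_apply] at h
      simp only [hmat] at h
      rw [map_sub, map_sum, map_sum, sub_eq_zero]
      simp only [map_smul, smul_eq_mul]
      refine Eq.trans ?_ (h.symm.trans ?_)
      · exact Finset.sum_congr rfl fun z _ => mul_comm _ _
      · exact Finset.sum_congr rfl fun z _ => rfl
    have hH : IsHom (u (n := n)) k k S := by
      apply H
      intro i j
      have h := hker _ (hB i j)
      rw [map_sub, map_sum, map_sum, sub_eq_zero] at h
      simp only [map_smul] at h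
      have hw : ∀ i j, π (wd u k i j) = wd (fun a b => π (u a b)) k i j := fun i j =>
        wd_hom (u (n := n)) (π : QPerm n →+* Matrix (Fin N) (Fin N) ℂ) k i j
      simp only [hw] at h
      exact h
    have hSG : S * G0 = G0 * S := by
      ext i j
      have h := congrArg g (hH i j)
      rw [map_sum, map_sum] at h
      simp only [map_smul, smul_eq_mul] at h
      rw [Matrix.mul_apply, Matrix.mul_apply]
      simp only [hG0]
      refine Eq.trans ?_ (h.symm.trans ?_)
      · exact Finset.sum_congr rfl fun z _ => rfl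
      · exact Finset.sum_congr rfl fun z _ => mul_comm _ _
    rw [← map_mul, hSG, map_mul]
  obtain ⟨M, ⟨f, hf, rfl⟩, hM⟩ := Subalgebra.mem_map.1 hG
  have hfg : mat f = G0 := Φ.injective hM
  have hfg' : ∀ i j, f (wd u k i j) = g (wd u k i j) := fun i j => congrFun (congrFun hfg i) j
  have h1 : g x = f x := by
    rw [hxa]
    simp only [map_sum, map_smul, hfg']
  rw [h1, hf x hx]

end

end H46QP
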