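import Pool.Agent.H46.QP.Step1c
import Pool.Agent.H46.QP.HMap

/-!
Main induction: the spaces W carry no invariant vectors and only scalar invariant operators.
-/

namespace H46QP

open scoped InnerProductSpace

noncomputable section

variable {n : ℕ}

/-- Every invariant operator on W is a scalar. -/
def JJ (n j : ℕ) : Prop := ∀ A : T n j →ₗ[ℂ] T n j, IsH A → WW A → ∃ z : ℂ, A = z • PW n j

/-- Every invariant operator from W to the next W is zero. -/
def II (n j : ℕ) : Prop := ∀ B : T n j →ₗ[ℂ] T n (j + 1), IsH B → WW B → B = 0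

/-- Some grading. -/
def e0 (hn : 4 ≤ n) : Gr n :=
  ⟨⟨0, by omega⟩, ⟨1, by omega⟩, ⟨2, by omega⟩, ⟨3, by omega⟩, by simp, by simp, by simp,
    by simp, by simp, by simp⟩

theorem JJ_zero : JJ n 0 := by
  intro A _ _
  refine ⟨(A one0) (fun i => i.elim0), ?_⟩
  ext1 y
  rw [LinearMap.smul_apply, PW_self Submodule.mem_top]
  rw [T0_eq y, map_smul, T0_eq (A one0)]
  simp only [PiLp.smul_apply, smul_eq_mul, smul_smul]
  congr 1
  simp [one0]
  ring

theorem comp_self_zero {a b : ℕ} {B : T n b →ₗ[ℂ] T n a} (h : LinearMap.adjoint B ∘ₗ B = 0) :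
    B = 0 := by
  ext1 y
  have h1 := LinearMap.congr_fun h y
  rw [LinearMap.comp_apply, LinearMap.zero_apply] at h1
  have h2 : ⟪B y, B y⟫_ℂ = 0 := by
    rw [← LinearMap.adjoint_inner_left, h1, inner_zero_left]
  exact inner_self_eq_zero.1 h2

theorem PW_alt (k : ℕ) (e : Gr n) : PW n k (alt k e) = alt k e := PW_self (alt_W k e)

theorem II_of_JJ (hn : 4 ≤ n) {j : ℕ} (hJ : JJ n j) : II n j := by
  intro B hB hW
  have hN : Hyp j (LinearMap.range B) := by
    refine ⟨?_, ?_, ?_⟩
    · rintro _ ⟨y, rfl⟩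
      exact hW.l y
    · rintro e w _ ⟨y, rfl⟩
      exact ⟨pi e j w y, hB.pi e w y⟩
    · rintro e _ ⟨y, rfl⟩
      apply alt_zero_of_pi
      rw [← hB.pi, pi_eq_zero, map_zero]
      rw [lt_abs]; left; push_cast; linarith
  have h1 : B (alt j (e0 hn)) = 0 := by
    have h2 := step1 hn hN (e0 hn) _ (LinearMap.mem_range_self B (alt j (e0 hn)))
    rw [← hB.pi, pi_alt] at h2
    exact h2
  obtain ⟨z, hz⟩ := hJ _ (hB.adj.comp hB) (hW.adj.comp hW)
  have h3 : z • alt j (e0 hn) = 0 := by
    have h4 := LinearMap.congr_fun hz (alt j (e0 hn))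
    rw [LinearMap.comp_apply, h1, map_zero, LinearMap.smul_apply, PW_alt] at h4
    exact h4.symm
  have hz0 : z = 0 := (smul_eq_zero.1 h3).resolve_right (alt_ne j _)
  apply comp_self_zero
  rw [hz, hz0, zero_smul]

theorem Gr_trans (e e' : Gr n) : ∃ σ : Equiv.Perm (Fin n), e'.map σ = e := by
  let f : Gr n → (Fin 4 → Fin n) := fun e => ![e.a, e.b, e.c, e.d]
  have hf : ∀ e, Function.Injective (f e) := by
    intro e i j hij
    have h1 := e.ab
    have h2 := e.ac
    have h3 := e.ad
    have h4 := e.bc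
    have h5 := e.bd
    have h6 := e.cd
    fin_cases i <;> fin_cases j <;> simp [f] at hij ⊢ <;> first
      | exact absurd hij h1 | exact absurd hij.symm h1 | exact absurd hij h2
      | exact absurd hij.symm h2 | exact absurd hij h3 | exact absurd hij.symm h3
      | exact absurd hij h4 | exact absurd hij.symm h4 | exact absurd hij h5
      | exact absurd hij.symm h5 | exact absurd hij h6 | exact absurd hij.symm h6
  have hex : ∃ σ : Equiv.Perm (Fin n), ∀ i, σ (f e' i) = f e i := by
    let g := (Equiv.ofInjective (f e') (hf e')).symm.trans (Equiv.ofInjective (f e) (hf e))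
    refine ⟨g.extendSubtype, fun i => ?_⟩
    rw [Equiv.extendSubtype_apply_of_mem g (f e' i) ⟨i, rfl⟩]
    have h1 : (Equiv.ofInjective (f e') (hf e')).symm ⟨f e' i, ⟨i, rfl⟩⟩ = i :=
      Equiv.ofInjective_symm_apply (hf e') i
    change ((Equiv.ofInjective (f e) (hf e)) ((Equiv.ofInjective (f e') (hf e')).symm
      ⟨f e' i, ⟨i, rfl⟩⟩) : Fin n) = f e i
    rw [h1, Equiv.ofInjective_apply]
  obtain ⟨σ, hσ⟩ := hex
  refine ⟨σ, ?_⟩
  have ha := hσ 0
  have hb := hσ 1
  have hc := hσ 2
  have hd' := hσ 3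
  simp only [f, Matrix.cons_val_zero, Matrix.cons_val_one, Matrix.cons_val] at ha hb hc hd'
  cases e
  simp only [Gr.map] at *
  congr

end

end H46QP
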