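import Pool.Agent.H46.QP.Defs

/-!
Star structure and Hopf algebra structure of the quantum permutation algebra.
-/

namespace H46QP

open scoped TensorProduct

noncomputable section

/-- The opposite ring of the quantum permutation algebra with conjugate complex structure. -/
def Cj (n : ℕ) : Type := (QPerm n)ᵐᵒᵖ

instance (n : ℕ) : Ring (Cj n) := MulOpposite.instRing
instance (n : ℕ) : Algebra ℂ (Cj n) :=
  Algebra.compHom (QPerm n)ᵐᵒᵖ (starRingEnd ℂ)

namespace QPerm

variable {n : ℕ}

/-- The identity map into the opposite ring. -/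
def toCj (x : QPerm n) : Cj n := (MulOpposite.op x : (QPerm n)ᵐᵒᵖ)

theorem toCj_mul (x y : QPerm n) : toCj (x * y) = toCj y * toCj x := rfl
theorem toCj_zero : toCj (0 : QPerm n) = 0 := rfl
theorem toCj_one : toCj (1 : QPerm n) = 1 := rfl
theorem toCj_add (x y : QPerm n) : toCj (x + y) = toCj x + toCj y := rfl

/-- The identity map as an additive homomorphism. -/
def toCjHom : QPerm n →+ Cj n := ⟨⟨toCj, toCj_zero⟩, toCj_add⟩

theorem toCj_sum (f : Fin n → QPerm n) : toCj (∑ i, f i) = ∑ i, toCj (f i) :=
  map_sum (toCjHom (n := n)) f Finset.univ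

theorem magic_toCj : IsMagic (fun i j : Fin n => toCj (u i j)) := by
  refine ⟨fun i j k => ?_, fun i j k => ?_, fun i => ?_, fun j => ?_⟩
  · rw [← toCj_mul, u_row]
    by_cases h : j = k
    · subst h; rw [if_pos rfl, if_pos rfl]
    · rw [if_neg (Ne.symm h), if_neg h, toCj_zero]
  · rw [← toCj_mul, u_col]
    by_cases h : i = j
    · subst h; rw [if_pos rfl, if_pos rfl]
    · rw [if_neg (Ne.symm h), if_neg h, toCj_zero]
  · rw [← toCj_sum, u_rowSum, toCj_one]
  · rw [← toCj_sum, u_colSum, toCj_one]

/-- The conjugate-linear anti-automorphism fixing the generators. -/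
def starHom : QPerm n →ₐ[ℂ] Cj n := lift (fun i j => toCj (u i j)) magic_toCj

/-- The star operation. -/
def st (x : QPerm n) : QPerm n := MulOpposite.unop (starHom x : (QPerm n)ᵐᵒᵖ)

theorem st_u (i j : Fin n) : st (u i j) = u i j := by
  unfold st starHom
  rw [lift_u]
  rfl

theorem st_add (x y : QPerm n) : st (x + y) = st x + st y := by
  unfold st
  rw [map_add]
  rfl

theorem st_mul (x y : QPerm n) : st (x * y) = st y * st x := by
  unfold st
  rw [map_mul]
  rfl

theorem st_algebraMap (z : ℂ) : st (algebraMap ℂ (QPerm n) z) = algebraMap ℂ _ (star z) := by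
  unfold st
  rw [AlgHom.commutes]
  rfl

theorem st_smul (z : ℂ) (x : QPerm n) : st (z • x) = star z • st x := by
  rw [Algebra.smul_def, st_mul, st_algebraMap, Algebra.smul_def, Algebra.commutes]

theorem st_st (x : QPerm n) : st (st x) = x := by
  induction x using induction with
  | hc z => rw [st_algebraMap, st_algebraMap, star_star]
  | hu i j => rw [st_u, st_u]
  | hm a b h1 h2 => rw [st_mul, st_mul, h1, h2]
  | ha a b h1 h2 => rw [st_add, st_add, h1, h2]

instance : StarRing (QPerm n) where
  star := st
  star_involutive := st_st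
  star_mul := st_mul
  star_add := st_add

instance : Star (QPerm n) := StarRing.toStarAddMonoid.toInvolutiveStar.toStar

instance : StarModule ℂ (QPerm n) := ⟨st_smul⟩

@[simp] theorem star_u (i j : Fin n) : star (u i j) = u i j := st_u i j

/-- A star homomorphism from a magic matrix of self-adjoint elements. -/
def liftStar {C : Type*} [Ring C] [StarRing C] [Algebra ℂ C] [StarModule ℂ C]
    (v : Fin n → Fin n → C) (hv : IsMagic v) (hs : ∀ i j, star (v i j) = v i j) :
    QPerm n →⋆ₐ[ℂ] C :=
  { lift v hv with
    map_star' := by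
      intro x
      change lift v hv (star x) = star (lift v hv x)
      induction x using induction with
      | hc z =>
        have h : star (algebraMap ℂ (QPerm n) z) = algebraMap ℂ _ (star z) := st_algebraMap z
        rw [h, AlgHom.commutes, AlgHom.commutes, algebraMap_star_comm]
      | hu i j => rw [star_u, lift_u, hs]
      | hm a b h1 h2 => rw [star_mul, map_mul, map_mul, star_mul, h1, h2]
      | ha a b h1 h2 => rw [star_add, map_add, map_add, star_add, h1, h2] }

@[simp] theorem liftStar_u {C : Type*} [Ring C] [StarRing C] [Algebra ℂ C] [StarModule ℂ C]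
    (v : Fin n → Fin n → C) (hv : IsMagic v) (hs : ∀ i j, star (v i j) = v i j) (i j : Fin n) :
    liftStar v hv hs (u i j) = v i j := lift_u v hv i j

end QPerm

end

end H46QP
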