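import Pool.Agent.H46.QP.Change

/-!
Step 1 for at least five colours: a submodule of W without words of full length has no words of
length one less.
-/

namespace H46QP

open scoped InnerProductSpace

noncomputable section

variable {n : ℕ}

/-- The hypotheses on the submodule. -/
structure Hyp (k : ℕ) (N : Submodule ℂ (T n (k + 1))) : Prop where
  W : N ≤ W n (k + 1)
  pi : ∀ (e : Gr n) (w : ℤ) (x : T n (k + 1)), x ∈ N → pi e (k + 1) w x ∈ N
  alt : ∀ (e : Gr n) (x : T n (k + 1)), x ∈ N → ⟪alt (k + 1) e, x⟫_ℂ = 0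

theorem Triv_sl (q : ℕ) (e : Gr n) : Triv e (sl q e) := by
  rcases Nat.even_or_odd q with h | h
  · rw [(sl_eq q e).1 h]; exact Triv_sX e
  · rw [(sl_eq q e).2 h]; exact Triv_sY e

theorem E_dla {p k : ℕ} {e : Gr n} {x : T n (k + 1)} (h : O k e x) :
    E p k e x (dl e.a) = 1 / 2 * E p k e x e.sX := by
  rw [dla_eq, E_add, E_smul, E_smul, (E_fXY h).1]; ring

theorem E_dlb {p k : ℕ} {e : Gr n} {x : T n (k + 1)} (h : O k e x) :
    E p k e x (dl e.b) = 1 / 2 * E p k e x e.sX := by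
  rw [dlb_eq, E_sub, E_smul, E_smul, (E_fXY h).1]; ring

theorem dlc_eq (e : Gr n) : dl e.c = (1 / 2 : ℂ) • e.fY + (1 / 2 : ℂ) • e.sY := by
  rw [Gr.fY, Gr.sY]; module

theorem dld_eq (e : Gr n) : dl e.d = (1 / 2 : ℂ) • e.sY - (1 / 2 : ℂ) • e.fY := by
  rw [Gr.fY, Gr.sY]; module

theorem E_dlc {p k : ℕ} {e : Gr n} {x : T n (k + 1)} (h : O k e x) :
    E p k e x (dl e.c) = 1 / 2 * E p k e x e.sY := by
  rw [dlc_eq, E_add, E_smul, E_smul, (E_fXY h).2]; ring

theorem E_dld {p k : ℕ} {e : Gr n} {x : T n (k + 1)} (h : O k e x) :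
    E p k e x (dl e.d) = 1 / 2 * E p k e x e.sY := by
  rw [dld_eq, E_sub, E_smul, E_smul, (E_fXY h).2]; ring

theorem E_tX {p k : ℕ} {e : Gr n} {x : T n (k + 1)} (t : Fin n) :
    E p k e x (tX e t) = 1 / 2 * E p k e x e.sX - E p k e x (dl t) := by
  rw [tX, E_sub, E_smul]

theorem E_tY {p k : ℕ} {e : Gr n} {x : T n (k + 1)} (t : Fin n) :
    E p k e x (tY e t) = 1 / 2 * E p k e x e.sY - E p k e x (dl t) := by
  rw [tY, E_sub, E_smul]

theorem Ip {k : ℕ} {N : Submodule ℂ (T n (k + 1))} (hN : Hyp k N) (p : ℕ) (hp : p ≤ k) :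
    ∀ (e : Gr n) (x : T n (k + 1)) (t : Fin n) (_ : Nt e t), x ∈ N → O k e x →
      E p k e x (dl t) = 1 / 2 * E 0 k e x (sl 1 e) - ∑ q ∈ Finset.range p, E q k e x (sl q e) := by
  induction p using Nat.strong_induction_on with
  | _ p ih =>
  intro e x t h hxN hx
  have h0 : E 0 k e x (dl t) = 1 / 2 * E 0 k e x e.sY := by
    have h1 := E_first k e t h x hx (hN.alt _ x hxN)
    rw [E_tY] at h1
    linear_combination -h1
  rcases Nat.eq_zero_or_pos p with hp0 | hp0
  · subst hp0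
    rw [Finset.range_zero, Finset.sum_empty, sub_zero, h0]
    rfl
  obtain ⟨p, rfl⟩ : ∃ p', p = p' + 1 := ⟨p - 1, by omega⟩
  have hpk : p < k := by omega
  -- previous cases
  have I1 : ∀ q, q ≤ p → ∀ (e : Gr n) (x : T n (k + 1)) (t : Fin n) (_ : Nt e t), x ∈ N →
      O k e x → E q k e x (dl t) =
        1 / 2 * E 0 k e x (sl 1 e) - ∑ q ∈ Finset.range q, E q k e x (sl q e) := by
    intro q hq
    exact ih q (by omega) (by omega)
  have I2 : ∀ q, q < p → E q k e x (dl t) - E (q + 1) k e x (dl t) = E q k e x (sl q e) := by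
    intro q hq
    rw [I1 q (by omega) e x t h hxN hx, I1 (q + 1) (by omega) e x t h hxN hx,
      Finset.sum_range_succ]
    ring
  have hm : ∀ q, q ≤ p → E q k e x (sl q e) + E (q + 1) k e x (sl q e) = 0 := fun q hq =>
    E_merge (hN.W hxN) (by omega)
  -- reduction to the changed grading
  have fin : ∀ (e' : Gr n) (z : Fin n) (_ : Nt e' z) (c : ℂ) (_ : c ≠ 0),
      E p k e' x (dl z) = c * (E p k e x (sl p e) + E (p + 1) k e x (dl t)) →
      E 0 k e' x (sl 1 e') = c * E 0 k e x (sl 1 e) →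
      (∀ q, q < p → E q k e' x (sl q e') = c * E q k e x (sl q e)) →
      E (p + 1) k e x (dl t) =
        1 / 2 * E 0 k e x (sl 1 e) - ∑ q ∈ Finset.range (p + 1), E q k e x (sl q e) := by
    intro e' z hz c hc h1 h2 h3
    have hI := I1 p le_rfl e' (pi e' (k + 1) k x) z hz (hN.pi e' k x hxN) (pi_pi_self _ _ _ _)
    rw [E_pi e' x (Triv_dl hz), E_pi e' x (Triv_sl 1 e')] at hI
    have h4 : ∑ q ∈ Finset.range p, E q k e' (pi e' (k + 1) k x) (sl q e') =
        c * ∑ q ∈ Finset.range p, E q k e x (sl q e) := by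
      rw [Finset.mul_sum]
      refine Finset.sum_congr rfl fun q hq => ?_
      rw [E_pi e' x (Triv_sl q e'), h3 q (Finset.mem_range.1 hq)]
    rw [h4, h1, h2] at hI
    rw [Finset.sum_range_succ]
    apply mul_left_cancel₀ hc
    linear_combination hI
  rcases Nat.even_or_odd p with hev | hod
  · have hz : Nt (chX e t h) e.b := ⟨e.ab.symm, h.b.symm, e.bc, e.bd⟩
    refine fin (chX e t h) e.b hz (cXY k).1 (cXY_ne k).1 ?_ ?_ ?_
    · rw [(E_ch_next p k e t h x hx (dl e.b)).1 hev, E_dlb hx, E_tX, (sl_eq p e).1 hev]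
      have h5 := hm p le_rfl
      rw [(sl_eq p e).1 hev] at h5
      have h6 : pr (dl e.b) e.fX = -1 := by rw [pr_comm, pr_dl, fX_b]
      rw [h6]
      linear_combination (-(1 / 2) * (cXY k).1) * h5
    · exact (E_ch_orth 0 k e t h x hx e.sY).1 (Triv_sY e).1
    · intro q hq
      rcases Nat.even_or_odd q with hqe | hqo
      · rw [(sl_eq q (chX e t h)).1 hqe, (sl_eq q e).1 hqe]
        have h7 : (chX e t h).sX = dl e.a + dl t := rfl
        rw [h7, (E_ch_next q k e t h x hx _).1 hqe, E_add, E_dla hx, E_tX]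
        have h8 : pr (dl e.a + dl t) e.fX = 1 := by
          rw [pr_add_l, (Triv_dl h).1, pr_comm, pr_dl, fX_a, add_zero]
        have h5 := hm q (by omega)
        have h9 := I2 q hq
        rw [(sl_eq q e).1 hqe] at h5 h9
        rw [h8]
        linear_combination (cXY k).1 * h9 + (1 / 2 * (cXY k).1) * h5
      · rw [(sl_eq q (chX e t h)).2 hqo, (sl_eq q e).2 hqo]
        exact (E_ch_orth q k e t h x hx e.sY).1 (Triv_sY e).1
  · have hz : Nt (chY e t h) e.d := ⟨e.ad.symm, e.bd.symm, e.cd.symm, h.d.symm⟩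
    refine fin (chY e t h) e.d hz (cXY k).2 (cXY_ne k).2 ?_ ?_ ?_
    · rw [(E_ch_next p k e t h x hx (dl e.d)).2 hod, E_dld hx, E_tY, (sl_eq p e).2 hod]
      have h5 := hm p le_rfl
      rw [(sl_eq p e).2 hod] at h5
      have h6 : pr (dl e.d) e.fY = -1 := by rw [pr_comm, pr_dl, fY_d]
      rw [h6]
      linear_combination (-(1 / 2) * (cXY k).2) * h5
    · have h7 : sl 1 (chY e t h) = dl e.c + dl t := rfl
      have h8 : sl 1 e = e.sY := rfl
      rw [h7, h8, E0_chY h hx, E_add, E_dlc hx, h0]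
      ring
    · intro q hq
      rcases Nat.even_or_odd q with hqe | hqo
      · rw [(sl_eq q (chY e t h)).1 hqe, (sl_eq q e).1 hqe]
        exact (E_ch_orth q k e t h x hx e.sX).2 (Triv_sX e).2
      · rw [(sl_eq q (chY e t h)).2 hqo, (sl_eq q e).2 hqo]
        have h7 : (chY e t h).sY = dl e.c + dl t := rfl
        rw [h7, (E_ch_next q k e t h x hx _).2 hqo, E_add, E_dlc hx, E_tY]
        have h8 : pr (dl e.c + dl t) e.fY = 1 := by
          rw [pr_add_l, (Triv_dl h).2, pr_comm, pr_dl, fY_c, add_zero]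
        have h5 := hm q (by omega)
        have h9 := I2 q hq
        rw [(sl_eq q e).2 hqo] at h5 h9
        rw [h8]
        linear_combination (cXY k).2 * h9 + (1 / 2 * (cXY k).2) * h5

end

end H46QP
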