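import Pool.Agent.H46.QP.Step1

/-!
Conclusion of Step 1 for at least five colours.
-/

namespace H46QP

open scoped InnerProductSpace

noncomputable section

variable {n : ℕ}

theorem E_basis {p k : ℕ} {e : Gr n} {x : T n (k + 1)} (h : ∀ i, E p k e x (dl i) = 0)
    (v : Fin n → ℂ) : E p k e x v = 0 := by
  let L : (Fin n → ℂ) →ₗ[ℂ] ℂ :=
    { toFun := E p k e x
      map_add' := E_add p k e x
      map_smul' := fun z v => by rw [E_smul]; rfl }
  have hv : v = ∑ i, v i • dl i := by
    funext j
    simp [dl]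
  have h1 : L v = 0 := by
    rw [hv, map_sum]
    refine Finset.sum_eq_zero fun i _ => ?_
    rw [map_smul]
    change v i • E p k e x (dl i) = 0
    rw [h, smul_zero]
  exact h1

theorem E_sum_dl {p k : ℕ} {e : Gr n} {x : T n (k + 1)} (h : x ∈ W n (k + 1)) :
    ∑ i, E p k e x (dl i) = 0 := by
  let L : (Fin n → ℂ) →ₗ[ℂ] ℂ :=
    { toFun := E p k e x
      map_add' := E_add p k e x
      map_smul' := fun z v => by rw [E_smul]; rfl }
  have hv : (uno : Fin n → ℂ) = ∑ i, dl i := by
    funext j
    simp [dl, uno]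
  have h1 : L uno = 0 := E_uno h
  rw [hv, map_sum] at h1
  exact h1

/-- The four colours. -/
def sup (e : Gr n) : Finset (Fin n) := {e.a, e.b, e.c, e.d}

theorem sup_sum (e : Gr n) (f : Fin n → ℂ) : ∑ i ∈ sup e, f i = f e.a + f e.b + f e.c + f e.d := by
  unfold sup
  rw [Finset.sum_insert, Finset.sum_insert, Finset.sum_insert, Finset.sum_singleton]
  · ring
  · simpa using e.cd
  · simpa using ⟨e.bc, e.bd⟩
  · simpa using ⟨e.ab, e.ac, e.ad⟩

theorem sup_card (e : Gr n) : (sup e).card = 4 := by
  unfold sup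
  rw [Finset.card_insert_of_notMem, Finset.card_insert_of_notMem, Finset.card_insert_of_notMem,
    Finset.card_singleton]
  · simpa using e.cd
  · simpa using ⟨e.bc, e.bd⟩
  · simpa using ⟨e.ab, e.ac, e.ad⟩

theorem mem_sup (e : Gr n) (t : Fin n) : t ∉ sup e ↔ Nt e t := by
  unfold sup
  simp only [Finset.mem_insert, Finset.mem_singleton, not_or]
  exact ⟨fun h => ⟨h.1, h.2.1, h.2.2.1, h.2.2.2⟩, fun h => ⟨h.a, h.b, h.c, h.d⟩⟩

theorem E_total {p k : ℕ} {e : Gr n} {x : T n (k + 1)} (hn : 4 ≤ n) (hW : x ∈ W n (k + 1))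
    (h : O k e x) (β : ℂ) (hβ : ∀ t, Nt e t → E p k e x (dl t) = β) :
    E p k e x e.sX + E p k e x e.sY + ((n : ℂ) - 4) * β = 0 := by
  have h1 := E_sum_dl (p := p) (e := e) hW
  rw [← Finset.sum_add_sum_compl (sup e), sup_sum, E_dla h, E_dlb h, E_dlc h, E_dld h] at h1
  have h2 : ∑ i ∈ (sup e)ᶜ, E p k e x (dl i) = ((n : ℂ) - 4) * β := by
    rw [Finset.sum_congr rfl (fun i hi => hβ i ((mem_sup e i).1 (Finset.mem_compl.1 hi))),
      Finset.sum_const, Finset.card_compl, sup_card, Fintype.card_fin, nsmul_eq_mul]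
    push_cast [hn]
    ring
  rw [h2] at h1
  linear_combination h1

/-- The solution of the recursion. -/
def bs (n : ℕ) : ℕ → ℝ
  | 0 => 1
  | 1 => n - 1
  | p + 2 => (n - 2) * bs n (p + 1) - bs n p

theorem bs_mono (hn : 4 ≤ n) (p : ℕ) : 1 ≤ bs n p ∧ bs n p ≤ bs n (p + 1) := by
  have hn' : (4 : ℝ) ≤ n := by exact_mod_cast hn
  induction p with
  | zero =>
    constructor
    · rw [bs]
    · rw [bs, bs]; linarith
  | succ p ih =>
    constructor
    · linarith [ih.1, ih.2]
    · rw [bs]
      have h1 : 1 ≤ bs n (p + 1) := by linarith [ih.1, ih.2]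
      nlinarith [ih.2]

theorem step1_five (hn : 5 ≤ n) {k : ℕ} {N : Submodule ℂ (T n (k + 1))} (hN : Hyp k N)
    (e : Gr n) (x : T n (k + 1)) (hxN : x ∈ N) (hx : O k e x) : x = 0 := by
  have hW := hN.W hxN
  obtain ⟨t, ht⟩ : ∃ t, Nt e t := by
    by_contra hcon
    push Not at hcon
    have h1 : sup e = Finset.univ := by
      rw [Finset.eq_univ_iff_forall]
      intro t
      by_contra h
      exact hcon t ((mem_sup e t).1 h)
    have h2 := sup_card e
    rw [h1, Finset.card_univ, Fintype.card_fin] at h2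
    omega
  let β : ℕ → ℂ := fun p => E p k e x (dl t)
  have hI : ∀ p, p ≤ k → ∀ t', Nt e t' → E p k e x (dl t') = β p := by
    intro p hp t' ht'
    rw [Ip hN p hp e x t' ht' hxN hx]
    exact (Ip hN p hp e x t ht hxN hx).symm
  have hs : ∀ p, p < k → E p k e x (sl p e) = β p - β (p + 1) := by
    intro p hp
    have h1 := Ip hN p hp.le e x t ht hxN hx
    have h2 := Ip hN (p + 1) hp e x t ht hxN hx
    rw [Finset.sum_range_succ] at h2
    change _ = E p k e x (dl t) - E (p + 1) k e x (dl t)
    rw [h1, h2]; ring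
  have hs' : ∀ p, p < k → E (p + 1) k e x (sl p e) = β (p + 1) - β p := by
    intro p hp
    have h1 := E_merge (p := p) (e := e) hW hp
    linear_combination h1 - hs p hp
  have h0 : E 0 k e x (sl 1 e) = 2 * β 0 := by
    have h1 := Ip hN 0 (Nat.zero_le _) e x t ht hxN hx
    rw [Finset.range_zero, Finset.sum_empty, sub_zero] at h1
    change _ = 2 * E 0 k e x (dl t)
    rw [h1]; ring
  have hk : E k k e x (sl k e) = 2 * β k := by
    change _ = 2 * E k k e x (dl t)
    rcases Nat.even_or_odd k with h | h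
    · have h1 := (E_last k e t ht x hx).1 h (hN.alt _ x hxN)
      rw [E_tX] at h1
      rw [(sl_eq k e).1 h]
      linear_combination 2 * h1
    · have h1 := (E_last k e t ht x hx).2 h (hN.alt _ x hxN)
      rw [E_tY] at h1
      rw [(sl_eq k e).2 h]
      linear_combination 2 * h1
  have htot : ∀ p, p ≤ k →
      E p k e x (sl p e) + E p k e x (sl (p + 1) e) + ((n : ℂ) - 4) * β p = 0 := by
    intro p hp
    have h1 := E_total (p := p) (by omega) hW hx (β p) (hI p hp)
    rcases Nat.even_or_odd p with h | h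
    · rw [(sl_eq p e).1 h, (sl_eq (p + 1) e).2 h.add_one]
      exact h1
    · rw [(sl_eq p e).2 h, (sl_eq (p + 1) e).1 h.add_one]
      linear_combination h1
  have hper : ∀ p, sl (p + 2) e = sl p e := fun p => by
    change sl p e.sw.sw = _
    rw [Gr.sw_sw]
  -- vanishing of the first coefficient
  have hβ0 : β 0 = 0 := by
    rcases Nat.eq_zero_or_pos k with hk0 | hk0
    · have h1 := htot 0 (Nat.zero_le _)
      have hk2 : ∀ j, j = k → E j k e x (sl j e) = 2 * β j := by
        intro j hj
        rw [hj]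
        exact hk
      have h2 : E 0 k e x (sl 0 e) = 2 * β 0 := hk2 0 hk0.symm
      rw [h2, h0] at h1
      have h3 : (n : ℂ) * β 0 = 0 := by linear_combination h1
      rcases mul_eq_zero.1 h3 with h4 | h4
      · exfalso
        have : n = 0 := by exact_mod_cast h4
        omega
      · exact h4
    · have hrec : ∀ p, p ≤ k → β p = (bs n p : ℂ) * β 0 ∧
          (p + 1 ≤ k → β (p + 1) = (bs n (p + 1) : ℂ) * β 0) := by
        intro p
        induction p with
        | zero =>
          intro _
          refine ⟨by rw [bs]; simp, fun h1 => ?_⟩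
          have h2 := htot 0 (Nat.zero_le _)
          rw [hs 0 (by omega), h0] at h2
          rw [bs]
          push_cast
          linear_combination -h2
        | succ p ih =>
          intro hp
          have h3 := ih (by omega)
          refine ⟨h3.2 hp, fun h1 => ?_⟩
          have h2 := htot (p + 1) hp
          rw [hs (p + 1) (by omega), hper, hs' p (by omega)] at h2
          rw [bs]
          push_cast
          rw [← sub_eq_zero]
          linear_combination -h2 + ((n : ℂ) - 2) * h3.2 hp - h3.1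
      obtain ⟨m, rfl⟩ : ∃ m, k = m + 1 := ⟨k - 1, by omega⟩
      have h3 := hrec m (by omega)
      have h2 := htot (m + 1) le_rfl
      rw [hk, hper, hs' m (by omega), h3.1, h3.2 le_rfl] at h2
      have h4 : (((n : ℝ) - 1) * bs n (m + 1) - bs n m : ℝ) ≠ 0 := by
        have h5 := bs_mono (n := n) (by omega) m
        have h6 := bs_mono (n := n) (by omega) (m + 1)
        have hn' : (5 : ℝ) ≤ n := by exact_mod_cast hn
        nlinarith [h5.1, h5.2, h6.1]
      have h5 : ((((n : ℝ) - 1) * bs n (m + 1) - bs n m : ℝ) : ℂ) * β 0 = 0 := by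
        push_cast
        linear_combination h2
      rcases mul_eq_zero.1 h5 with h6 | h6
      · exfalso
        apply h4
        exact_mod_cast h6
      · exact h6
  have hβ : ∀ p, p ≤ k → β p = 0 := by
    intro p
    induction p using Nat.strong_induction_on with
    | _ p ih =>
    intro hp
    rcases Nat.eq_zero_or_pos p with h | h
    · rw [h]; exact hβ0
    obtain ⟨p, rfl⟩ : ∃ p', p = p' + 1 := ⟨p - 1, by omega⟩
    have h2 := htot p (by omega)
    rcases Nat.eq_zero_or_pos p with h' | h'
    · subst h'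
      rw [hs 0 (by omega), h0, hβ0] at h2
      linear_combination -h2
    obtain ⟨p, rfl⟩ : ∃ p', p = p' + 1 := ⟨p - 1, by omega⟩
    rw [hs (p + 1) (by omega), hper, hs' p (by omega), ih p (by omega) (by omega),
      ih (p + 1) (by omega) (by omega)] at h2
    linear_combination -h2
  apply eq_zero_of_E hx
  intro p hp
  have hA : E p k e x (sl p e) = 0 := by
    rcases Nat.lt_or_ge p k with h | h
    · rw [hs p h, hβ p hp, hβ (p + 1) h, sub_zero]
    · have : p = k := by omega
      subst this
      rw [hk, hβ p hp, mul_zero]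
  have hB : E p k e x (sl (p + 1) e) = 0 := by
    have h1 := htot p hp
    rw [hA, hβ p hp] at h1
    linear_combination h1
  have hXY : E p k e x e.sX = 0 ∧ E p k e x e.sY = 0 := by
    rcases Nat.even_or_odd p with h | h
    · rw [(sl_eq p e).1 h] at hA
      rw [(sl_eq (p + 1) e).2 h.add_one] at hB
      exact ⟨hA, hB⟩
    · rw [(sl_eq p e).2 h] at hA
      rw [(sl_eq (p + 1) e).1 h.add_one] at hB
      exact ⟨hB, hA⟩
  apply E_basis
  intro i
  by_cases h : i ∈ sup e
  · unfold sup at h
    simp only [Finset.mem_insert, Finset.mem_singleton] at h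
    rcases h with rfl | rfl | rfl | rfl
    · rw [E_dla hx, hXY.1, mul_zero]
    · rw [E_dlb hx, hXY.1, mul_zero]
    · rw [E_dlc hx, hXY.2, mul_zero]
    · rw [E_dld hx, hXY.2, mul_zero]
  · rw [hI p hp i ((mem_sup e i).1 h), hβ p hp]

end

end H46QP
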