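import Pool.Agent.H46.QP.Step1b

/-!
Step 1 for four colours, and the general statement.
-/

namespace H46QP

open scoped InnerProductSpace

noncomputable section

variable {n : ℕ}

/-- Flip of both pairs. -/
def rr (e : Gr n) : Gr n :=
  ⟨e.b, e.a, e.d, e.c, e.ab.symm, e.bd, e.bc, e.ad, e.ac, e.cd.symm⟩

/-- The crossed grading. -/
def qq (e : Gr n) : Gr n :=
  ⟨e.a, e.c, e.b, e.d, e.ac, e.ab, e.ad, e.bc.symm, e.cd, e.bd⟩

theorem qq_sw (e : Gr n) : (qq e).sw = qq (rr e) := rfl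
theorem rr_sw (e : Gr n) : (rr e).sw = rr e.sw := rfl
theorem rr_rr (e : Gr n) : rr (rr e) = e := rfl
theorem rr_qq_rr (e : Gr n) : rr (qq (rr e)) = qq (rr e.sw) := rfl

theorem fX_rr (e : Gr n) : (rr e).fX = (-1 : ℂ) • e.fX := by
  change dl e.b - dl e.a = _
  rw [Gr.fX]; module

theorem fY_rr (e : Gr n) : (rr e).fY = (-1 : ℂ) • e.fY := by
  change dl e.d - dl e.c = _
  rw [Gr.fY]; module

theorem sX_rr (e : Gr n) : (rr e).sX = e.sX := by
  change dl e.b + dl e.a = _
  rw [Gr.sX]; module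

theorem sY_rr (e : Gr n) : (rr e).sY = e.sY := by
  change dl e.d + dl e.c = _
  rw [Gr.sY]; module

theorem alt_rr (k : ℕ) (e : Gr n) : alt k (rr e) = ((-1 : ℂ) ^ k) • alt k e := by
  induction k generalizing e with
  | zero => rw [pow_zero, one_smul]; rfl
  | succ k ih =>
    rw [alt_succ, rr_sw, ih, fX_rr, ten_smul, map_smul, alt_succ, smul_smul, pow_succ, mul_comm]

theorem pi_rr (e : Gr n) (k : ℕ) (w : ℤ) (ξ : T n k) : pi (rr e) k w ξ = pi e k w ξ := by
  induction k generalizing w with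
  | zero => rfl
  | succ k ih =>
    apply ext_hd; intro i
    rw [hd_pi, hd_pi, fX_rr, fY_rr, con_smul, con_smul]
    simp only [ih, map_smul, Pi.smul_apply, smul_eq_mul]
    module

theorem O_rr {k : ℕ} {e : Gr n} {x : T n (k + 1)} (h : O k e x) : O k (rr e) x := by
  unfold O at h ⊢
  rw [pi_rr, h]

theorem Tp_rr {k : ℕ} {e : Gr n} {x : T n k} (h : Tp k e x) : Tp k (rr e) x := by
  unfold Tp at h ⊢
  rw [pi_rr, h]

theorem E_rr (q k : ℕ) (e : Gr n) (x : T n (k + 1)) (v : Fin n → ℂ) :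
    E q k (rr e) x v = (-1) ^ k * E q k e x v := by
  induction q generalizing k e with
  | zero =>
    rw [E_zero, E_zero, alt_rr, inner_smul_left]
    simp
  | succ q ih =>
    cases k with
    | zero => rw [E_succ_zero, E_succ_zero]; ring
    | succ k =>
      rw [E_succ, E_succ, rr_sw, ih, fX_rr, con_smul, E_smulx]
      ring

theorem qX_eq (e : Gr n) : (qq e).fX =
    (1 / 2 : ℂ) • (e.sX - e.sY) + (1 / 2 : ℂ) • e.fX - (1 / 2 : ℂ) • e.fY := by
  change dl e.a - dl e.c = _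
  rw [dla_eq, dlc_eq]; module

theorem pr_qX (e : Gr n) : pr (qq e).fX e.fX = 1 := by
  rw [qX_eq, pr_sub_l, pr_add_l, pr_smul_l, pr_smul_l, pr_smul_l, prXX, prYX, pr_sub_l,
    (Triv_sX e).1, (Triv_sY e).1]
  ring

theorem top_qq (k : ℕ) (e : Gr n) (y : T n k) (hy : Tp k e y) :
    ⟪alt k (qq e), y⟫_ℂ = (1 / 2) ^ k * ⟪alt k e, y⟫_ℂ := by
  induction k generalizing e with
  | zero => simp [alt]
  | succ k ih =>
    have h1 := ih (rr e.sw) (con e.fX y) (Tp_rr (Tp_conX hy))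
    rw [alt_rr, inner_smul_left] at h1
    have h2 : alt k (qq (rr e.sw)) = ((-1 : ℂ) ^ k) • alt k (qq (rr e)) := by
      rw [← rr_qq_rr, alt_rr]
    rw [h2, inner_smul_left] at h1
    have h3 : (starRingEnd ℂ) ((-1 : ℂ) ^ k) ≠ 0 := by simp
    have h4 : ⟪alt k (qq (rr e)), con e.fX y⟫_ℂ = (1 / 2) ^ k * ⟪alt k e.sw, con e.fX y⟫_ℂ := by
      apply mul_left_cancel₀ h3
      linear_combination h1
    rw [alt_succ, inner_ten _ (fX_real _), con_Tp hy, inner_smul_right, qq_sw, h4, pr_qX,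
      alt_succ k e, inner_ten _ (fX_real _), pow_succ]
    ring

theorem Triv_sub (e : Gr n) : Triv e (e.sX - e.sY) := by
  constructor
  · rw [pr_sub_l, (Triv_sX e).1, (Triv_sY e).1, sub_zero]
  · rw [pr_sub_l, (Triv_sX e).2, (Triv_sY e).2, sub_zero]

theorem alt_qq (k : ℕ) (e : Gr n) (x : T n (k + 1)) (hx : O k e x)
    (h1 : ∀ q ≤ k, E q k e x e.sY = - E q k e x e.sX)
    (h2 : ∀ q < k, E (q + 1) k e x e.sX = - E q k e x e.sX) :
    ⟪alt (k + 1) (qq e), x⟫_ℂ = (-1 / 2) ^ k * (k + 1) * E 0 k e x e.sX := by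
  induction k generalizing e with
  | zero =>
    rw [alt_succ, inner_ten _ (fX_real _)]
    change E 0 0 e x (qq e).fX = _
    rw [qX_eq, E_sub, E_add, E_smul, E_smul, E_smul, E_sub, h1 0 le_rfl, (E_fXY hx).1,
      (E_fXY hx).2]
    push_cast
    ring
  | succ k ih =>
    have hx' : O k (rr e.sw) (con e.fX x) := O_rr (O_conX hx)
    have h3 := ih (rr e.sw) (con e.fX x) hx' (by
      intro q hq
      rw [E_rr, E_rr, ← E_succ, ← E_succ, sX_rr, sY_rr, Gr.sX_sw, Gr.sY_sw,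
        h1 (q + 1) (by omega)]
      ring) (by
      intro q hq
      rw [E_rr, E_rr, ← E_succ, ← E_succ, sX_rr, Gr.sX_sw,
        h1 (q + 1) (by omega), h1 (q + 2) (by omega), h2 (q + 1) (by omega)]
      ring)
    rw [E_rr, ← E_succ, sX_rr, Gr.sX_sw, h1 1 (by omega), h2 0 (by omega)] at h3
    have h4 : alt (k + 1) (qq (rr e.sw)) = ((-1 : ℂ) ^ (k + 1)) • alt (k + 1) (qq (rr e)) := by
      rw [← rr_qq_rr, alt_rr]
    rw [h4, inner_smul_left] at h3
    have h5 : (starRingEnd ℂ) ((-1 : ℂ) ^ (k + 1)) = (-1) ^ (k + 1) := by simp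
    rw [h5] at h3
    have hT : Tp (k + 1) e (con (e.sX - e.sY) x) := O_triv hx (Triv_sub e)
    have h6 := top_qq (k + 1) (rr e) _ (Tp_rr hT)
    rw [alt_rr, inner_smul_left, h5, ← E_zero (k + 1) e, E_sub, h1 0 (by omega)] at h6
    rw [alt_succ, inner_ten _ (fX_real _), qX_eq, con_sub, con_add, con_smul, con_smul, con_smul,
      O_conY hx, smul_zero, sub_zero, inner_add_right, inner_smul_right, inner_smul_right, qq_sw,
      h6]
    have h7 : ((-1 : ℂ) ^ (k + 1)) * (-1) ^ (k + 1) = 1 := by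
      rw [← mul_pow]; norm_num
    have h8 : ⟪alt (k + 1) (qq (rr e)), con e.fX x⟫_ℂ =
        (-1) ^ (k + 1) * ((-1 / 2) ^ k * (k + 1) * ((-1) ^ k * - - E 0 (k + 1) e x e.sX)) := by
      rw [← h3, ← mul_assoc, h7, one_mul]
    rw [h8]
    have h9 : ((-1 : ℂ) ^ (k + 1)) * (-1) ^ k = -1 := by
      rw [pow_succ]
      have : ((-1 : ℂ) ^ k) * (-1) ^ k = 1 := by rw [← mul_pow]; norm_num
      linear_combination -this
    have h10 : ((1 / 2 : ℂ)) ^ (k + 1) * (-1) ^ (k + 1) = (-1 / 2) ^ (k + 1) := by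
      rw [← mul_pow]; norm_num
    have h11 : ((-1 / 2 : ℂ)) ^ (k + 1) = (-1 / 2) ^ k * (-1 / 2) := pow_succ _ _
    push_cast
    rw [neg_neg]
    linear_combination (1 / 2 * ((-1 / 2) ^ k * (k + 1) * E 0 (k + 1) e x e.sX)) * h9 +
      (E 0 (k + 1) e x e.sX) * h10 + (- (k + 1) * E 0 (k + 1) e x e.sX) * h11

theorem step1_four (hn : n = 4) {k : ℕ} {N : Submodule ℂ (T n (k + 1))} (hN : Hyp k N)
    (e : Gr n) (x : T n (k + 1)) (hxN : x ∈ N) (hx : O k e x) : x = 0 := by
  have hW := hN.W hxN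
  have hno : ∀ i, i ∈ sup e := by
    intro i
    have h1 : sup e = Finset.univ := by
      apply Finset.eq_univ_of_card
      rw [sup_card, Fintype.card_fin, hn]
    rw [h1]; exact Finset.mem_univ i
  have h1 : ∀ q ≤ k, E q k e x e.sY = - E q k e x e.sX := by
    intro q _
    have h2 := E_total (p := q) (by omega) hW hx 0 (fun t ht => absurd (hno t) ((mem_sup e t).2 ht))
    linear_combination h2
  have h2 : ∀ q < k, E (q + 1) k e x e.sX = - E q k e x e.sX := by
    intro q hq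
    have h3 := E_merge (p := q) (e := e) hW hq
    rcases Nat.even_or_odd q with h | h
    · rw [(sl_eq q e).1 h] at h3
      linear_combination h3
    · rw [(sl_eq q e).2 h, h1 q hq.le, h1 (q + 1) hq] at h3
      linear_combination -h3
  have h3 := alt_qq k e x hx h1 h2
  rw [hN.alt _ x hxN] at h3
  have h4 : E 0 k e x e.sX = 0 := by
    have h5 : ((-1 / 2 : ℂ)) ^ k * (k + 1) ≠ 0 := by
      apply mul_ne_zero
      · apply pow_ne_zero; norm_num
      · exact_mod_cast Nat.succ_ne_zero k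
    exact (mul_eq_zero.1 h3.symm).resolve_left h5
  have h5 : ∀ q, q ≤ k → E q k e x e.sX = 0 := by
    intro q
    induction q with
    | zero => intro _; exact h4
    | succ q ih =>
      intro hq
      rw [h2 q (by omega), ih (by omega), neg_zero]
  apply eq_zero_of_E hx
  intro p hp
  apply E_basis
  intro i
  have h := hno i
  unfold sup at h
  simp only [Finset.mem_insert, Finset.mem_singleton] at h
  rcases h with rfl | rfl | rfl | rfl
  · rw [E_dla hx, h5 p hp, mul_zero]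
  · rw [E_dlb hx, h5 p hp, mul_zero]
  · rw [E_dlc hx, h1 p hp, h5 p hp]; ring
  · rw [E_dld hx, h1 p hp, h5 p hp]; ring

/-- Step 1. -/
theorem step1 (hn : 4 ≤ n) {k : ℕ} {N : Submodule ℂ (T n (k + 1))} (hN : Hyp k N)
    (e : Gr n) (x : T n (k + 1)) (hxN : x ∈ N) : pi e (k + 1) k x = 0 := by
  have h1 : O k e (pi e (k + 1) k x) := pi_pi_self _ _ _ _
  rcases Nat.lt_or_ge 4 n with h | h
  · exact step1_five h hN e _ (hN.pi e k x hxN) h1
  · exact step1_four (by omega) hN e _ (hN.pi e k x hxN) h1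

end

end H46QP
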