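import Mathlib

/-!
Tensor powers of complex n-space as Euclidean spaces of functions on words; heads, contractions,
insertions, permutation of the colours.
-/

namespace H46QP

open scoped InnerProductSpace

noncomputable section

/-- The k-th tensor power. -/
abbrev T (n k : ℕ) : Type := EuclideanSpace ℂ (Fin k → Fin n)

variable {n : ℕ}

/-- The head of a tensor at the colour c. -/
def hd {k : ℕ} (c : Fin n) : T n (k + 1) →ₗ[ℂ] T n k where
  toFun ξ := WithLp.toLp 2 (fun j => ξ (Fin.cons c j))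
  map_add' _ _ := rfl
  map_smul' _ _ := rfl

theorem hd_apply {k : ℕ} (c : Fin n) (ξ : T n (k + 1)) (j : Fin k → Fin n) :
    hd c ξ j = ξ (Fin.cons c j) := rfl

theorem ext_hd {k : ℕ} {ξ η : T n (k + 1)} (h : ∀ c, hd c ξ = hd c η) : ξ = η := by
  ext j
  have h1 := congrArg (fun ζ : T n k => ζ (Fin.tail j)) (h (j 0))
  simp only [hd_apply, Fin.cons_self_tail] at h1
  exact h1

/-- The tensor with prescribed heads. -/
def tn {k : ℕ} (f : Fin n → T n k) : T n (k + 1) :=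
  WithLp.toLp 2 (fun j => f (j 0) (Fin.tail j))

@[simp] theorem hd_tn {k : ℕ} (f : Fin n → T n k) (c : Fin n) : hd c (tn f) = f c := by
  ext j
  rw [hd_apply]
  change f ((Fin.cons c j : Fin (k + 1) → Fin n) 0) (Fin.tail (Fin.cons c j : Fin (k + 1) → Fin n))
    = _
  rw [Fin.cons_zero, Fin.tail_cons]

/-- The tensor with prescribed heads, for linear maps. -/
def tnL {M : Type*} [AddCommGroup M] [Module ℂ M] {k : ℕ} (f : Fin n → (M →ₗ[ℂ] T n k)) :
    M →ₗ[ℂ] T n (k + 1) where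
  toFun x := tn (fun c => f c x)
  map_add' x y := by
    apply ext_hd; intro c
    rw [map_add, hd_tn, hd_tn, hd_tn, map_add]
  map_smul' z x := by
    apply ext_hd; intro c
    rw [RingHom.id_apply, map_smul, hd_tn, hd_tn, map_smul]

@[simp] theorem hd_tnL {M : Type*} [AddCommGroup M] [Module ℂ M] {k : ℕ}
    (f : Fin n → (M →ₗ[ℂ] T n k)) (c : Fin n) (x : M) : hd c (tnL f x) = f c x := by
  rw [show tnL f x = tn (fun c => f c x) from rfl, hd_tn]

theorem inner_eq {k : ℕ} (ξ η : T n k) : ⟪ξ, η⟫_ℂ = ∑ j, (starRingEnd ℂ) (ξ j) * η j := by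
  rw [PiLp.inner_apply]
  refine Finset.sum_congr rfl fun j _ => ?_
  rw [RCLike.inner_apply, mul_comm]

theorem inner_hd {k : ℕ} (ξ η : T n (k + 1)) : ⟪ξ, η⟫_ℂ = ∑ c, ⟪hd c ξ, hd c η⟫_ℂ := by
  simp only [inner_eq, hd_apply]
  rw [← (Fin.consEquiv (fun _ : Fin (k + 1) => Fin n)).sum_comp, Fintype.sum_prod_type]
  rfl

/-- Contraction of the first slot with a vector. -/
def con {k : ℕ} (v : Fin n → ℂ) : T n (k + 1) →ₗ[ℂ] T n k := ∑ c, v c • hd c

theorem con_apply {k : ℕ} (v : Fin n → ℂ) (ξ : T n (k + 1)) : con v ξ = ∑ c, v c • hd c ξ := by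
  simp [con]

/-- Tensoring with a vector on the left. -/
def ten {k : ℕ} (v : Fin n → ℂ) : T n k →ₗ[ℂ] T n (k + 1) := tnL (fun c => v c • LinearMap.id)

@[simp] theorem hd_ten {k : ℕ} (v : Fin n → ℂ) (y : T n k) (c : Fin n) :
    hd c (ten v y) = v c • y := by
  simp [ten]

/-- The standard basis vector. -/
def dl (c : Fin n) : Fin n → ℂ := fun i => if i = c then 1 else 0

theorem con_add {k : ℕ} (v w : Fin n → ℂ) (ξ : T n (k + 1)) :
    con (v + w) ξ = con v ξ + con w ξ := by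
  simp only [con_apply, Pi.add_apply, add_smul, Finset.sum_add_distrib]

theorem con_sub {k : ℕ} (v w : Fin n → ℂ) (ξ : T n (k + 1)) :
    con (v - w) ξ = con v ξ - con w ξ := by
  simp only [con_apply, Pi.sub_apply, sub_smul, Finset.sum_sub_distrib]

theorem con_smul {k : ℕ} (z : ℂ) (v : Fin n → ℂ) (ξ : T n (k + 1)) :
    con (z • v) ξ = z • con v ξ := by
  simp only [con_apply, Pi.smul_apply, smul_eq_mul, mul_smul, Finset.smul_sum]

theorem con_dl {k : ℕ} (c : Fin n) (ξ : T n (k + 1)) : con (dl c) ξ = hd c ξ := by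
  simp [con_apply, dl]

theorem ten_add {k : ℕ} (v w : Fin n → ℂ) (y : T n k) :
    ten (v + w) y = ten v y + ten w y := by
  apply ext_hd; intro c
  rw [map_add, hd_ten, hd_ten, hd_ten, Pi.add_apply, add_smul]

theorem ten_sub {k : ℕ} (v w : Fin n → ℂ) (y : T n k) :
    ten (v - w) y = ten v y - ten w y := by
  apply ext_hd; intro c
  rw [map_sub, hd_ten, hd_ten, hd_ten, Pi.sub_apply, sub_smul]

theorem ten_smul {k : ℕ} (z : ℂ) (v : Fin n → ℂ) (y : T n k) :
    ten (z • v) y = z • ten v y := by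
  apply ext_hd; intro c
  rw [map_smul, hd_ten, hd_ten, Pi.smul_apply, smul_eq_mul, mul_smul]

/-- Bilinear pairing. -/
def pr (v w : Fin n → ℂ) : ℂ := ∑ c, v c * w c

theorem con_ten {k : ℕ} (v w : Fin n → ℂ) (y : T n k) : con v (ten w y) = pr v w • y := by
  simp only [con_apply, hd_ten, smul_smul, ← Finset.sum_smul, pr]

theorem pr_comm (v w : Fin n → ℂ) : pr v w = pr w v := by
  simp only [pr, mul_comm]

theorem inner_ten {k : ℕ} (v : Fin n → ℂ) (hv : ∀ c, (starRingEnd ℂ) (v c) = v c) (y : T n k)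
    (ξ : T n (k + 1)) : ⟪ten v y, ξ⟫_ℂ = ⟪y, con v ξ⟫_ℂ := by
  rw [inner_hd, con_apply, inner_sum]
  refine Finset.sum_congr rfl fun c _ => ?_
  rw [hd_ten, inner_smul_left, inner_smul_right, hv]

theorem inner_ten' {k : ℕ} (v : Fin n → ℂ) (hv : ∀ c, (starRingEnd ℂ) (v c) = v c) (y : T n k)
    (ξ : T n (k + 1)) : ⟪ξ, ten v y⟫_ℂ = ⟪con v ξ, y⟫_ℂ := by
  rw [← inner_conj_symm, inner_ten v hv, inner_conj_symm]

theorem dl_real (c i : Fin n) : (starRingEnd ℂ) (dl c i) = dl c i := by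
  unfold dl; split_ifs <;> simp

theorem inner_ten_dl {k : ℕ} (c : Fin n) (y : T n k) (ξ : T n (k + 1)) :
    ⟪ten (dl c) y, ξ⟫_ℂ = ⟪y, hd c ξ⟫_ℂ := by
  rw [inner_ten _ (dl_real c), con_dl]

theorem inner_ten_dl' {k : ℕ} (c : Fin n) (y : T n k) (ξ : T n (k + 1)) :
    ⟪ξ, ten (dl c) y⟫_ℂ = ⟪hd c ξ, y⟫_ℂ := by
  rw [inner_ten' _ (dl_real c), con_dl]

theorem sum_ten_hd {k : ℕ} (ξ : T n (k + 1)) : ξ = ∑ c, ten (dl c) (hd c ξ) := by
  apply ext_hd; intro c
  rw [map_sum]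
  simp [dl]

/-- Renaming of the colours. -/
def per {k : ℕ} (σ : Equiv.Perm (Fin n)) : T n k →ₗ[ℂ] T n k where
  toFun ξ := WithLp.toLp 2 (fun j => ξ (fun i => σ (j i)))
  map_add' _ _ := rfl
  map_smul' _ _ := rfl

theorem per_apply {k : ℕ} (σ : Equiv.Perm (Fin n)) (ξ : T n k) (j : Fin k → Fin n) :
    per σ ξ j = ξ (fun i => σ (j i)) := rfl

theorem hd_per {k : ℕ} (σ : Equiv.Perm (Fin n)) (ξ : T n (k + 1)) (c : Fin n) :
    hd c (per σ ξ) = per σ (hd (σ c) ξ) := by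
  ext j
  rw [hd_apply, per_apply, per_apply, hd_apply]
  refine congrArg (fun f : Fin (k + 1) → Fin n => ξ f) (funext fun i => ?_)
  refine Fin.cases ?_ (fun i => ?_) i
  · simp
  · simp

theorem per_symm {k : ℕ} (σ : Equiv.Perm (Fin n)) (ξ : T n k) : per σ (per σ.symm ξ) = ξ := by
  ext j
  simp [per_apply]

theorem per_symm' {k : ℕ} (σ : Equiv.Perm (Fin n)) (ξ : T n k) : per σ.symm (per σ ξ) = ξ := by
  ext j
  simp [per_apply]

theorem inner_per {k : ℕ} (σ : Equiv.Perm (Fin n)) (ξ η : T n k) :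
    ⟪per σ ξ, η⟫_ℂ = ⟪ξ, per σ.symm η⟫_ℂ := by
  rw [inner_eq, inner_eq]
  refine Eq.trans ?_ (Equiv.sum_comp (Equiv.arrowCongr (Equiv.refl (Fin k)) σ)
    (fun j => (starRingEnd ℂ) (ξ j) * (per σ.symm η) j))
  refine Finset.sum_congr rfl fun j _ => ?_
  rw [per_apply, per_apply]
  have h : (fun i => σ.symm ((Equiv.arrowCongr (Equiv.refl (Fin k)) σ) j i)) = j := by
    funext i; simp
  rw [h]
  rfl

theorem con_per {k : ℕ} (σ : Equiv.Perm (Fin n)) (v : Fin n → ℂ) (ξ : T n (k + 1)) :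
    con v (per σ ξ) = per σ (con (fun c => v (σ.symm c)) ξ) := by
  rw [con_apply, con_apply, map_sum]
  refine Eq.trans ?_ (Equiv.sum_comp σ (fun c => per σ ((v (σ.symm c)) • hd c ξ)))
  refine Finset.sum_congr rfl fun c _ => ?_
  rw [hd_per, map_smul, Equiv.symm_apply_apply]

theorem per_ten {k : ℕ} (σ : Equiv.Perm (Fin n)) (v : Fin n → ℂ) (y : T n k) :
    per σ (ten v y) = ten (fun c => v (σ c)) (per σ y) := by
  apply ext_hd; intro c
  rw [hd_per, hd_ten, hd_ten, map_smul]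

/-- The unit of the ground field as a tensor. -/
def one0 : T n 0 := WithLp.toLp 2 (fun _ => 1)

theorem T0_eq (ξ : T n 0) : ξ = (ξ (fun i => i.elim0)) • (one0 : T n 0) := by
  ext j
  have : j = fun i => i.elim0 := Subsingleton.elim _ _
  subst this
  simp [one0]

theorem inner_one0 : ⟪(one0 : T n 0), one0⟫_ℂ = 1 := by
  rw [inner_eq]
  simp [one0]

theorem per_one0 (σ : Equiv.Perm (Fin n)) : per σ (one0 : T n 0) = one0 := rfl

/-- Merging of the first two slots. -/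
def mrg {k : ℕ} : T n (k + 2) →ₗ[ℂ] T n (k + 1) := tnL (fun c => hd c ∘ₗ hd c)

@[simp] theorem hd_mrg {k : ℕ} (ξ : T n (k + 2)) (c : Fin n) : hd c (mrg ξ) = hd c (hd c ξ) := by
  simp [mrg]

/-- The all-one vector. -/
def uno : Fin n → ℂ := fun _ => 1

theorem uno_real (c : Fin n) : (starRingEnd ℂ) ((uno : Fin n → ℂ) c) = uno c := by
  simp [uno]

end

end H46QP
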