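import Pool.Agent.H46.QP.Pi

/-!
The spaces W of tensors with zero slot sums and zero adjacent diagonals; alternating tensors.
-/

namespace H46QP

open scoped InnerProductSpace

noncomputable section

variable {n : ℕ}

theorem conX_eq (e : Gr n) {k : ℕ} (ζ : T n (k + 1)) :
    con e.fX ζ = hd e.a ζ - hd e.b ζ := by
  rw [Gr.fX, con_sub, con_dl, con_dl]

theorem conY_eq (e : Gr n) {k : ℕ} (ζ : T n (k + 1)) :
    con e.fY ζ = hd e.c ζ - hd e.d ζ := conX_eq e.sw ζ

theorem mrg_pi (e : Gr n) (k : ℕ) (w : ℤ) (ξ : T n (k + 2)) :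
    mrg (pi e (k + 2) w ξ) = pi e (k + 1) w (mrg ξ) := by
  apply ext_hd; intro i
  rw [hd_mrg, hd_pi, hd_pi]
  simp only [map_add, map_smul, map_sub]
  by_cases ha : i = e.a
  · subst ha
    simp only [hd_pi, fX_a, fY_a, conX_eq, conY_eq, map_sub, hd_mrg, sub_sub_cancel]
    module
  by_cases hb : i = e.b
  · subst hb
    simp only [hd_pi, fX_b, fY_b, conX_eq, conY_eq, map_sub, hd_mrg, sub_sub_cancel]
    module
  by_cases hc : i = e.c
  · subst hc
    simp only [hd_pi, fX_c, fY_c, conX_eq, conY_eq, map_sub, hd_mrg, sub_sub_cancel]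
    module
  by_cases hd' : i = e.d
  · subst hd'
    simp only [hd_pi, fX_d, fY_d, conX_eq, conY_eq, map_sub, hd_mrg, sub_sub_cancel]
    module
  · simp only [hd_pi, fX_of_ne e ha hb, fY_of_ne e hc hd', hd_mrg]
    module

theorem mrg_per {k : ℕ} (σ : Equiv.Perm (Fin n)) (ξ : T n (k + 2)) :
    mrg (per σ ξ) = per σ (mrg ξ) := by
  apply ext_hd; intro i
  rw [hd_mrg, hd_per, hd_per, hd_per, hd_mrg]

/-- Tensors with vanishing slot sums and vanishing adjacent diagonals. -/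
def W (n : ℕ) : (k : ℕ) → Submodule ℂ (T n k)
  | 0 => ⊤
  | 1 => LinearMap.ker (con uno)
  | k + 2 => (⨅ c, (W n (k + 1)).comap (hd c)) ⊓ LinearMap.ker (con uno) ⊓ LinearMap.ker mrg

theorem mem_W1 (ξ : T n 1) : ξ ∈ W n 1 ↔ con uno ξ = 0 := by
  rw [W, LinearMap.mem_ker]

theorem mem_W2 {k : ℕ} (ξ : T n (k + 2)) : ξ ∈ W n (k + 2) ↔
    (∀ c, hd c ξ ∈ W n (k + 1)) ∧ con uno ξ = 0 ∧ mrg ξ = 0 := by
  rw [W, Submodule.mem_inf, Submodule.mem_inf, Submodule.mem_iInf, LinearMap.mem_ker,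
    LinearMap.mem_ker, and_assoc]
  rfl

theorem W_hd {k : ℕ} {ξ : T n (k + 1)} (h : ξ ∈ W n (k + 1)) (c : Fin n) : hd c ξ ∈ W n k := by
  cases k with
  | zero => exact Submodule.mem_top
  | succ k => exact ((mem_W2 ξ).1 h).1 c

theorem W_uno {k : ℕ} {ξ : T n (k + 1)} (h : ξ ∈ W n (k + 1)) : con uno ξ = 0 := by
  cases k with
  | zero => exact (mem_W1 ξ).1 h
  | succ k => exact ((mem_W2 ξ).1 h).2.1

theorem W_mrg {k : ℕ} {ξ : T n (k + 2)} (h : ξ ∈ W n (k + 2)) : mrg ξ = 0 :=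
  ((mem_W2 ξ).1 h).2.2

theorem W_con {k : ℕ} {ξ : T n (k + 1)} (h : ξ ∈ W n (k + 1)) (v : Fin n → ℂ) :
    con v ξ ∈ W n k := by
  rw [con_apply]
  exact Submodule.sum_mem _ fun c _ => Submodule.smul_mem _ _ (W_hd h c)

theorem Triv_uno (e : Gr n) : Triv e uno := by
  constructor
  · rw [pr_fX]; simp [uno]
  · rw [pr_fY]; simp [uno]

theorem W_pi (e : Gr n) (k : ℕ) (w : ℤ) {ξ : T n k} (h : ξ ∈ W n k) : pi e k w ξ ∈ W n k := by
  induction k generalizing w with
  | zero => exact Submodule.mem_top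
  | succ k ih =>
    have hh : ∀ i, hd i (pi e (k + 1) w ξ) ∈ W n k := by
      intro i
      rw [hd_pi]
      exact Submodule.add_mem _ (Submodule.add_mem _ (ih _ (W_hd h i))
        (Submodule.smul_mem _ _ (Submodule.sub_mem _ (ih _ (W_con h _)) (ih _ (W_con h _)))))
        (Submodule.smul_mem _ _ (Submodule.sub_mem _ (ih _ (W_con h _)) (ih _ (W_con h _))))
    have hu : con uno (pi e (k + 1) w ξ) = 0 := by
      rw [con_pi_triv e k w ξ (Triv_uno e), W_uno h, map_zero]
    cases k with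
    | zero => exact (mem_W1 _).2 hu
    | succ k =>
      refine (mem_W2 _).2 ⟨hh, hu, ?_⟩
      rw [mrg_pi, W_mrg h, map_zero]

theorem W_per (σ : Equiv.Perm (Fin n)) (k : ℕ) {ξ : T n k} (h : ξ ∈ W n k) :
    per σ ξ ∈ W n k := by
  induction k with
  | zero => exact Submodule.mem_top
  | succ k ih =>
    have hh : ∀ i, hd i (per σ ξ) ∈ W n k := by
      intro i
      rw [hd_per]
      exact ih (W_hd h _)
    have hu : con uno (per σ ξ) = 0 := by
      rw [con_per]
      change per σ (con uno ξ) = 0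
      rw [W_uno h, map_zero]
    cases k with
    | zero => exact (mem_W1 _).2 hu
    | succ k =>
      refine (mem_W2 _).2 ⟨hh, hu, ?_⟩
      rw [mrg_per, W_mrg h, map_zero]

/-- The alternating tensor of length k. -/
def alt : (k : ℕ) → Gr n → T n k
  | 0, _ => one0
  | k + 1, e => ten e.fX (alt k e.sw)

theorem alt_succ (k : ℕ) (e : Gr n) : alt (k + 1) e = ten e.fX (alt k e.sw) := rfl

theorem alt_inner (k : ℕ) (e : Gr n) : ⟪alt k e, alt k e⟫_ℂ = 2 ^ k := by
  induction k generalizing e with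
  | zero => rw [alt, inner_one0, pow_zero]
  | succ k ih =>
    rw [alt_succ, inner_ten _ (fX_real e), con_ten, prXX, inner_smul_right, ih, pow_succ]
    ring

theorem alt_inner_ne (k : ℕ) (e : Gr n) : ⟪alt k e, alt k e⟫_ℂ ≠ 0 := by
  rw [alt_inner]
  exact pow_ne_zero _ two_ne_zero

theorem alt_ne (k : ℕ) (e : Gr n) : alt k e ≠ 0 := by
  intro h
  apply alt_inner_ne k e
  rw [h, inner_zero_left]

theorem alt_W (k : ℕ) (e : Gr n) : alt k e ∈ W n k := by
  induction k generalizing e with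
  | zero => exact Submodule.mem_top
  | succ k ih =>
    have hu : con uno (alt (k + 1) e) = 0 := by
      rw [alt_succ, con_ten, (Triv_uno e).1, zero_smul]
    have hh : ∀ i, hd i (alt (k + 1) e) ∈ W n k := by
      intro i
      rw [alt_succ, hd_ten]
      exact Submodule.smul_mem _ _ (ih _)
    cases k with
    | zero => exact (mem_W1 _).2 hu
    | succ k =>
      refine (mem_W2 _).2 ⟨hh, hu, ?_⟩
      apply ext_hd; intro i
      rw [hd_mrg, alt_succ, alt_succ, hd_ten, map_smul, hd_ten, smul_smul, Gr.fX_sw, fXfY,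
        zero_smul, map_zero]

theorem pi_alt (k : ℕ) (e : Gr n) : pi e k k (alt k e) = alt k e := by
  induction k generalizing e with
  | zero => simp [pi]
  | succ k ih =>
    have h := ih e.sw
    rw [pi_sw] at h
    rw [alt_succ, pi_tenX]
    push_cast
    rw [show (1 : ℤ) - (k + 1) = -k by ring, h]

theorem pi_top (k : ℕ) (e : Gr n) (ξ : T n k) : ∃ z : ℂ, pi e k k ξ = z • alt k e := by
  induction k generalizing e with
  | zero => exact ⟨_, by rw [alt, pi]; simpa using T0_eq ξ⟩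
  | succ k ih =>
    obtain ⟨z, hz⟩ := ih e.sw (con e.fX ξ)
    rw [pi_sw] at hz
    refine ⟨1 / 2 * z, ?_⟩
    apply ext_hd; intro i
    rw [hd_pi]
    push_cast
    rw [pi_eq_zero e k (k + 1) (by rw [lt_abs]; left; linarith),
      pi_eq_zero e k (k + 1) (by rw [lt_abs]; left; linarith),
      pi_eq_zero e k (k + 1) (by rw [lt_abs]; left; linarith),
      pi_eq_zero e k (-1 - (k + 1)) (by rw [lt_abs]; right; linarith),
      show (1 : ℤ) - (k + 1) = -k by ring, hz, map_smul, alt_succ, hd_ten]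
    module

theorem pi_top' (k : ℕ) (e : Gr n) (ξ : T n k) :
    pi e k k ξ = (⟪alt k e, ξ⟫_ℂ / 2 ^ k) • alt k e := by
  obtain ⟨z, hz⟩ := pi_top k e ξ
  have h : ⟪alt k e, ξ⟫_ℂ = z * 2 ^ k := by
    rw [← pi_alt, inner_pi, hz, inner_smul_right, alt_inner]
  have h2 : (2 : ℂ) ^ k ≠ 0 := pow_ne_zero _ two_ne_zero
  rw [hz, h, mul_div_assoc, div_self h2, mul_one]

theorem pi_top_zero (k : ℕ) (e : Gr n) (ξ : T n k) (h : ⟪alt k e, ξ⟫_ℂ = 0) :
    pi e k k ξ = 0 := by
  rw [pi_top', h, zero_div, zero_smul]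

theorem alt_zero_of_pi (k : ℕ) (e : Gr n) (ξ : T n k) (h : pi e k k ξ = 0) :
    ⟪alt k e, ξ⟫_ℂ = 0 := by
  rw [← pi_alt, inner_pi, h, inner_zero_right]

theorem alt_map (k : ℕ) (e : Gr n) (σ : Equiv.Perm (Fin n)) :
    per σ (alt k (e.map σ)) = alt k e := by
  induction k generalizing e with
  | zero => rfl
  | succ k ih =>
    rw [alt_succ, alt_succ, per_ten]
    have h := ih e.sw
    change per σ (alt k (e.map σ).sw) = alt k e.sw at h
    rw [h, fX_map]
    simp only [Equiv.symm_apply_apply]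

end

end H46QP
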